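import Mathlib

set_option autoImplicit false

/-!
# Cohesive powers of countable fields

Definitions used in the statement about automorphisms of cohesive powers of number fields.
-/

namespace Pool.Agent.Helper437.CP

/-- A set `C` of natural numbers is *cohesive* if it is infinite and for every computably
enumerable set `W` at least one of `C ∩ W` and `C \ W` is finite. -/
def Cohesive (C : Set ℕ) : Prop :=
  C.Infinite ∧ ∀ W : ℕ → Prop, REPred W → (C ∩ {n | W n}).Finite ∨ (C \ {n | W n}).Finite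

/-- A *computable presentation* of the field `F` with domain `ℕ`: a bijection of `F` with `ℕ`
such that addition and multiplication become computable functions on `ℕ`. -/
structure Pres (F : Type) [Field F] where
  /-- the coding of the elements of `F` by natural numbers -/
  e : F ≃ ℕ
  add : Computable₂ fun a b : ℕ => e (e.symm a + e.symm b)
  mul : Computable₂ fun a b : ℕ => e (e.symm a * e.symm b)

/-- `D C`: the partial computable functions whose domain contains all but finitely many elements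
of `C`. -/
def D (C : Set ℕ) : Type := {φ : ℕ →. ℕ // Partrec φ ∧ (C \ φ.Dom).Finite}

/-- `φ =_C ψ`: for all but finitely many `n ∈ C` both `φ n` and `ψ n` are defined and equal. -/
def D.Eqv {C : Set ℕ} (φ ψ : D C) : Prop := (C \ {n | ∃ m, m ∈ φ.1 n ∧ m ∈ ψ.1 n}).Finite

instance D.setoid (C : Set ℕ) : Setoid (D C) where
  r := D.Eqv
  iseqv := by
    refine ⟨?_, ?_, ?_⟩
    · intro φ
      refine φ.2.2.subset ?_
      rintro n ⟨hn, h⟩
      refine ⟨hn, fun hd => h ?_⟩
      obtain ⟨m, hm⟩ := Part.dom_iff_mem.1 hd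
      exact ⟨m, hm, hm⟩
    · intro φ ψ h
      refine h.subset ?_
      rintro n ⟨hn, h⟩
      exact ⟨hn, fun ⟨m, h1, h2⟩ => h ⟨m, h2, h1⟩⟩
    · intro φ ψ χ h1 h2
      refine (h1.union h2).subset ?_
      rintro n ⟨hn, h⟩
      by_contra hc
      simp only [Set.mem_union, not_or] at hc
      obtain ⟨hc1, hc2⟩ := hc
      have e1 : ∃ m, m ∈ φ.1 n ∧ m ∈ ψ.1 n := by
        by_contra h'; exact hc1 ⟨hn, h'⟩
      have e2 : ∃ m, m ∈ ψ.1 n ∧ m ∈ χ.1 n := by
        by_contra h'; exact hc2 ⟨hn, h'⟩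
      obtain ⟨m, a, b⟩ := e1
      obtain ⟨m', a', b'⟩ := e2
      have := Part.mem_unique b a'
      subst this
      exact h ⟨m, a, b'⟩

/-- pointwise application of a computable function -/
def D.map {C : Set ℕ} (f : ℕ → ℕ) (hf : Computable f) (φ : D C) : D C :=
  ⟨fun n => (φ.1 n).map f, φ.2.1.map (hf.comp Computable.snd).to₂, by
    refine φ.2.2.subset ?_
    rintro n ⟨hn, h⟩
    exact ⟨hn, fun hd => h hd⟩⟩

/-- pointwise application of a computable function of two variables -/
def D.map₂ {C : Set ℕ} (f : ℕ → ℕ → ℕ) (hf : Computable₂ f) (φ ψ : D C) : D C :=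
  ⟨fun n => (φ.1 n).bind fun a => (ψ.1 n).map fun b => f a b, by
    refine Partrec.bind φ.2.1 ?_
    have h1 : Partrec fun p : ℕ × ℕ => ψ.1 p.1 := ψ.2.1.comp Computable.fst
    have h2 : Computable₂ fun (p : ℕ × ℕ) (b : ℕ) => f p.2 b :=
      (hf.comp (Computable.snd.comp Computable.fst) Computable.snd)
    exact (h1.map h2).to₂, by
    refine (φ.2.2.union ψ.2.2).subset ?_
    rintro n ⟨hn, h⟩
    by_contra hc
    simp only [Set.mem_union, not_or] at hc
    have e1 : n ∈ φ.1.Dom := by by_contra h'; exact hc.1 ⟨hn, h'⟩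
    have e2 : n ∈ ψ.1.Dom := by by_contra h'; exact hc.2 ⟨hn, h'⟩
    exact h ⟨e1, e2⟩⟩

/-- The *cohesive power* `∏_C F` of the computable field `F` (given by its presentation `P`):
the elements are the classes of `D C` modulo `=_C`. -/
def CohPow {F : Type} [Field F] (_P : Pres F) (C : Set ℕ) : Type := Quotient (D.setoid C)

variable {F : Type} [Field F] (P : Pres F) (C : Set ℕ)

/-- the class of a partial computable function in the cohesive power -/
def CohPow.mk (φ : D C) : CohPow P C := Quotient.mk (D.setoid C) φ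

/-- pointwise addition -/
instance : Add (CohPow P C) :=
  ⟨Quotient.map₂ (D.map₂ _ P.add) (by
    intro φ φ' h ψ ψ' h'
    refine (Set.Finite.union h h').subset ?_
    rintro n ⟨hn, hh⟩
    by_contra hc
    simp only [Set.mem_union, not_or] at hc
    have e1 : ∃ m, m ∈ φ.1 n ∧ m ∈ φ'.1 n := by by_contra h'; exact hc.1 ⟨hn, h'⟩
    have e2 : ∃ m, m ∈ ψ.1 n ∧ m ∈ ψ'.1 n := by by_contra h'; exact hc.2 ⟨hn, h'⟩
    obtain ⟨a, ha, ha'⟩ := e1
    obtain ⟨b, hb, hb'⟩ := e2
    exact hh ⟨P.e (P.e.symm a + P.e.symm b),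
      Part.mem_bind ha (Part.mem_map _ hb), Part.mem_bind ha' (Part.mem_map _ hb')⟩)⟩

/-- pointwise multiplication -/
instance : Mul (CohPow P C) :=
  ⟨Quotient.map₂ (D.map₂ _ P.mul) (by
    intro φ φ' h ψ ψ' h'
    refine (Set.Finite.union h h').subset ?_
    rintro n ⟨hn, hh⟩
    by_contra hc
    simp only [Set.mem_union, not_or] at hc
    have e1 : ∃ m, m ∈ φ.1 n ∧ m ∈ φ'.1 n := by by_contra h'; exact hc.1 ⟨hn, h'⟩
    have e2 : ∃ m, m ∈ ψ.1 n ∧ m ∈ ψ'.1 n := by by_contra h'; exact hc.2 ⟨hn, h'⟩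
    obtain ⟨a, ha, ha'⟩ := e1
    obtain ⟨b, hb, hb'⟩ := e2
    exact hh ⟨P.e (P.e.symm a * P.e.symm b),
      Part.mem_bind ha (Part.mem_map _ hb), Part.mem_bind ha' (Part.mem_map _ hb')⟩)⟩

end Pool.Agent.Helper437.CP
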