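import Mathlib
import Pool.Agent.Helper437.CP.Defs

set_option autoImplicit false

namespace Pool.Agent.Helper437.CP

open Filter

/-- the filter of cofinite subsets of `C` -/
def fl (C : Set ℕ) : Filter ℕ := cofinite ⊓ 𝓟 C

theorem fl_iff {C : Set ℕ} {p : ℕ → Prop} : (∀ᶠ n in fl C, p n) ↔ (C \ {n | p n}).Finite := by
  rw [fl, eventually_inf_principal, Filter.eventually_cofinite]
  have : {n | ¬ (n ∈ C → p n)} = C \ {n | p n} := by
    ext n
    simp
  rw [this]

theorem fl_neBot {C : Set ℕ} (hC : Cohesive C) : (fl C).NeBot := by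
  rw [Filter.neBot_iff]
  intro h
  have : ∀ᶠ n in fl C, False := by rw [h]; exact Filter.eventually_bot
  rw [fl_iff] at this
  have h2 := hC.1
  apply h2
  simpa using this

/-- `f : ℕ → A` agrees almost everywhere on `C` with a partial computable function -/
def IsPC (C : Set ℕ) {A : Type} [Primcodable A] (f : ℕ → A) : Prop :=
  ∃ φ : ℕ →. A, Partrec φ ∧ ∀ᶠ n in fl C, f n ∈ φ n

/-- computable field operations -/
class CF (F : Type) [Field F] [Primcodable F] : Prop where
  add : Computable₂ fun a b : F => a + b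
  mul : Computable₂ fun a b : F => a * b

section base

variable {C : Set ℕ} {A B : Type} [Primcodable A] [Primcodable B]

theorem IsPC.const (a : A) : IsPC C (fun _ : ℕ => a) :=
  ⟨fun _ => Part.some a, Computable.const a, Filter.Eventually.of_forall fun _ => Part.mem_some _⟩

theorem IsPC.of_computable {f : ℕ → A} (hf : Computable f) : IsPC C f :=
  ⟨fun n => Part.some (f n), hf, Filter.Eventually.of_forall fun _ => Part.mem_some _⟩

theorem IsPC.congr {f g : ℕ → A} (hf : IsPC C f) (h : f =ᶠ[fl C] g) : IsPC C g := by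
  obtain ⟨φ, h1, h2⟩ := hf
  refine ⟨φ, h1, ?_⟩
  filter_upwards [h2, h] with n a b
  rw [← b]; exact a

theorem IsPC.comp {f : ℕ → A} {g : A → B} (hg : Computable g) (hf : IsPC C f) :
    IsPC C (fun n => g (f n)) := by
  obtain ⟨φ, h1, h2⟩ := hf
  refine ⟨fun n => (φ n).map g, h1.map (hg.comp Computable.snd).to₂, ?_⟩
  filter_upwards [h2] with n a
  exact Part.mem_map _ a

theorem IsPC.pair {f : ℕ → A} {g : ℕ → B} (hf : IsPC C f) (hg : IsPC C g) :
    IsPC C (fun n => (f n, g n)) := by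
  obtain ⟨φ, h1, h2⟩ := hf
  obtain ⟨ψ, h3, h4⟩ := hg
  refine ⟨fun n => (φ n).bind fun a => (ψ n).map fun b => (a, b), ?_, ?_⟩
  · refine Partrec.bind h1 ?_
    have h5 : Partrec fun p : ℕ × A => ψ p.1 := h3.comp Computable.fst
    have h6 : Computable₂ fun (p : ℕ × A) (b : B) => (p.2, b) :=
      (Computable.snd.comp Computable.fst).pair Computable.snd
    exact (h5.map h6).to₂
  · filter_upwards [h2, h4] with n a b
    exact Part.mem_bind a (Part.mem_map _ b)

theorem IsPC.comp₂ {D' : Type} [Primcodable D'] {f : ℕ → A} {g : ℕ → B} {h : A → B → D'}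
    (hh : Computable₂ h) (hf : IsPC C f) (hg : IsPC C g) : IsPC C (fun n => h (f n) (g n)) :=
  IsPC.comp (g := fun p : A × B => h p.1 p.2) hh (hf.pair hg)

variable {F : Type} [Field F] [Primcodable F] [CF F]

theorem IsPC.add {f g : ℕ → F} (hf : IsPC C f) (hg : IsPC C g) : IsPC C (fun n => f n + g n) :=
  IsPC.comp₂ CF.add hf hg

theorem IsPC.mul {f g : ℕ → F} (hf : IsPC C f) (hg : IsPC C g) : IsPC C (fun n => f n * g n) :=
  IsPC.comp₂ CF.mul hf hg

theorem IsPC.neg {f : ℕ → F} (hf : IsPC C f) : IsPC C (fun n => - f n) := by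
  have := IsPC.comp₂ CF.mul (IsPC.const (C := C) (-1 : F)) hf
  refine this.congr (Filter.Eventually.of_forall fun n => ?_)
  simp

variable (C F) in
/-- the cohesive power as a subring of the ring of germs along `fl C` -/
def KS : Subring (Germ (fl C) F) where
  carrier := {x | ∃ f : ℕ → F, IsPC C f ∧ x = (f : Germ (fl C) F)}
  mul_mem' := by
    rintro _ _ ⟨f, hf, rfl⟩ ⟨g, hg, rfl⟩
    exact ⟨_, hf.mul hg, rfl⟩
  one_mem' := ⟨_, IsPC.const 1, rfl⟩
  add_mem' := by
    rintro _ _ ⟨f, hf, rfl⟩ ⟨g, hg, rfl⟩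
    exact ⟨_, hf.add hg, rfl⟩
  zero_mem' := ⟨_, IsPC.const 0, rfl⟩
  neg_mem' := by
    rintro _ ⟨f, hf, rfl⟩
    exact ⟨_, hf.neg, rfl⟩

/-- the element of `KS C F` given by `f` -/
def of (f : ℕ → F) (hf : IsPC C f) : KS C F := ⟨(f : Germ (fl C) F), f, hf, rfl⟩

/-- constants -/
def cst (C : Set ℕ) (c : F) : KS C F := of (fun _ => c) (IsPC.const c)

theorem exists_rep (x : KS C F) : ∃ (f : ℕ → F) (hf : IsPC C f), x = of f hf := by
  obtain ⟨_, f, hf, rfl⟩ := x
  exact ⟨f, hf, rfl⟩

theorem of_eq {f g : ℕ → F} {hf : IsPC C f} {hg : IsPC C g} :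
    of f hf = of g hg ↔ ∀ᶠ n in fl C, f n = g n := by
  rw [Subtype.ext_iff]
  exact Germ.coe_eq

theorem of_add {f g : ℕ → F} (hf : IsPC C f) (hg : IsPC C g) :
    of f hf + of g hg = of (fun n => f n + g n) (hf.add hg) := rfl

theorem of_mul {f g : ℕ → F} (hf : IsPC C f) (hg : IsPC C g) :
    of f hf * of g hg = of (fun n => f n * g n) (hf.mul hg) := rfl

theorem of_neg {f : ℕ → F} (hf : IsPC C f) : - of f hf = of (fun n => - f n) hf.neg := rfl

theorem of_sub {f g : ℕ → F} (hf : IsPC C f) (hg : IsPC C g) (h : IsPC C (fun n => f n - g n)) :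
    of f hf - of g hg = of (fun n => f n - g n) h := rfl

theorem of_pow {f : ℕ → F} (hf : IsPC C f) (k : ℕ) (h : IsPC C (fun n => f n ^ k)) :
    of f hf ^ k = of (fun n => f n ^ k) h := rfl

theorem cst_zero : cst C (0 : F) = 0 := rfl
theorem cst_one : cst C (1 : F) = 1 := rfl
theorem cst_add (a b : F) : cst C (a + b) = cst C a + cst C b := rfl
theorem cst_mul (a b : F) : cst C (a * b) = cst C a * cst C b := rfl

end base

end Pool.Agent.Helper437.CP
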