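import Mathlib
import Pool.Agent.Helper437.CP.Base

set_option autoImplicit false

namespace Pool.Agent.Helper437.CP

variable {F : Type} [Field F]

/-- `O_F[1/N]` -/
def RN (F : Type) [Field F] (N : ℕ) : Set F := {x | ∃ k : ℕ, IsIntegral ℤ ((N : F) ^ k * x)}

def SS (a b : F) : Set F := {x | ∃ s r w : F, x ^ 2 - 4 = a * s ^ 2 + b * r ^ 2 - a * b * w ^ 2}

def Fam (c0 c : F) : Set F :=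
  {b | b ≠ 0 ∧ ∃ y0 y1 y2 : F, b = (y0 ^ 2 + c0 * (y1 ^ 2 + y1 * y2 + c * y2 ^ 2)) ^ 2 + 8 * y0 ^ 4}

/-- certificate for `t ∉ O_F[1/N0]` -/
def Cert (e : ℕ ≃ F) (N0 : ℕ) (G : List F) (t a b : F) (N : ℕ) (x y z : F) : Prop :=
  a ∈ RN F N0 ∧ a⁻¹ ∉ RN F N0 ∧ b ∈ RN F N0 ∧
  (∀ g ∈ G, ∃ k < N, e k ∈ RN F N0 ∧ (g - e k) / a ∈ RN F N0) ∧
  (∀ j < N, ∀ k < N, e j ∈ RN F N0 → e k ∈ RN F N0 →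
    (∃ l < N, e l ∈ RN F N0 ∧ (e j + e k - e l) / a ∈ RN F N0) ∧
    (∃ l < N, e l ∈ RN F N0 ∧ (e j * e k - e l) / a ∈ RN F N0)) ∧
  (∀ j < N, ∀ k < N, e j ∈ RN F N0 → e k ∈ RN F N0 →
    ((e j) ^ 2 - b * (e k) ^ 2) / a ∈ RN F N0 → e j / a ∈ RN F N0 ∧ e k / a ∈ RN F N0) ∧
  x / a ∈ RN F N0 ∧ y ∈ RN F N0 ∧ z ∈ RN F N0 ∧ (y * z - 1) / a ∈ RN F N0 ∧ t * x = y

/-- the statement of the number theoretic part -/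
def NTStatement (F : Type) [Field F] : Prop :=
  ∃ (N0 : ℕ) (c0 c : F) (G : List F) (L : List (F × F)), N0 ≠ 0 ∧ 2 ∣ N0 ∧ (∀ p ∈ L, p.1 ≠ 0) ∧
    (∀ t ∈ RN F 2, ∀ a b : F, a ≠ 0 → (b ∈ Fam c0 c ∨ ∃ p ∈ L, b = p.2) →
      ∃ x ∈ SS a b, t - x ∈ SS a b) ∧
    (∀ t ∈ RN F N0, (∀ p ∈ L, ∃ x ∈ SS p.1 p.2, t - x ∈ SS p.1 p.2) → t ∈ RN F 2) ∧
    (∀ e : ℕ ≃ F, ∀ t : F, t ∉ RN F N0 →
      ∃ (a b : F) (N : ℕ) (x y z : F), a ≠ 0 ∧ b ∈ Fam c0 c ∧ Cert e N0 G t a b N x y z) ∧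
    (∀ (e : ℕ ≃ F) (t a b : F) (N : ℕ) (x y z : F), Cert e N0 G t a b N x y z →
      ¬ ∃ x ∈ SS a b, t - x ∈ SS a b)

end Pool.Agent.Helper437.CP
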