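import Mathlib
import Pool.Agent.Helper437.CP.NTI

set_option autoImplicit false


namespace Pool.Agent.Helper437.CP

open Filter

section general
variable {C : Set ℕ} {A B : Type} [Primcodable A] [Primcodable B]

theorem exists_uniform {R : A → B → Prop} (hR : REPred fun p : A × B => R p.1 p.2) :
    ∃ G : A →. B, Partrec G ∧ (∀ a b, b ∈ G a → R a b) ∧ ∀ a, (∃ b, R a b) → (G a).Dom := by
  have h1 : Partrec fun p : A × B => Part.assert (R p.1 p.2) fun _ => Part.some () := hR
  obtain ⟨c, hc⟩ := Nat.Partrec.Code.exists_code.1 h1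
  have key : ∀ a b, (∃ k x, x ∈ Nat.Partrec.Code.evaln k c (Encodable.encode (a, b))) ↔ R a b := by
    intro a b
    constructor
    · rintro ⟨k, x, hx⟩
      have h2 := Nat.Partrec.Code.evaln_sound hx
      rw [hc] at h2
      simp only [Encodable.encodek, Part.coe_some, Part.bind_some, Part.mem_map_iff,
        Part.mem_assert_iff] at h2
      obtain ⟨_, ⟨h3, _⟩, _⟩ := h2
      exact h3
    · intro hab
      have h2 : Encodable.encode () ∈ Nat.Partrec.Code.eval c (Encodable.encode (a, b)) := by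
        rw [hc]
        simp only [Encodable.encodek, Part.coe_some, Part.bind_some]
        exact Part.mem_map _ (Part.mem_assert_iff.2 ⟨hab, Part.mem_some _⟩)
      obtain ⟨k, hk⟩ := Nat.Partrec.Code.evaln_complete.1 h2
      exact ⟨k, _, hk⟩
  let F : A → ℕ → Option B := fun a m =>
    (Encodable.decode (α := B) m.unpair.1).bind fun b =>
      (Nat.Partrec.Code.evaln m.unpair.2 c (Encodable.encode (a, b))).map fun _ => b
  have hF : Primrec₂ F := by
    refine Primrec.option_bind (α := A × ℕ)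
      (f := fun q => Encodable.decode (α := B) q.2.unpair.1)
      (g := fun q b => (Nat.Partrec.Code.evaln q.2.unpair.2 c (Encodable.encode (q.1, b))).map
        fun _ => b) ?_ ?_
    · exact Primrec.decode.comp (Primrec.fst.comp (Primrec.unpair.comp Primrec.snd))
    · refine Primrec.option_map (α := (A × ℕ) × B)
        (f := fun q => Nat.Partrec.Code.evaln q.1.2.unpair.2 c (Encodable.encode (q.1.1, q.2)))
        (g := fun q _ => q.2) ?_ ?_
      · refine Nat.Partrec.Code.primrec_evaln.comp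
          (Primrec.pair (Primrec.pair ?_ (Primrec.const c)) ?_)
        · exact Primrec.snd.comp (Primrec.unpair.comp (Primrec.snd.comp Primrec.fst))
        · exact Primrec.encode.comp
            (Primrec.pair (Primrec.fst.comp Primrec.fst) Primrec.snd)
      · exact (Primrec.snd.comp Primrec.fst).to₂
  refine ⟨fun a => Nat.rfindOpt (F a), Partrec.rfindOpt hF.to_comp, ?_, ?_⟩
  · intro a b hb
    obtain ⟨m, hm⟩ := Nat.rfindOpt_spec hb
    simp only [F, Option.mem_def, Option.bind_eq_some_iff, Option.map_eq_some_iff] at hm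
    obtain ⟨b', _, x, hx, rfl⟩ := hm
    exact (key a b').1 ⟨_, x, hx⟩
  · rintro a ⟨b, hb⟩
    rw [Nat.rfindOpt_dom]
    obtain ⟨k, x, hx⟩ := (key a b).2 hb
    refine ⟨Nat.pair (Encodable.encode b) k, b, ?_⟩
    simp only [F, Nat.unpair_pair, Encodable.encodek, Option.bind_some, Option.mem_def,
      Option.map_eq_some_iff]
    exact ⟨x, hx, trivial⟩

theorem IsPC.search [Inhabited B] {f : ℕ → A} (hf : IsPC C f)
    {R : A → B → Prop} (hR : REPred fun p : A × B => R p.1 p.2)
    (h : ∀ᶠ n in fl C, ∃ b, R (f n) b) :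
    ∃ g : ℕ → B, IsPC C g ∧ ∀ᶠ n in fl C, R (f n) (g n) := by
  classical
  obtain ⟨φ, h1, h2⟩ := hf
  obtain ⟨G, hG, hs, hd⟩ := exists_uniform hR
  have hmem : ∀ᶠ n in fl C, (if hn : (G (f n)).Dom then (G (f n)).get hn else default) ∈
      G (f n) := by
    filter_upwards [h] with n hn
    rw [dif_pos (hd _ hn)]
    exact Part.get_mem _
  refine ⟨fun n => if hn : (G (f n)).Dom then (G (f n)).get hn else default,
    ⟨fun n => (φ n).bind G, ?_, ?_⟩, ?_⟩
  · exact h1.bind (hG.comp Computable.snd).to₂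
  · filter_upwards [h2, hmem] with n a b
    exact Part.mem_bind a b
  · filter_upwards [hmem] with n a
    exact hs _ _ a

theorem dich (hC : Cohesive C) {f : ℕ → A} (hf : IsPC C f) {p : A → Prop} (hp : REPred p) :
    (∀ᶠ n in fl C, p (f n)) ∨ (∀ᶠ n in fl C, ¬ p (f n)) := by
  obtain ⟨φ, h1, h2⟩ := hf
  have hpart : Partrec fun n : ℕ => (φ n).bind fun a => Part.assert (p a) fun _ => Part.some () := by
    refine Partrec.bind h1 ?_
    exact (Partrec.comp hp Computable.snd).to₂
  have hW : REPred fun n : ℕ => ∃ a ∈ φ n, p a := by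
    refine (Partrec.dom_re hpart).of_eq ?_
    intro n
    rw [Part.bind_dom]
    constructor
    · rintro ⟨h, h'⟩
      exact ⟨(φ n).get h, Part.get_mem h, h'.1⟩
    · rintro ⟨a, ha, hpa⟩
      have hd : (φ n).Dom := Part.dom_iff_mem.mpr ⟨a, ha⟩
      refine ⟨hd, ?_⟩
      have : (φ n).get hd = a := Part.get_eq_of_mem ha hd
      exact ⟨by rw [this]; exact hpa, trivial⟩
  rcases hC.2 _ hW with h | h
  · right
    have h3 : ∀ᶠ n in fl C, ¬ (∃ a ∈ φ n, p a) := by
      rw [fl_iff]
      refine h.subset ?_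
      rintro n ⟨hn, hn'⟩
      refine ⟨hn, ?_⟩
      by_contra hcon
      exact hn' hcon
    filter_upwards [h2, h3] with n a b hc
    exact b ⟨_, a, hc⟩
  · left
    have h3 : ∀ᶠ n in fl C, (∃ a ∈ φ n, p a) := by
      rw [fl_iff]
      exact h
    filter_upwards [h2, h3] with n a b
    obtain ⟨x, hx, hpx⟩ := b
    rwa [Part.mem_unique a hx]

theorem const_of_finite_re {A : Type} [Primcodable A] (a : A) : REPred fun x : A => x = a := by
  classical
  apply ComputablePred.to_re
  rw [ComputablePred.computable_iff]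
  refine ⟨fun x => decide (x = a), ?_, ?_⟩
  · exact (PrimrecPred.decide (Primrec.eq.comp Primrec.id (Primrec.const a))).to_comp
  · funext x
    simp

theorem const_of_finite (hC : Cohesive C) {f : ℕ → A} (hf : IsPC C f) {s : Set A} (hs : s.Finite)
    (h : ∀ᶠ n in fl C, f n ∈ s) : ∃ a ∈ s, ∀ᶠ n in fl C, f n = a := by
  induction s, hs using Set.Finite.induction_on with
  | empty =>
    exfalso
    have hne := fl_neBot hC
    have h2 : ∀ᶠ n in fl C, False := h.mono (fun n hn => hn)
    exact h2.exists.choose_spec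
  | insert ha hs ih =>
    rename_i a s
    rcases dich hC hf (const_of_finite_re a) with h1 | h1
    · exact ⟨a, Set.mem_insert _ _, h1⟩
    · have h2 : ∀ᶠ n in fl C, f n ∈ s := by
        filter_upwards [h, h1] with n hn hn1
        rcases hn with hn | hn
        · exact absurd hn hn1
        · exact hn
      obtain ⟨b, hb, hb'⟩ := ih h2
      exact ⟨b, Set.mem_insert_of_mem _ hb, hb'⟩

theorem re_and {p q : A → Prop} (hp : REPred p) (hq : REPred q) : REPred fun a => p a ∧ q a := by
  have h : Partrec fun a => (Part.assert (p a) fun _ => Part.some ()).bind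
      (fun _ => Part.assert (q a) fun _ => Part.some ()) :=
    Partrec.bind hp (Partrec.to₂ (Partrec.comp hq Computable.fst))
  refine h.dom_re.of_eq ?_
  intro a
  simp [Part.assert, Part.bind]

theorem re_or {p q : A → Prop} (hp : REPred p) (hq : REPred q) : REPred fun a => p a ∨ q a := by
  obtain ⟨k, hk, hk2⟩ := Partrec.merge hp hq (fun _ _ _ _ _ => rfl)
  refine hk.of_eq fun a => ?_
  ext x
  rw [hk2]
  simp only [Part.mem_assert_iff, Part.mem_some_iff]
  constructor
  · rintro (⟨h, hx⟩ | ⟨h, hx⟩)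
    · exact ⟨Or.inl h, hx⟩
    · exact ⟨Or.inr h, hx⟩
  · rintro ⟨h | h, hx⟩
    · exact Or.inl ⟨h, hx⟩
    · exact Or.inr ⟨h, hx⟩

theorem re_ex {p : A → B → Prop} (hp : REPred fun x : A × B => p x.1 x.2) :
    REPred fun a => ∃ b, p a b := by
  have hp1 : Nat.Partrec _ := hp
  obtain ⟨c, hc⟩ := Nat.Partrec.Code.exists_code.1 hp1
  have hdom : ∀ (a : A) (j : ℕ), (c.eval (Nat.pair (Encodable.encode a) j)).Dom ↔
      ∃ b : B, Encodable.decode j = some b ∧ p a b := by
    intro a j
    rw [hc]
    rcases hj : (Encodable.decode j : Option B) with _ | b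
    · simp [hj]
    · simp only [Encodable.decode_prod_val, Nat.unpair_pair, Encodable.encodek, hj]
      simp only [Option.map_some, Option.bind_some, Part.coe_some, Part.bind_some, Part.map_Dom]
      constructor
      · intro h
        exact ⟨b, rfl, h.1⟩
      · rintro ⟨b', hb', h⟩
        rw [Option.some_inj] at hb'
        subst hb'
        exact ⟨h, trivial⟩
  have htest : Computable₂ fun (a : A) (m : ℕ) =>
      (Nat.Partrec.Code.evaln m.unpair.2 c
        (Nat.pair (Encodable.encode a) m.unpair.1)).isSome := by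
    have h1 : Primrec fun x : A × ℕ => (Nat.Partrec.Code.evaln x.2.unpair.2 c
        (Nat.pair (Encodable.encode x.1) x.2.unpair.1)).isSome := by
      apply Primrec.option_isSome.comp
      exact Nat.Partrec.Code.primrec_evaln.comp
        (Primrec.pair (Primrec.pair (Primrec.snd.comp (Primrec.unpair.comp Primrec.snd))
          (Primrec.const c))
          (Primrec₂.natPair.comp (Primrec.encode.comp Primrec.fst)
            (Primrec.fst.comp (Primrec.unpair.comp Primrec.snd))))
    exact h1.to_comp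
  have hr := (Partrec.rfind htest.partrec₂).dom_re
  apply hr.of_eq
  intro a
  rw [Nat.rfind_dom]
  constructor
  · rintro ⟨m, hm, -⟩
    have hm' : (Nat.Partrec.Code.evaln m.unpair.2 c
        (Nat.pair (Encodable.encode a) m.unpair.1)).isSome = true := (Part.mem_some_iff.1 hm).symm
    obtain ⟨x, hx⟩ := Option.isSome_iff_exists.1 hm'
    have h2 : (c.eval (Nat.pair (Encodable.encode a) m.unpair.1)).Dom :=
      Part.dom_iff_mem.2 ⟨x, Nat.Partrec.Code.evaln_complete.2 ⟨_, hx⟩⟩
    obtain ⟨b, -, hb⟩ := (hdom a _).1 h2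
    exact ⟨b, hb⟩
  · rintro ⟨b, hb⟩
    have h2 := (hdom a (Encodable.encode b)).2 ⟨b, Encodable.encodek b, hb⟩
    obtain ⟨x, hx⟩ := Part.dom_iff_mem.1 h2
    obtain ⟨k, hk⟩ := Nat.Partrec.Code.evaln_complete.1 hx
    refine ⟨Nat.pair (Encodable.encode b) k, ?_, fun _ => trivial⟩
    apply Part.mem_some_iff.2
    simp only [Nat.unpair_pair]
    exact (Option.isSome_iff_exists.2 ⟨x, hk⟩).symm

theorem re_comp {p : B → Prop} (hp : REPred p) {g : A → B} (hg : Computable g) :
    REPred fun a => p (g a) :=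
  Partrec.comp (f := fun b => Part.assert (p b) fun _ => Part.some ()) hp hg

theorem cp_and {p q : A → Prop} (hp : ComputablePred p) (hq : ComputablePred q) :
    ComputablePred fun a => p a ∧ q a := by
  obtain ⟨dp, hdp⟩ := hp
  obtain ⟨dq, hdq⟩ := hq
  refine ⟨fun a => inferInstance, ?_⟩
  have h : Computable fun a => (decide (p a) && decide (q a)) :=
    Primrec.and.to_comp.comp hdp hdq
  refine h.of_eq fun a => ?_
  simp

theorem cp_imp {p q : A → Prop} (hp : ComputablePred p) (hq : ComputablePred q) :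
    ComputablePred fun a => p a → q a := by
  obtain ⟨_, hp'⟩ := hp
  obtain ⟨_, hq'⟩ := hq
  refine ⟨fun a => inferInstance, ?_⟩
  refine Computable.of_eq (Computable.cond hp' hq' (Computable.const true)) (fun a => ?_)
  by_cases h1 : p a <;> by_cases h2 : q a <;> simp [h1, h2]

theorem cp_comp {p : B → Prop} (hp : ComputablePred p) {g : A → B} (hg : Computable g) :
    ComputablePred fun a => p (g a) := by
  obtain ⟨hd, hc⟩ := hp
  exact ⟨fun a => hd (g a), hc.comp hg⟩

theorem cp_eq {f g : A → B} (hf : Computable f) (hg : Computable g) :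
    ComputablePred fun a => f a = g a := by
  classical
  have h1 : Primrec₂ (fun x y : B => decide (x = y)) := Primrec.eq.decide
  have h2 : Computable₂ (fun x y : B => decide (x = y)) := h1.to_comp
  have h3 : Computable (fun a : A => decide (f a = g a)) := h2.comp hf hg
  exact ⟨fun a => inferInstance, h3⟩

theorem cp_ball {p : A → ℕ → Prop} (hp : ComputablePred fun x : A × ℕ => p x.1 x.2)
    {N : A → ℕ} (hN : Computable N) : ComputablePred fun a => ∀ k < N a, p a k := by
  obtain ⟨D, hD, hpD⟩ := ComputablePred.computable_iff.1 hp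
  have hpD' : ∀ a k, p a k ↔ D (a, k) = true := fun a k => iff_of_eq (congrFun hpD (a, k))
  have hh : Computable₂ (fun (a : A) (x : ℕ × Bool) => x.2 && D (a, x.1)) :=
    Primrec.and.to_comp.comp (Computable.snd.comp Computable.snd)
      (hD.comp (Computable.fst.pair (Computable.fst.comp Computable.snd)))
  have hb := Computable.nat_rec (f := N) (g := fun _ : A => true) hN (Computable.const true) hh
  refine ComputablePred.computable_iff.2 ⟨_, hb, funext fun a => propext ?_⟩
  generalize N a = m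
  induction m with
  | zero => simp
  | succ m ih =>
    have e : (∀ k < m + 1, p a k) ↔ (∀ k < m, p a k) ∧ p a m := by
      constructor
      · intro h
        exact ⟨fun k hk => h k (by omega), h m (by omega)⟩
      · rintro ⟨h1, h2⟩ k hk
        rcases Nat.lt_succ_iff_lt_or_eq.1 hk with h3 | h3
        · exact h1 k h3
        · rw [h3]
          exact h2
    rw [e, ih, hpD']
    simp

theorem cp_bex {p : A → ℕ → Prop} (hp : ComputablePred fun x : A × ℕ => p x.1 x.2)
    {N : A → ℕ} (hN : Computable N) : ComputablePred fun a => ∃ k < N a, p a k := by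
  have h1 : ComputablePred fun x : A × ℕ => ¬ p x.1 x.2 := hp.not
  have h2 : ComputablePred fun a => ∀ k < N a, ¬ p a k := cp_ball (p := fun a k => ¬ p a k) h1 hN
  refine h2.not.of_eq (fun a => ?_)
  push Not
  rfl

/-- least witness -/
theorem IsPC.least {f : ℕ → A} (hf : IsPC C f)
    {R : A → ℕ → Prop} (hR : ComputablePred fun p : A × ℕ => R p.1 p.2)
    (h : ∀ᶠ n in fl C, ∃ k, R (f n) k) :
    ∃ g : ℕ → ℕ, IsPC C g ∧ ∀ᶠ n in fl C, R (f n) (g n) ∧ ∀ j < g n, ¬ R (f n) j := by
  classical
  obtain ⟨φ, h1, h2⟩ := hf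
  obtain ⟨hd, hc⟩ := hR
  have hc3 : Computable₂ fun (a : A) (k : ℕ) => (decide (R a k) : Bool) := by
    refine Computable.of_eq hc fun p => ?_
    congr
  have hp := hc3.partrec₂
  have hG := Partrec.rfind hp
  let g : ℕ → ℕ := fun n => if hn : ∃ k, R (f n) k then Nat.find hn else 0
  have hg : ∀ n, (∃ k, R (f n) k) → R (f n) (g n) ∧ ∀ j < g n, ¬ R (f n) j := by
    intro n hn
    have hgn : g n = Nat.find hn := by
      simp only [g]
      rw [dif_pos hn]
    rw [hgn]
    exact ⟨Nat.find_spec hn, fun j hj => Nat.find_min hn hj⟩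
  refine ⟨g, ⟨_, h1.bind (hG.comp (Computable.snd (α := ℕ) (β := A))).to₂, ?_⟩, ?_⟩
  · filter_upwards [h2, h] with n a b
    obtain ⟨hg1, hg2⟩ := hg n b
    refine Part.mem_bind a ?_
    rw [Nat.mem_rfind]
    refine ⟨?_, ?_⟩
    · simp [hg1]
    · intro m hm
      simp [hg2 m hm]
  · filter_upwards [h] with n b
    exact hg n b

end general

section rigid
variable {C : Set ℕ}

/-- the step function -/
def stp_27598 (st : ℕ →. Option ℕ) : (ℕ × Bool) →. (Bool ⊕ (ℕ × Bool)) := fun p =>
  (st p.1).map fun o => Option.casesOn o (Sum.inl p.2) (fun b => Sum.inr (b, !p.2))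

theorem stp_partrec_27598 (st : ℕ →. Option ℕ) (hst : Partrec st) :
    Partrec (stp_27598 st) := by
  have h1 : Partrec fun p : ℕ × Bool => st p.1 := hst.comp Computable.fst
  refine h1.map ?_
  have h2 : Computable fun q : (ℕ × Bool) × Option ℕ =>
      (Option.casesOn q.2 (Sum.inl q.1.2) (fun b => Sum.inr (b, !q.1.2)) : Bool ⊕ (ℕ × Bool)) := by
    apply Computable.option_casesOn Computable.snd
    · exact Computable.sumInl.comp (Computable.snd.comp Computable.fst)
    · apply Computable.sumInr.comp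
      apply Computable.pair Computable.snd
      exact Primrec.not.to_comp.comp (Computable.snd.comp (Computable.fst.comp Computable.fst))
  exact h2

/-- the parity of the length of the chain -/
noncomputable def par_27598 (st : ℕ →. Option ℕ) : (ℕ × Bool) →. Bool := PFun.fix (stp_27598 st)

theorem par_partrec_27598 (st : ℕ →. Option ℕ) (hst : Partrec st) : Partrec (par_27598 st) :=
  Partrec.fix (stp_partrec_27598 st hst)

theorem par_none_27598 (st : ℕ →. Option ℕ) (a : ℕ) (bit : Bool) (h : none ∈ st a) :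
    bit ∈ par_27598 st (a, bit) := by
  rw [par_27598, PFun.mem_fix_iff]
  left
  exact Part.mem_map (fun o => (Option.casesOn o (Sum.inl bit) (fun b => Sum.inr (b, !bit)) :
    Bool ⊕ (ℕ × Bool))) h

theorem par_some_27598 (st : ℕ →. Option ℕ) (a b : ℕ) (bit v : Bool) (h : some b ∈ st a)
    (hv : v ∈ par_27598 st (b, !bit)) : v ∈ par_27598 st (a, bit) := by
  rw [par_27598, PFun.mem_fix_iff]
  right
  refine ⟨(b, !bit), ?_, hv⟩
  exact Part.mem_map (fun o => (Option.casesOn o (Sum.inl bit) (fun b => Sum.inr (b, !bit)) :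
    Bool ⊕ (ℕ × Bool))) h

theorem par_ex_27598 (st : ℕ →. Option ℕ) (μ : ℕ → ℕ)
    (hμ : ∀ a b, some b ∈ st a → μ b < μ a)
    (hd : ∀ a b, some b ∈ st a → (st b).Dom) (m : ℕ) :
    ∀ a, μ a ≤ m → (st a).Dom → ∃ v : Bool, ∀ bit, (bit ^^ v) ∈ par_27598 st (a, bit) := by
  induction m with
  | zero =>
    intro a ha hdom
    obtain ⟨o, ho⟩ := Part.dom_iff_mem.1 hdom
    cases o with
    | none =>
      refine ⟨false, fun bit => ?_⟩
      rw [Bool.xor_false]
      exact par_none_27598 st a bit ho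
    | some b =>
      have := hμ a b ho
      omega
  | succ m ih =>
    intro a ha hdom
    obtain ⟨o, ho⟩ := Part.dom_iff_mem.1 hdom
    cases o with
    | none =>
      refine ⟨false, fun bit => ?_⟩
      rw [Bool.xor_false]
      exact par_none_27598 st a bit ho
    | some b =>
      have h1 := hμ a b ho
      obtain ⟨v, hv⟩ := ih b (by omega) (hd a b ho)
      refine ⟨!v, fun bit => ?_⟩
      apply par_some_27598 st a b bit _ ho
      have := hv (!bit)
      have e : (!bit ^^ v) = (bit ^^ !v) := by cases bit <;> cases v <;> rfl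
      rw [← e]
      exact this

theorem re_mem_27598 {A : Type} [Primcodable A] (L : A →. Bool) (hL : Partrec L) (v : Bool) :
    REPred fun a => v ∈ L a := by
  have h1 : Partrec fun a => (L a).bind fun w =>
      (cond (xor w (!v)) (Part.some ()) Part.none : Part Unit) := by
    refine Partrec.bind hL ?_
    have h2 : Computable fun q : A × Bool => xor q.2 (!v) :=
      (Primrec.dom_finite (fun w : Bool => xor w (!v))).to_comp.comp Computable.snd
    have h3 : Partrec fun q : A × Bool => (Part.some () : Part Unit) := Computable.const ()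
    have h4 : Partrec fun q : A × Bool => (Part.none : Part Unit) := Partrec.none
    exact (Partrec.cond h2 h3 h4)
  refine h1.dom_re.of_eq fun a => ?_
  constructor
  · intro h
    obtain ⟨x, hx⟩ := Part.dom_iff_mem.1 h
    obtain ⟨w, hw, hw2⟩ := Part.mem_bind_iff.1 hx
    have : w = v := by
      cases w <;> cases v <;> simp at hw2 ⊢
    rw [← this]
    exact hw
  · intro h
    rw [Part.dom_iff_mem]
    refine ⟨(), Part.mem_bind_iff.2 ⟨v, h, ?_⟩⟩
    cases v <;> simp

theorem parity_core (hC : Cohesive C) (χ : ℕ → ℕ)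
    (h : ∀ S : ℕ → Prop, REPred S → (∀ᶠ n in fl C, S n) → ∀ᶠ n in fl C, S (χ n))
    (st : ℕ →. Option ℕ) (hst : Partrec st) (μ : ℕ → ℕ)
    (hμ : ∀ a b, some b ∈ st a → μ b < μ a)
    (hd : ∀ a b, some b ∈ st a → (st b).Dom)
    (hn : ∀ᶠ n in fl C, some (χ n) ∈ st n) : False := by
  haveI := fl_neBot hC
  obtain ⟨L, hLe⟩ : ∃ L : ℕ →. Bool, L = fun a => par_27598 st (a, false) := ⟨_, rfl⟩
  have hL : Partrec L := by
    rw [hLe]
    exact (par_partrec_27598 st hst).comp (Computable.id.pair (Computable.const false))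
  have hex : ∀ a, (st a).Dom → ∃ v : Bool, ∀ bit, (bit ^^ v) ∈ par_27598 st (a, bit) :=
    fun a ha => par_ex_27598 st μ hμ hd (μ a) a le_rfl ha
  have hstep : ∀ a b v w, some b ∈ st a → v ∈ L a → w ∈ L b → v = !w := by
    intro a b v w hab hv hw
    rw [hLe] at hv hw
    obtain ⟨v0, h0⟩ := hex b (hd a b hab)
    have h1 := h0 false
    rw [Bool.false_xor] at h1
    have h2 : w = v0 := Part.mem_unique hw h1
    have h3 := h0 true
    rw [Bool.true_xor] at h3
    have h4 : (!v0) ∈ par_27598 st (a, false) := par_some_27598 st a b false _ hab h3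
    rw [h2]
    exact Part.mem_unique hv h4
  have hfin : ∀ v : Bool, (∀ᶠ n in fl C, v ∈ L n) → False := by
    intro v hv
    have h1 := h (fun a => v ∈ L a) (re_mem_27598 L hL v) hv
    obtain ⟨n, h2, h3, h4⟩ := (hv.and (h1.and hn)).exists
    have := hstep n (χ n) v v h4 h2 h3
    cases v <;> simp at this
  rcases dich hC (IsPC.of_computable (C := C) Computable.id) (re_mem_27598 L hL true) with h1 | h1
  · exact hfin true h1
  · apply hfin false
    filter_upwards [h1, hn] with n h2 h3
    have hdom : (st n).Dom := Part.dom_iff_mem.2 ⟨_, h3⟩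
    obtain ⟨v, hv⟩ := hex n hdom
    have h4 := hv false
    rw [Bool.false_xor] at h4
    have h5 : v ∈ L n := by
      rw [hLe]
      exact h4
    cases v with
    | false => exact h5
    | true => exact absurd h5 h2

theorem rigid_core_bool {A : Type} [Primcodable A] {p : A → Prop} (hp : ComputablePred p) :
    ∃ f : A → Bool, Computable f ∧ ∀ a, f a = true ↔ p a := by
  obtain ⟨f, hf, rfl⟩ := ComputablePred.computable_iff.1 hp
  exact ⟨f, hf, fun a => Iff.rfl⟩

theorem rigid_core_evaln (c : Nat.Partrec.Code) :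
    Computable fun p : ℕ × ℕ => Nat.Partrec.Code.evaln p.1 c p.2 :=
  Nat.Partrec.Code.primrec_evaln.to_comp.comp
    ((Computable.fst.pair (Computable.const c)).pair Computable.snd)

theorem rigid_core_graph {Ψ : ℕ →. ℕ} (hΨ : Partrec Ψ) :
    REPred fun p : ℕ × ℕ => p.2 ∈ Ψ p.1 := by
  obtain ⟨c, rfl⟩ := Nat.Partrec.Code.exists_code.1 (Partrec.nat_iff.1 hΨ)
  have h1 : ComputablePred fun q : (ℕ × ℕ) × ℕ =>
      Nat.Partrec.Code.evaln q.2 c q.1.1 = some q.1.2 := by
    refine cp_eq ?_ ?_
    · exact (rigid_core_evaln c).comp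
        (Computable.snd.pair (Computable.fst.comp Computable.fst))
    · exact Computable.option_some.comp (Computable.snd.comp Computable.fst)
  refine (re_ex (p := fun (a : ℕ × ℕ) (k : ℕ) =>
    Nat.Partrec.Code.evaln k c a.1 = some a.2) h1.to_re).of_eq fun a => ?_
  rw [Nat.Partrec.Code.evaln_complete]
  rfl

/-- clocks -/
theorem rigid_core_clock {Ψ : ℕ →. ℕ} (hΨ : Partrec Ψ) :
    ∃ V : ℕ → ℕ → Prop, (ComputablePred fun p : ℕ × ℕ => V p.1 p.2) ∧
      (∀ a t t', V a t → V a t' → t = t') ∧ (∀ a b t, V a t → V b t → a = b) ∧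
      ∀ a, (Ψ a).Dom ↔ ∃ t, V a t := by
  obtain ⟨c, rfl⟩ := Nat.Partrec.Code.exists_code.1 (Partrec.nat_iff.1 hΨ)
  let D1 : ℕ → ℕ → Prop := fun k a => ¬ (Nat.Partrec.Code.evaln k c a = none)
  have hD1 : ComputablePred fun p : ℕ × ℕ => D1 p.1 p.2 :=
    (cp_eq (rigid_core_evaln c) (Computable.const none)).not
  refine ⟨fun a t => D1 t.unpair.1 a ∧ t.unpair.2 = a ∧ ∀ j < t.unpair.1, ¬ D1 j a, ?_, ?_, ?_, ?_⟩
  · have hu1 : Computable fun p : ℕ × ℕ => p.2.unpair.1 :=
      (Computable.fst.comp Primrec.unpair.to_comp).comp Computable.snd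
    have hu2 : Computable fun p : ℕ × ℕ => p.2.unpair.2 :=
      (Computable.snd.comp Primrec.unpair.to_comp).comp Computable.snd
    refine cp_and ?_ (cp_and (cp_eq hu2 Computable.fst) ?_)
    · exact cp_comp (p := fun p : ℕ × ℕ => D1 p.1 p.2) hD1
        (g := fun p : ℕ × ℕ => (p.2.unpair.1, p.1)) (hu1.pair Computable.fst)
    · refine cp_ball (p := fun (p : ℕ × ℕ) j => ¬ D1 j p.1) ?_ hu1
      exact cp_comp (p := fun p : ℕ × ℕ => ¬ D1 p.1 p.2) hD1.not
        (g := fun q : (ℕ × ℕ) × ℕ => (q.2, q.1.1))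
        (Computable.snd.pair (Computable.fst.comp Computable.fst))
  · rintro a t t' ⟨h1, h2, h3⟩ ⟨h1', h2', h3'⟩
    have e1 : t.unpair.1 = t'.unpair.1 := by
      rcases lt_trichotomy t.unpair.1 t'.unpair.1 with h | h | h
      · exact absurd h1 (h3' _ h)
      · exact h
      · exact absurd h1' (h3 _ h)
    rw [← Nat.pair_unpair t, ← Nat.pair_unpair t', e1, h2, h2']
  · rintro a b t ⟨-, h2, -⟩ ⟨-, h2', -⟩
    rw [← h2, ← h2']
  · intro a
    constructor
    · intro h
      have h1 : ∃ k, D1 k a := by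
        obtain ⟨x, hx⟩ := Part.dom_iff_mem.1 h
        obtain ⟨k, hk⟩ := Nat.Partrec.Code.evaln_complete.1 hx
        refine ⟨k, ?_⟩
        intro h2
        rw [Option.mem_def, h2] at hk
        exact absurd hk (by simp)
      classical
      refine ⟨Nat.pair (Nat.find h1) a, ?_⟩
      simp only [Nat.unpair_pair]
      exact ⟨Nat.find_spec h1, trivial, fun j hj => Nat.find_min h1 hj⟩
    · rintro ⟨t, h1, -, -⟩
      obtain ⟨x, hx⟩ := Option.ne_none_iff_exists'.1 h1
      exact Part.dom_iff_mem.2 ⟨x, Nat.Partrec.Code.evaln_sound hx⟩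

theorem rigid_core_par (hC : Cohesive C) (χ : ℕ → ℕ)
    (h : ∀ S : ℕ → Prop, REPred S → (∀ᶠ n in fl C, S n) → ∀ᶠ n in fl C, S (χ n))
    (VM VN : ℕ → ℕ → Prop) (hVM : ComputablePred fun p : ℕ × ℕ => VM p.1 p.2)
    (hVN : ComputablePred fun p : ℕ × ℕ => VN p.1 p.2)
    (hf : ∀ a t t', VM a t → VM a t' → t = t') (N : ℕ →. ℕ) (hN : Partrec N)
    (hd : ∀ a t, VN a t → (N a).Dom)
    (h3 : ∀ᶠ n in fl C, ∃ t, VM n t ∧ (∃ s < t + 1, VN n s) ∧ χ n ∈ N n ∧ ∃ t' < t, VM (χ n) t') :
    False := by
  obtain ⟨fV, hfV, hfV'⟩ := rigid_core_bool hVM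
  obtain ⟨fQ, hfQ, hfQ'⟩ := rigid_core_bool (A := ℕ × ℕ)
    (cp_bex (A := ℕ × ℕ) (p := fun x s => VN x.1 s)
      (cp_comp hVN (g := fun q : (ℕ × ℕ) × ℕ => (q.1.1, q.2))
        ((Computable.fst.comp Computable.fst).pair Computable.snd))
      (N := fun x => x.2 + 1) (Computable.succ.comp Computable.snd))
  obtain ⟨fR, hfR, hfR'⟩ := rigid_core_bool (A := ℕ × ℕ)
    (cp_bex (A := ℕ × ℕ) (p := fun x t' => VM x.2 t')
      (cp_comp hVM (g := fun q : (ℕ × ℕ) × ℕ => (q.1.2, q.2))
        ((Computable.snd.comp Computable.fst).pair Computable.snd))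
      (N := fun x => x.1) Computable.fst)
  let find : ℕ →. ℕ := fun a => Nat.rfindOpt fun t => bif fV (a, t) then some t else none
  have hfind : Partrec find := by
    refine Partrec.rfindOpt ?_
    exact Computable.cond hfV (Computable.option_some.comp Computable.snd)
      (Computable.const none)
  have hfind1 : ∀ a t, t ∈ find a → VM a t := by
    intro a t ht
    obtain ⟨k, hk⟩ := Nat.rfindOpt_spec ht
    cases hb : fV (a, k) with
    | false => rw [hb] at hk; simp at hk
    | true =>
      rw [hb] at hk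
      simp only [cond_true, Option.mem_def, Option.some_inj] at hk
      subst hk
      exact (hfV' (a, k)).1 hb
  have hfind2 : ∀ a t, VM a t → t ∈ find a := by
    intro a t ht
    have hdom : (find a).Dom := by
      rw [Nat.rfindOpt_dom]
      refine ⟨t, t, ?_⟩
      rw [(hfV' (a, t)).2 ht]
      rfl
    obtain ⟨t', ht'⟩ := Part.dom_iff_mem.1 hdom
    rwa [hf a t t' ht (hfind1 a t' ht')]
  let st : ℕ →. Option ℕ := fun a => (find a).bind fun t =>
    bif fQ (a, t) then (N a).map (fun b => bif fR (t, b) then some b else none)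
    else Part.some none
  have hst : Partrec st := by
    refine Partrec.bind hfind ?_
    refine Partrec.cond (c := fun p : ℕ × ℕ => fQ p) hfQ ?_ ?_
    · refine Partrec.map (f := fun p : ℕ × ℕ => N p.1) (hN.comp Computable.fst) ?_
      refine Computable.cond ?_ (Computable.option_some.comp Computable.snd) (Computable.const none)
      exact hfR.comp ((Computable.snd.comp Computable.fst).pair Computable.snd)
    · exact Computable.const none
  -- membership
  have hmem : ∀ a b, some b ∈ st a → ∃ t, VM a t ∧ ∃ t' < t, VM b t' := by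
    intro a b hb
    obtain ⟨t, ht, hb'⟩ := Part.mem_bind_iff.1 hb
    refine ⟨t, hfind1 a t ht, ?_⟩
    cases hq : fQ (a, t) with
    | false =>
      rw [hq, cond_false, Part.mem_some_iff] at hb'
      exact absurd hb' (by simp)
    | true =>
      rw [hq, cond_true, Part.mem_map_iff] at hb'
      obtain ⟨b', hb1, hb2⟩ := hb'
      cases hr : fR (t, b') with
      | false => rw [hr] at hb2; simp at hb2
      | true =>
        rw [hr] at hb2
        simp only [cond_true, Option.some_inj] at hb2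
        subst hb2
        exact (hfR' (t, b')).1 hr
  classical
  let μ : ℕ → ℕ := fun a => if h : ∃ t, VM a t then h.choose else 0
  have hμ : ∀ a t, VM a t → μ a = t := by
    intro a t ht
    have he : ∃ t, VM a t := ⟨t, ht⟩
    show (if h : ∃ t, VM a t then h.choose else 0) = t
    rw [dif_pos he]
    exact hf a _ _ he.choose_spec ht
  refine parity_core hC χ h st hst μ ?_ ?_ ?_
  · intro a b hb
    obtain ⟨t, ht, t', htt, ht'⟩ := hmem a b hb
    rw [hμ a t ht, hμ b t' ht']
    exact htt
  · intro a b hb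
    obtain ⟨t, ht, t', htt, ht'⟩ := hmem a b hb
    show ((find b).bind _).Dom
    rw [Part.bind_dom]
    have hm := hfind2 b t' ht'
    refine ⟨Part.dom_iff_mem.2 ⟨t', hm⟩, ?_⟩
    rw [Part.get_eq_of_mem hm]
    cases hq : fQ (b, t') with
    | false => exact trivial
    | true =>
      rw [cond_true]
      obtain ⟨s, -, hs⟩ := (hfQ' (b, t')).1 hq
      exact hd b s hs
  · filter_upwards [h3] with n hn
    obtain ⟨t, h1, h2, h4, h5⟩ := hn
    refine Part.mem_bind (hfind2 n t h1) ?_
    rw [(hfQ' (n, t)).2 h2, cond_true]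
    refine Part.mem_map_iff _ |>.2 ⟨χ n, h4, ?_⟩
    rw [(hfR' (t, χ n)).2 h5, cond_true]

theorem rigid_core_re1 {Ψ : ℕ →. ℕ} (hΨ : Partrec Ψ) {R : ℕ × ℕ → Prop}
    (hR : REPred R) : REPred fun n => ∃ b, b ∈ Ψ n ∧ R (n, b) :=
  re_ex (p := fun n b => b ∈ Ψ n ∧ R (n, b)) (re_and (rigid_core_graph hΨ) hR)

theorem rigid_core_cmp {V : ℕ → ℕ → Prop} (hV : ComputablePred fun p : ℕ × ℕ => V p.1 p.2)
    {V' : ℕ → ℕ → Prop} (hV' : ComputablePred fun p : ℕ × ℕ => V' p.1 p.2) :
    REPred fun p : ℕ × ℕ => ∃ t, V p.1 t ∧ ∃ t' < t, V' p.2 t' := by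
  refine re_ex (p := fun (p : ℕ × ℕ) t => V p.1 t ∧ ∃ t' < t, V' p.2 t') ?_
  refine ComputablePred.to_re ?_
  refine cp_and ?_ ?_
  · exact cp_comp hV (g := fun q : (ℕ × ℕ) × ℕ => (q.1.1, q.2))
      ((Computable.fst.comp Computable.fst).pair Computable.snd)
  · refine cp_bex (A := (ℕ × ℕ) × ℕ) (p := fun q t' => V' q.1.2 t') ?_ Computable.snd
    exact cp_comp hV' (g := fun q : ((ℕ × ℕ) × ℕ) × ℕ => (q.1.1.2, q.2))
      ((Computable.snd.comp (Computable.fst.comp Computable.fst)).pair Computable.snd)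

theorem rigid_core (hC : Cohesive C) (Ψ Φ : ℕ →. ℕ) (hΨ : Partrec Ψ) (hΦ : Partrec Φ)
    (ψ φ : ℕ → ℕ) (a1 : ∀ᶠ n in fl C, ψ n ∈ Ψ n) (a2 : ∀ᶠ n in fl C, φ n ∈ Φ n)
    (b1 : ∀ᶠ n in fl C, n ∈ Φ (ψ n)) (b2 : ∀ᶠ n in fl C, n ∈ Ψ (φ n))
    (h1 : ∀ S : ℕ → Prop, REPred S → (∀ᶠ n in fl C, S n) → ∀ᶠ n in fl C, S (ψ n))
    (h2 : ∀ S : ℕ → Prop, REPred S → (∀ᶠ n in fl C, S n) → ∀ᶠ n in fl C, S (φ n)) :
    ∀ᶠ n in fl C, ψ n = n := by
  have hne := fl_neBot hC
  have hid : IsPC C (fun n : ℕ => n) := IsPC.of_computable Computable.id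
  obtain ⟨VT, cT, fT, iT, dT⟩ := rigid_core_clock hΨ
  obtain ⟨VS, cS, fS, iS, dS⟩ := rigid_core_clock hΦ
  by_contra hcon
  -- fixed points
  have hself : ∀ {Θ : ℕ →. ℕ}, Partrec Θ → REPred fun n : ℕ => n ∈ Θ n := fun hΘ =>
    re_comp (rigid_core_graph hΘ) (g := fun n : ℕ => (n, n)) (Computable.id.pair Computable.id)
  have hψ0 : ∀ᶠ n in fl C, ¬ n ∈ Ψ n := by
    rcases dich hC hid (hself hΨ) with h | h
    · exfalso
      apply hcon
      filter_upwards [h, a1] with n h1 h2
      exact Part.mem_unique h2 h1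
    · exact h
  have hφ0 : ∀ᶠ n in fl C, ¬ n ∈ Φ n := by
    rcases dich hC hid (hself hΦ) with h | h
    · exfalso
      have : ∀ᶠ n in fl C, False := by
        filter_upwards [h, a2, b2, hψ0] with n h1 h2 h3 h4
        have h5 : φ n = n := Part.mem_unique h2 h1
        rw [h5] at h3
        exact h4 h3
      exact this.exists.elim fun _ h => h
    · exact h
  have hψne : ∀ᶠ n in fl C, ψ n ≠ n := by
    filter_upwards [hψ0, a1] with n h1 h2 h3
    rw [h3] at h2
    exact h1 h2
  have hφne : ∀ᶠ n in fl C, φ n ≠ n := by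
    filter_upwards [hφ0, a2] with n h1 h2 h3
    rw [h3] at h2
    exact h1 h2
  -- defined
  have reT : REPred fun n : ℕ => ∃ t, VT n t := re_ex cT.to_re
  have reS : REPred fun n : ℕ => ∃ t, VS n t := re_ex cS.to_re
  have dT0 : ∀ᶠ n in fl C, ∃ t, VT n t := by
    filter_upwards [a1] with n h
    exact (dT n).1 (Part.dom_iff_mem.2 ⟨_, h⟩)
  have dS0 : ∀ᶠ n in fl C, ∃ t, VS n t := by
    filter_upwards [a2] with n h
    exact (dS n).1 (Part.dom_iff_mem.2 ⟨_, h⟩)
  have dTψ := h1 _ reT dT0
  have dSφ := h2 _ reS dS0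
  -- case 1
  have hT : ∀ᶠ n in fl C, ∃ t, VT n t ∧ ∃ t' < t, VT (φ n) t' := by
    rcases dich hC hid (rigid_core_re1 hΨ (rigid_core_cmp cT cT)) with h | h
    · exfalso
      refine rigid_core_par hC ψ h1 VT VT cT cT fT Ψ hΨ (fun a t ht => (dT a).2 ⟨t, ht⟩) ?_
      filter_upwards [h, a1] with n h3 h4
      obtain ⟨b, hb, t, ht, t', htt, ht'⟩ := h3
      have e : b = ψ n := Part.mem_unique hb h4
      subst e
      exact ⟨t, ht, ⟨t, Nat.lt_succ_self t, ht⟩, h4, t', htt, ht'⟩
    · have hS0 : ∀ᶠ n in fl C, ∃ b, b ∈ Ψ n ∧ ∃ t, VT b t ∧ ∃ t' < t, VT n t' := by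
        filter_upwards [h, a1, dT0, dTψ, hψne] with n h3 h4 h5 h6 h7
        obtain ⟨t, ht⟩ := h5
        obtain ⟨t', ht'⟩ := h6
        refine ⟨ψ n, h4, t', ht', t, ?_, ht⟩
        rcases lt_trichotomy t t' with h8 | h8 | h8
        · exact h8
        · exfalso
          subst h8
          exact h7 (iT _ _ _ ht' ht)
        · exact absurd ⟨ψ n, h4, t, ht, t', h8, ht'⟩ h3
      have hre : REPred fun n => ∃ b, b ∈ Ψ n ∧ ∃ t, VT b t ∧ ∃ t' < t, VT n t' :=
        rigid_core_re1 hΨ (R := fun p : ℕ × ℕ => ∃ t, VT p.2 t ∧ ∃ t' < t, VT p.1 t')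
          (re_comp (rigid_core_cmp cT cT) (g := fun p : ℕ × ℕ => (p.2, p.1))
            (Computable.snd.pair Computable.fst))
      filter_upwards [h2 _ hre hS0, b2] with n h3 h4
      obtain ⟨b, hb, t, ht, t', htt, ht'⟩ := h3
      have e : b = n := Part.mem_unique hb h4
      subst e
      exact ⟨t, ht, t', htt, ht'⟩
  -- case 2
  have hS : ∀ᶠ n in fl C, ∃ t, VS n t ∧ ∃ t' < t, VS (ψ n) t' := by
    rcases dich hC hid (rigid_core_re1 hΦ (rigid_core_cmp cS cS)) with h | h
    · exfalso
      refine rigid_core_par hC φ h2 VS VS cS cS fS Φ hΦ (fun a t ht => (dS a).2 ⟨t, ht⟩) ?_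
      filter_upwards [h, a2] with n h3 h4
      obtain ⟨b, hb, t, ht, t', htt, ht'⟩ := h3
      have e : b = φ n := Part.mem_unique hb h4
      subst e
      exact ⟨t, ht, ⟨t, Nat.lt_succ_self t, ht⟩, h4, t', htt, ht'⟩
    · have hS0 : ∀ᶠ n in fl C, ∃ b, b ∈ Φ n ∧ ∃ t, VS b t ∧ ∃ t' < t, VS n t' := by
        filter_upwards [h, a2, dS0, dSφ, hφne] with n h3 h4 h5 h6 h7
        obtain ⟨t, ht⟩ := h5
        obtain ⟨t', ht'⟩ := h6
        refine ⟨φ n, h4, t', ht', t, ?_, ht⟩
        rcases lt_trichotomy t t' with h8 | h8 | h8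
        · exact h8
        · exfalso
          subst h8
          exact h7 (iS _ _ _ ht' ht)
        · exact absurd ⟨φ n, h4, t, ht, t', h8, ht'⟩ h3
      have hre : REPred fun n => ∃ b, b ∈ Φ n ∧ ∃ t, VS b t ∧ ∃ t' < t, VS n t' :=
        rigid_core_re1 hΦ (R := fun p : ℕ × ℕ => ∃ t, VS p.2 t ∧ ∃ t' < t, VS p.1 t')
          (re_comp (rigid_core_cmp cS cS) (g := fun p : ℕ × ℕ => (p.2, p.1))
            (Computable.snd.pair Computable.fst))
      filter_upwards [h1 _ hre hS0, b1] with n h3 h4
      obtain ⟨b, hb, t, ht, t', htt, ht'⟩ := h3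
      have e : b = n := Part.mem_unique hb h4
      subst e
      exact ⟨t, ht, t', htt, ht'⟩
  -- cases 3 and 4
  have hre3 : REPred fun n : ℕ => ∃ t, VT n t ∧ ∃ s < t, VS n s :=
    re_comp (rigid_core_cmp cT cS) (g := fun n : ℕ => (n, n)) (Computable.id.pair Computable.id)
  rcases dich hC hid hre3 with h | h
  · refine rigid_core_par hC φ h2 VT VS cT cS fT Φ hΦ (fun a t ht => (dS a).2 ⟨t, ht⟩) ?_
    filter_upwards [h, a2, hT] with n h3 h4 h5
    obtain ⟨t, ht, s, hst, hs⟩ := h3
    obtain ⟨t1, ht1, t', htt, ht'⟩ := h5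
    have e := fT n t t1 ht ht1
    subst e
    exact ⟨t, ht, ⟨s, by omega, hs⟩, h4, t', htt, ht'⟩
  · refine rigid_core_par hC ψ h1 VS VT cS cT fS Ψ hΨ (fun a t ht => (dT a).2 ⟨t, ht⟩) ?_
    filter_upwards [h, a1, hS, dT0] with n h3 h4 h5 h6
    obtain ⟨s, hs, s', hss, hs'⟩ := h5
    obtain ⟨t, ht⟩ := h6
    refine ⟨s, hs, ⟨t, ?_, ht⟩, h4, s', hss, hs'⟩
    by_contra hlt
    exact h3 ⟨t, ht, s, by omega, hs⟩

end rigid

section fld
variable {C : Set ℕ} {F : Type} [Field F] [Primcodable F] [CF F]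

theorem computable_natCast : Computable fun k : ℕ => (k : F) := by
  have hh : Computable₂ (fun (_ : ℕ) (p : ℕ × F) => p.2 + 1) :=
    (CF.add (F := F)).comp (Computable.snd.comp Computable.snd) (Computable.const 1)
  have h := Computable.nat_rec (f := fun k : ℕ => k) (g := fun _ : ℕ => (0 : F)) Computable.id
    (Computable.const 0) hh
  refine h.of_eq (fun k => ?_)
  induction k with
  | zero => simp
  | succ k ih =>
    simp only at ih ⊢
    rw [ih]
    push_cast
    rfl

theorem computable_intCast : Computable fun k : ℤ => (k : F) := by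
  have henc : Computable fun k : ℤ => Encodable.encode k := Computable.encode
  have hb : Computable fun k : ℤ => Nat.bodd (Encodable.encode k) :=
    Primrec.nat_bodd.to_comp.comp henc
  have hd : Computable fun k : ℤ => Nat.div2 (Encodable.encode k) :=
    Primrec.nat_div2.to_comp.comp henc
  have h1 : Computable fun k : ℤ => ((Nat.div2 (Encodable.encode k) : ℕ) : F) :=
    computable_natCast.comp hd
  have hd1 : Computable fun k : ℤ => Nat.succ (Nat.div2 (Encodable.encode k)) :=
    Primrec.succ.to_comp.comp hd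
  have h2 : Computable fun k : ℤ => ((Nat.succ (Nat.div2 (Encodable.encode k)) : ℕ) : F) :=
    computable_natCast.comp hd1
  have h3 : Computable fun k : ℤ => (-1 : F) * ((Nat.succ (Nat.div2 (Encodable.encode k)) : ℕ) : F) :=
    Computable₂.comp CF.mul (Computable.const (-1 : F)) h2
  refine (Computable.cond hb h3 h1).of_eq fun k => ?_
  rcases k with a | a
  · have e : Encodable.encode (Int.ofNat a) = 2 * a := rfl
    rw [e]
    have e1 : Nat.bodd (2 * a) = false := by simp
    have e2 : Nat.div2 (2 * a) = a := by simp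
    rw [e1, e2]
    simp
  · have e : Encodable.encode (Int.negSucc a) = 2 * a + 1 := rfl
    rw [e]
    have e1 : Nat.bodd (2 * a + 1) = true := by simp
    have e2 : Nat.div2 (2 * a + 1) = a := by simp [Nat.div2_val]
    rw [e1, e2]
    simp [Int.cast_negSucc]

theorem computable_inv : Computable fun a : F => a⁻¹ := by
  have hp : ComputablePred fun x : F × F =>
      (x.1 = 0 → x.2 = 0) ∧ ((x.1 = 0 → (1 : F) = 0) → x.1 * x.2 = 1) :=
    cp_and (cp_imp (cp_eq Computable.fst (Computable.const 0))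
        (cp_eq Computable.snd (Computable.const 0)))
      (cp_imp (cp_imp (cp_eq Computable.fst (Computable.const 0))
          (cp_eq (Computable.const 1) (Computable.const 0)))
        (cp_eq (CF.mul.comp Computable.fst Computable.snd) (Computable.const 1)))
  have hiff : ∀ a b : F, ((a = 0 → b = 0) ∧ ((a = 0 → (1 : F) = 0) → a * b = 1)) ↔ b = a⁻¹ := by
    intro a b
    constructor
    · rintro ⟨h1, h2⟩
      by_cases ha : a = 0
      · rw [h1 ha, ha, inv_zero]
      · exact eq_inv_of_mul_eq_one_right (h2 (fun h => absurd h ha))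
    · rintro rfl
      refine ⟨fun h => by rw [h, inv_zero], fun h => ?_⟩
      have ha : a ≠ 0 := fun h0 => one_ne_zero (h h0)
      exact mul_inv_cancel₀ ha
  obtain ⟨g, hg, hgv⟩ : ∃ g : F × F → Bool, Computable g ∧
      ∀ a b : F, g (a, b) = true ↔ b = a⁻¹ := by
    obtain ⟨hd, hc⟩ := hp
    refine ⟨_, hc, fun a b => ?_⟩
    rw [decide_eq_true_iff]
    exact hiff a b
  have hf : Computable₂ fun (a : F) (n : ℕ) =>
      (Encodable.decode n : Option F).bind fun b => cond (g (a, b)) (some b) none := by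
    have h1 : Computable fun p : F × ℕ => (Encodable.decode p.2 : Option F) :=
      Computable.decode.comp Computable.snd
    have h2 : Computable₂ fun (p : F × ℕ) (b : F) => cond (g (p.1, b)) (some b) none := by
      have h3 : Computable fun q : (F × ℕ) × F => g (q.1.1, q.2) :=
        hg.comp ((Computable.fst.comp Computable.fst).pair Computable.snd)
      exact (Computable.cond h3 (Computable.option_some.comp Computable.snd)
        (Computable.const none)).to₂
    exact (Computable.option_bind h1 h2).to₂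
  refine (Partrec.rfindOpt hf).of_eq fun a => ?_
  refine Part.eq_some_iff.2 ?_
  have hdom : (Nat.rfindOpt fun n : ℕ => (Encodable.decode n : Option F).bind fun b =>
        cond (g (a, b)) (some b) none).Dom := by
    rw [Nat.rfindOpt_dom]
    refine ⟨Encodable.encode a⁻¹, a⁻¹, ?_⟩
    rw [Encodable.encodek, Option.bind_some, (hgv a a⁻¹).2 rfl]
    rfl
  have hmem := Part.get_mem hdom
  obtain ⟨n, hn⟩ := Nat.rfindOpt_spec hmem
  have hval : Part.get _ hdom = a⁻¹ := by
    rw [Option.mem_def, Option.bind_eq_some_iff] at hn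
    obtain ⟨b, -, hb⟩ := hn
    rcases hh : g (a, b) with _ | _
    · rw [hh] at hb
      exact absurd hb (by simp)
    · rw [hh] at hb
      have hb' : b = Part.get _ hdom := Option.some_injective _ hb
      rw [← hb']
      exact (hgv a b).1 hh
  rw [hval] at hmem
  exact hmem

theorem computable_sub : Computable₂ fun a b : F => a - b := by
  have h1 : Computable fun p : F × F => (-1 : F) * p.2 :=
    (CF.mul (F := F)).comp (Computable.const (-1 : F)) Computable.snd
  have h2 : Computable fun p : F × F => p.1 + (-1 : F) * p.2 :=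
    (CF.add (F := F)).comp Computable.fst h1
  exact Computable.of_eq h2 (fun p => by
    show p.1 + (-1 : F) * p.2 = p.1 - p.2
    ring)

theorem computable_div : Computable₂ fun a b : F => a / b := by
  have h : Computable₂ fun a b : F => a * b⁻¹ :=
    CF.mul.comp Computable.fst (computable_inv.comp Computable.snd)
  exact h.of_eq fun p => (div_eq_mul_inv _ _).symm

theorem computable_pow (k : ℕ) : Computable fun a : F => a ^ k := by
  induction k with
  | zero =>
    simp only [pow_zero]
    exact Computable.const (1 : F)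
  | succ k ih =>
    simp only [pow_succ]
    exact (CF.mul (F := F)).comp ih Computable.id

theorem RN_computable_sum {A ι : Type} [Primcodable A] (s : Finset ι) (f : ι → A → F)
    (hf : ∀ i, Computable (f i)) : Computable fun a => ∑ i ∈ s, f i a := by
  classical
  induction s using Finset.induction_on with
  | empty =>
    simp only [Finset.sum_empty]
    exact Computable.const 0
  | insert i s hi ih =>
    simp only [Finset.sum_insert hi]
    exact CF.add.comp (hf i) ih

theorem RN_computable_pow (N : ℕ) : Computable fun k : ℕ => (N : F) ^ k := by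
  have h1 : Computable₂ (fun (_ : ℕ) (p : ℕ × F) => (N : F) * p.2) :=
    CF.mul.comp (Computable.const (N : F)) (Computable.snd.comp Computable.snd)
  have h2 := Computable.nat_rec (f := fun k : ℕ => k) (g := fun _ : ℕ => (1 : F))
    (h := fun (_ : ℕ) (p : ℕ × F) => (N : F) * p.2) Computable.id (Computable.const 1) h1
  refine h2.of_eq ?_
  intro k
  induction k with
  | zero => simp
  | succ k ih =>
    rw [pow_succ', ← ih]

theorem RN_computable_fac (N : ℕ) (hN : N ≠ 0) (D : ℕ) : D ≠ 0 →
    ∃ m k : ℕ, m ≠ 0 ∧ Nat.Coprime m N ∧ D ∣ N ^ k * m := by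
  induction D using Nat.strong_induction_on with
  | _ D ih =>
    intro hD
    by_cases hg : Nat.gcd D N = 1
    · exact ⟨D, 0, hD, hg, by simp⟩
    · obtain ⟨D', hD'⟩ := Nat.gcd_dvd_left D N
      have hD'0 : D' ≠ 0 := by
        rintro rfl
        rw [mul_zero] at hD'
        exact hD hD'
      have hgpos : 0 < Nat.gcd D N := Nat.gcd_pos_of_pos_left N (Nat.pos_of_ne_zero hD)
      have hlt : D' < D := by
        have h2 : 2 ≤ Nat.gcd D N := by omega
        calc D' < 2 * D' := by omega
          _ ≤ Nat.gcd D N * D' := Nat.mul_le_mul_right _ h2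
          _ = D := hD'.symm
      obtain ⟨m, k, hm, hc, hd⟩ := ih D' hlt hD'0
      refine ⟨m, k + 1, hm, hc, ?_⟩
      rw [hD', pow_succ', mul_assoc]
      exact Nat.mul_dvd_mul (Nat.gcd_dvd_right D N) hd

omit [Primcodable F] [CF F] in
theorem RN_computable_basis [NumberField F] : ∃ (d : ℕ) (w : Fin d → F),
    (∀ x : F, IsIntegral ℤ x ↔ ∃ c : Fin d → ℤ, x = ∑ i, (c i : F) * w i) ∧
    (∀ c c' : Fin d → ℤ, ∑ i, (c i : F) * w i = ∑ i, (c' i : F) * w i → c = c') := by
  classical
  let b0 := NumberField.RingOfIntegers.basis F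
  let b := b0.reindex (Fintype.equivFin _)
  have hval : ∀ c : _ → ℤ, algebraMap (NumberField.RingOfIntegers F) F (∑ i, c i • b i) =
      ∑ i, (c i : F) * algebraMap (NumberField.RingOfIntegers F) F (b i) := by
    intro c
    rw [map_sum]
    apply Finset.sum_congr rfl
    intro i _
    rw [map_zsmul, zsmul_eq_mul]
  refine ⟨_, fun i => algebraMap (NumberField.RingOfIntegers F) F (b i), ?_, ?_⟩
  · intro x
    constructor
    · intro hx
      refine ⟨fun i => b.repr ⟨x, hx⟩ i, ?_⟩
      rw [← hval, b.sum_repr]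
      rfl
    · rintro ⟨c, rfl⟩
      rw [← hval]
      exact NumberField.RingOfIntegers.isIntegral_coe _
  · intro c c' h
    rw [← hval, ← hval] at h
    have h1 := NumberField.RingOfIntegers.coe_injective h
    have h2 := b.equivFun.symm.injective (a₁ := c) (a₂ := c') (by
      rw [Module.Basis.equivFun_symm_apply, Module.Basis.equivFun_symm_apply]
      exact h1)
    exact h2

omit [Primcodable F] [CF F] in
theorem RN_computable_mult [NumberField F] (x : F) : ∃ D : ℕ, D ≠ 0 ∧ IsIntegral ℤ ((D : F) * x) := by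
  have hx : IsAlgebraic ℤ x := by
    have h1 : IsAlgebraic ℚ x := Algebra.IsAlgebraic.isAlgebraic x
    exact (IsFractionRing.isAlgebraic_iff ℤ ℚ F).2 h1
  obtain ⟨y, hy, hyx⟩ := hx.exists_integral_multiple
  have h2 : y • x = (y : F) * x := zsmul_eq_mul x y
  rw [h2] at hyx
  obtain ⟨n, rfl | rfl⟩ := Int.eq_nat_or_neg y
  · refine ⟨n, by rintro rfl; exact hy rfl, ?_⟩
    rw [Int.cast_natCast] at hyx
    exact hyx
  · refine ⟨n, by rintro rfl; exact hy rfl, ?_⟩
    rw [Int.cast_neg, Int.cast_natCast] at hyx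
    have := hyx.neg
    rw [neg_mul, neg_neg] at this
    exact this

omit [Primcodable F] [CF F] in
theorem RN_computable_mem {N d : ℕ} (w : Fin d → F)
    (hA : ∀ x : F, IsIntegral ℤ x ↔ ∃ c : Fin d → ℤ, x = ∑ i, (c i : F) * w i) (x : F) :
    x ∈ RN F N ↔ ∃ p : ℕ × (Fin d → ℤ), (N : F) ^ p.1 * x = ∑ i, (p.2 i : F) * w i := by
  constructor
  · rintro ⟨k, hk⟩
    obtain ⟨c, hc⟩ := (hA _).1 hk
    exact ⟨(k, c), hc⟩
  · rintro ⟨⟨k, c⟩, h⟩
    exact ⟨k, (hA _).2 ⟨c, h⟩⟩

omit [Primcodable F] [CF F] in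
theorem RN_computable_notmem1 [NumberField F] {N d : ℕ} (w : Fin d → F)
    (hA : ∀ x : F, IsIntegral ℤ x ↔ ∃ c : Fin d → ℤ, x = ∑ i, (c i : F) * w i)
    (hU : ∀ c c' : Fin d → ℤ, ∑ i, (c i : F) * w i = ∑ i, (c' i : F) * w i → c = c') (x : F)
    (m k r : ℕ) (c : Fin d → ℤ) (i : Fin d) (u v q : ℤ) (hr0 : 0 < r) (hrm : r < m)
    (h1 : (m : F) * u + (N : F) * v = 1)
    (h2 : (m : F) * ((N : F) ^ k * x) = ∑ j, (c j : F) * w j)
    (h3 : (c i : F) = (m : F) * q + (r : F)) : x ∉ RN F N := by
  intro hx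
  obtain ⟨⟨l, c'⟩, hc'⟩ := (RN_computable_mem w hA x).1 hx
  simp only at hc'
  have e1 : ∑ j, (((N : ℤ) ^ l * c j : ℤ) : F) * w j =
      ∑ j, (((m : ℤ) * (N : ℤ) ^ k * c' j : ℤ) : F) * w j := by
    have f1 : ∑ j, (((N : ℤ) ^ l * c j : ℤ) : F) * w j = (N : F) ^ l * ∑ j, (c j : F) * w j := by
      rw [Finset.mul_sum]
      apply Finset.sum_congr rfl
      intro j _
      push_cast
      ring
    have f2 : ∑ j, (((m : ℤ) * (N : ℤ) ^ k * c' j : ℤ) : F) * w j =
        (m : F) * (N : F) ^ k * ∑ j, (c' j : F) * w j := by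
      rw [Finset.mul_sum]
      apply Finset.sum_congr rfl
      intro j _
      push_cast
      ring
    rw [f1, f2, ← h2, ← hc']
    ring
  have e2 : (N : ℤ) ^ l * c i = (m : ℤ) * (N : ℤ) ^ k * c' i := congrFun (hU _ _ e1) i
  have e3 : (m : ℤ) * u + (N : ℤ) * v = 1 := by
    have : (((m : ℤ) * u + (N : ℤ) * v : ℤ) : F) = ((1 : ℤ) : F) := by
      push_cast
      exact h1
    exact_mod_cast this
  have e4 : c i = (m : ℤ) * q + (r : ℤ) := by
    have : ((c i : ℤ) : F) = (((m : ℤ) * q + (r : ℤ) : ℤ) : F) := by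
      push_cast
      exact h3
    exact_mod_cast this
  have e5 : IsCoprime (m : ℤ) (N : ℤ) := ⟨u, v, by rw [← e3]; ring⟩
  have e6 : (m : ℤ) ∣ (N : ℤ) ^ l * c i := ⟨(N : ℤ) ^ k * c' i, by rw [e2]; ring⟩
  have e7 : (m : ℤ) ∣ c i := (e5.pow_right (n := l)).dvd_of_dvd_mul_left e6
  rw [e4] at e7
  have e8 : (m : ℤ) ∣ (r : ℤ) := (Int.dvd_add_right (dvd_mul_right _ _)).1 e7
  have e9 := Nat.le_of_dvd hr0 (Int.natCast_dvd_natCast.1 e8)
  omega

omit [Primcodable F] [CF F] in
theorem RN_computable_notmem2 [NumberField F] {N d : ℕ} (hN : N ≠ 0) (w : Fin d → F)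
    (hA : ∀ x : F, IsIntegral ℤ x ↔ ∃ c : Fin d → ℤ, x = ∑ i, (c i : F) * w i) (x : F)
    (hx : x ∉ RN F N) : ∃ (m k r : ℕ) (c : Fin d → ℤ) (i : Fin d) (u v q : ℤ), 0 < r ∧ r < m ∧
      (m : F) * u + (N : F) * v = 1 ∧
      (m : F) * ((N : F) ^ k * x) = ∑ j, (c j : F) * w j ∧
      (c i : F) = (m : F) * q + (r : F) := by
  obtain ⟨D, hD, hDx⟩ := RN_computable_mult x
  obtain ⟨m, k, hm, hco, e, he⟩ := RN_computable_fac N hN D hD
  have hm0 : (m : F) ≠ 0 := Nat.cast_ne_zero.2 hm
  have h1 : IsIntegral ℤ ((m : F) * ((N : F) ^ k * x)) := by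
    have h2 : (m : F) * ((N : F) ^ k * x) = (e : F) * ((D : F) * x) := by
      have h3 : ((N ^ k * m : ℕ) : F) = ((D * e : ℕ) : F) := by rw [he]
      push_cast at h3
      linear_combination x * h3
    have h4 : IsIntegral ℤ (e : F) := by
      have h5 := isIntegral_algebraMap (R := ℤ) (x := (e : ℤ)) (A := F)
      simpa using h5
    rw [h2]
    exact h4.mul hDx
  obtain ⟨c, hc⟩ := (hA _).1 h1
  have h5 : ∃ i, ¬ (m : ℤ) ∣ c i := by
    by_contra hcon
    push Not at hcon
    choose c' hc' using hcon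
    apply hx
    refine ⟨k, (hA _).2 ⟨c', ?_⟩⟩
    apply mul_left_cancel₀ hm0
    rw [hc, Finset.mul_sum]
    apply Finset.sum_congr rfl
    intro j _
    rw [hc' j]
    push_cast
    ring
  obtain ⟨i, hi⟩ := h5
  have hmpos : (0 : ℤ) < m := by exact_mod_cast Nat.pos_of_ne_zero hm
  have h6 := Int.emod_nonneg (c i) hmpos.ne'
  have h7 := Int.emod_lt_of_pos (c i) hmpos
  have h8 : c i % (m : ℤ) ≠ 0 := fun h => hi (Int.dvd_of_emod_eq_zero h)
  have h9 := Int.mul_ediv_add_emod (c i) (m : ℤ)
  obtain ⟨r, hr⟩ := Int.eq_ofNat_of_zero_le h6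
  have h10 : IsCoprime (m : ℤ) (N : ℤ) := Nat.isCoprime_iff_coprime.2 hco
  obtain ⟨u, v, huv⟩ := h10
  refine ⟨m, k, r, c, i, u, v, c i / (m : ℤ), by omega, by omega, ?_, hc, ?_⟩
  · have : ((u * (m : ℤ) + v * (N : ℤ) : ℤ) : F) = ((1 : ℤ) : F) := by rw [huv]
    push_cast at this
    linear_combination this
  · rw [hr] at h9
    have : (((m : ℤ) * (c i / (m : ℤ)) + (r : ℤ) : ℤ) : F) = ((c i : ℤ) : F) := by
      exact_mod_cast congrArg (fun z : ℤ => (z : F)) h9
    rw [← this]
    push_cast
    rfl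

theorem RN_computable_lin {d : ℕ} (w : Fin d → F) :
    Computable fun c : Fin d → ℤ => ∑ j, (c j : F) * w j :=
  RN_computable_sum Finset.univ (fun j (c : Fin d → ℤ) => (c j : F) * w j) (fun j =>
    CF.mul.comp (computable_intCast.comp (Computable.fin_app.comp Computable.id
      (Computable.const j))) (Computable.const (w j)))

theorem RN_computable [NumberField F] {N : ℕ} (hN : N ≠ 0) :
    ComputablePred fun x : F => x ∈ RN F N := by
  obtain ⟨d, w, hA, hU⟩ := RN_computable_basis (F := F)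
  rw [ComputablePred.computable_iff_re_compl_re']
  constructor
  · have h1 : REPred fun x : F => ∃ p : ℕ × (Fin d → ℤ),
        (N : F) ^ p.1 * x = ∑ i, (p.2 i : F) * w i := by
      apply re_ex
      apply ComputablePred.to_re
      apply cp_eq
      · exact CF.mul.comp ((RN_computable_pow N).comp (Computable.fst.comp Computable.snd))
          Computable.fst
      · exact (RN_computable_lin w).comp (Computable.snd.comp Computable.snd)
    exact h1.of_eq (fun x => (RN_computable_mem w hA x).symm)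
  · have h1 : REPred fun x : F => ∃ z : (ℕ × ℕ × ℕ) × ((Fin d → ℤ) × Fin d) × (ℤ × ℤ × ℤ),
        (((z.1.1 + z.1.2.1 + 2 : ℕ) : F) * (z.2.2.1 : F) + (N : F) * (z.2.2.2.1 : F) = 1) ∧
        ((((z.1.1 + z.1.2.1 + 2 : ℕ) : F) * ((N : F) ^ z.1.2.2 * x) =
          ∑ j, (z.2.1.1 j : F) * w j) ∧
        ((z.2.1.1 z.2.1.2 : F) = ((z.1.1 + z.1.2.1 + 2 : ℕ) : F) * (z.2.2.2.2 : F) +
          ((z.1.1 + 1 : ℕ) : F))) := by
      apply re_ex
      apply ComputablePred.to_re
      have b1 : Computable (fun y : F × ((ℕ × ℕ × ℕ) × ((Fin d → ℤ) × Fin d) × (ℤ × ℤ × ℤ)) =>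
        y.2.1) := Computable.fst.comp Computable.snd
      have cr := Computable.fst.comp b1
      have cs := Computable.fst.comp (Computable.snd.comp b1)
      have ck := Computable.snd.comp (Computable.snd.comp b1)
      have b2 : Computable (fun y : F × ((ℕ × ℕ × ℕ) × ((Fin d → ℤ) × Fin d) × (ℤ × ℤ × ℤ)) =>
        y.2.2) := Computable.snd.comp Computable.snd
      have cc := Computable.fst.comp (Computable.fst.comp b2)
      have ci := Computable.snd.comp (Computable.fst.comp b2)
      have cu := Computable.fst.comp (Computable.snd.comp b2)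
      have cv := Computable.fst.comp (Computable.snd.comp (Computable.snd.comp b2))
      have cq := Computable.snd.comp (Computable.snd.comp (Computable.snd.comp b2))
      have cm : Computable (fun y : F × ((ℕ × ℕ × ℕ) × ((Fin d → ℤ) × Fin d) × (ℤ × ℤ × ℤ)) =>
          ((y.2.1.1 + y.2.1.2.1 + 2 : ℕ) : F)) :=
        computable_natCast.comp (Primrec.nat_add.to_comp.comp
          (Primrec.nat_add.to_comp.comp cr cs) (Computable.const 2))
      have cr1 : Computable (fun y : F × ((ℕ × ℕ × ℕ) × ((Fin d → ℤ) × Fin d) × (ℤ × ℤ × ℤ)) =>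
          ((y.2.1.1 + 1 : ℕ) : F)) :=
        computable_natCast.comp (Primrec.nat_add.to_comp.comp cr (Computable.const 1))
      apply cp_and
      · apply cp_eq
        · exact CF.add.comp (CF.mul.comp cm (computable_intCast.comp cu))
            (CF.mul.comp (Computable.const (N : F)) (computable_intCast.comp cv))
        · exact Computable.const 1
      · apply cp_and
        · apply cp_eq
          · exact CF.mul.comp cm (CF.mul.comp ((RN_computable_pow N).comp ck) Computable.fst)
          · exact (RN_computable_lin w).comp cc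
        · apply cp_eq
          · exact computable_intCast.comp (Computable.fin_app.comp cc ci)
          · exact CF.add.comp (CF.mul.comp cm (computable_intCast.comp cq)) cr1
    refine h1.of_eq (fun x => ?_)
    constructor
    · rintro ⟨⟨⟨r, s, k⟩, ⟨c, i⟩, ⟨u, v, q⟩⟩, g1, g2, g3⟩
      exact RN_computable_notmem1 w hA hU x (r + s + 2) k (r + 1) c i u v q (by omega) (by omega)
        g1 g2 g3
    · intro hx
      obtain ⟨m, k, r, c, i, u, v, q, hr0, hrm, g1, g2, g3⟩ := RN_computable_notmem2 hN w hA x hx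
      obtain ⟨r', rfl⟩ : ∃ r', r = r' + 1 := ⟨r - 1, by omega⟩
      obtain ⟨s, rfl⟩ : ∃ s, m = r' + s + 2 := ⟨m - r' - 2, by omega⟩
      exact ⟨⟨⟨r', s, k⟩, ⟨c, i⟩, ⟨u, v, q⟩⟩, g1, g2, g3⟩

theorem cert_computable_aux [NumberField F] {N0 : ℕ} (hN0 : N0 ≠ 0) (e : ℕ ≃ F)
    (he : Computable e) (G : List F) {P : Type} [Primcodable P] {t a b x y z : P → F} {N : P → ℕ}
    (ht : Computable t) (ha : Computable a) (hb : Computable b) (hN : Computable N)
    (hx : Computable x) (hy : Computable y) (hz : Computable z) :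
    ComputablePred fun p : P => Cert e N0 G (t p) (a p) (b p) (N p) (x p) (y p) (z p) := by
  have R : ∀ {A : Type} [Primcodable A] {g : A → F}, Computable g →
      ComputablePred fun a => g a ∈ RN F N0 := fun hg => cp_comp (RN_computable hN0) hg
  have hadd : Computable₂ fun a b : F => a + b := CF.add
  have hmul : Computable₂ fun a b : F => a * b := CF.mul
  -- conjunct 4
  have c4 : ComputablePred fun p : P =>
      ∀ g ∈ G, ∃ k < N p, e k ∈ RN F N0 ∧ (g - e k) / a p ∈ RN F N0 := by
    induction G with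
    | nil =>
      have h : ComputablePred fun _ : P => (0 : ℕ) = 0 :=
        cp_eq (Computable.const 0) (Computable.const 0)
      refine h.of_eq fun p => ?_
      simp
    | cons g G ih =>
      have h1 : ComputablePred fun p : P =>
          ∃ k < N p, e k ∈ RN F N0 ∧ (g - e k) / a p ∈ RN F N0 :=
        cp_bex (p := fun p k => e k ∈ RN F N0 ∧ (g - e k) / a p ∈ RN F N0)
          (cp_and (R (he.comp Computable.snd))
            (R (computable_div.comp (computable_sub.comp (Computable.const g)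
              (he.comp Computable.snd)) (ha.comp Computable.fst)))) hN
      refine (cp_and h1 ih).of_eq fun p => ?_
      simp only [List.forall_mem_cons]
  -- coordinates on triples
  have cj : Computable fun w : (P × ℕ) × ℕ => e w.1.2 :=
    he.comp (Computable.snd.comp Computable.fst)
  have ck : Computable fun w : (P × ℕ) × ℕ => e w.2 := he.comp Computable.snd
  have ca : Computable fun w : (P × ℕ) × ℕ => a w.1.1 :=
    ha.comp (Computable.fst.comp Computable.fst)
  have cb : Computable fun w : (P × ℕ) × ℕ => b w.1.1 :=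
    hb.comp (Computable.fst.comp Computable.fst)
  have cN : Computable fun w : (P × ℕ) × ℕ => N w.1.1 :=
    hN.comp (Computable.fst.comp Computable.fst)
  have cl : Computable fun w : ((P × ℕ) × ℕ) × ℕ => e w.2 := he.comp Computable.snd
  have c5 : ComputablePred fun p : P => ∀ j < N p, ∀ k < N p, e j ∈ RN F N0 → e k ∈ RN F N0 →
      (∃ l < N p, e l ∈ RN F N0 ∧ (e j + e k - e l) / a p ∈ RN F N0) ∧
      (∃ l < N p, e l ∈ RN F N0 ∧ (e j * e k - e l) / a p ∈ RN F N0) := by
    refine cp_ball (p := fun p j => ∀ k < N p, e j ∈ RN F N0 → e k ∈ RN F N0 →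
      (∃ l < N p, e l ∈ RN F N0 ∧ (e j + e k - e l) / a p ∈ RN F N0) ∧
      (∃ l < N p, e l ∈ RN F N0 ∧ (e j * e k - e l) / a p ∈ RN F N0)) ?_ hN
    refine cp_ball (A := P × ℕ) (p := fun v k => e v.2 ∈ RN F N0 → e k ∈ RN F N0 →
      (∃ l < N v.1, e l ∈ RN F N0 ∧ (e v.2 + e k - e l) / a v.1 ∈ RN F N0) ∧
      (∃ l < N v.1, e l ∈ RN F N0 ∧ (e v.2 * e k - e l) / a v.1 ∈ RN F N0)) ?_
      (hN.comp Computable.fst)
    refine cp_imp (R cj) (cp_imp (R ck) (cp_and ?_ ?_))
    · exact cp_bex (A := (P × ℕ) × ℕ)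
        (p := fun w l => e l ∈ RN F N0 ∧ (e w.1.2 + e w.2 - e l) / a w.1.1 ∈ RN F N0)
        (cp_and (R cl) (R (computable_div.comp (computable_sub.comp
          (hadd.comp (cj.comp Computable.fst) (ck.comp Computable.fst)) cl)
          (ca.comp Computable.fst)))) cN
    · exact cp_bex (A := (P × ℕ) × ℕ)
        (p := fun w l => e l ∈ RN F N0 ∧ (e w.1.2 * e w.2 - e l) / a w.1.1 ∈ RN F N0)
        (cp_and (R cl) (R (computable_div.comp (computable_sub.comp
          (hmul.comp (cj.comp Computable.fst) (ck.comp Computable.fst)) cl)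
          (ca.comp Computable.fst)))) cN
  have c6 : ComputablePred fun p : P => ∀ j < N p, ∀ k < N p, e j ∈ RN F N0 → e k ∈ RN F N0 →
      ((e j) ^ 2 - b p * (e k) ^ 2) / a p ∈ RN F N0 →
        e j / a p ∈ RN F N0 ∧ e k / a p ∈ RN F N0 := by
    refine cp_ball (p := fun p j => ∀ k < N p, e j ∈ RN F N0 → e k ∈ RN F N0 →
      ((e j) ^ 2 - b p * (e k) ^ 2) / a p ∈ RN F N0 →
        e j / a p ∈ RN F N0 ∧ e k / a p ∈ RN F N0) ?_ hN
    refine cp_ball (A := P × ℕ) (p := fun v k => e v.2 ∈ RN F N0 → e k ∈ RN F N0 →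
      ((e v.2) ^ 2 - b v.1 * (e k) ^ 2) / a v.1 ∈ RN F N0 →
        e v.2 / a v.1 ∈ RN F N0 ∧ e k / a v.1 ∈ RN F N0) ?_ (hN.comp Computable.fst)
    refine cp_imp (R cj) (cp_imp (R ck) (cp_imp (R ?_) (cp_and (R ?_) (R ?_))))
    · exact computable_div.comp (computable_sub.comp ((computable_pow 2).comp cj)
        (hmul.comp cb ((computable_pow 2).comp ck))) ca
    · exact computable_div.comp cj ca
    · exact computable_div.comp ck ca
  have c2 : ComputablePred fun p : P => (a p)⁻¹ ∉ RN F N0 := (R (computable_inv.comp ha)).not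
  exact cp_and (R ha) (cp_and c2 (cp_and (R hb) (cp_and c4 (cp_and c5 (cp_and c6
    (cp_and (R (computable_div.comp hx ha)) (cp_and (R hy) (cp_and (R hz)
      (cp_and (R (computable_div.comp (computable_sub.comp (hmul.comp hy hz)
        (Computable.const 1)) ha)) (cp_eq (hmul.comp ht hx) hy))))))))))

theorem cert_computable [NumberField F] {N0 : ℕ} (hN0 : N0 ≠ 0) (e : ℕ ≃ F) (he : Computable e)
    (G : List F) : ComputablePred fun p : (F × F × F) × (ℕ × F × F × F) =>
      Cert e N0 G p.1.1 p.1.2.1 p.1.2.2 p.2.1 p.2.2.1 p.2.2.2.1 p.2.2.2.2 :=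
  cert_computable_aux hN0 e he G
    (Computable.fst.comp Computable.fst)
    (Computable.fst.comp (Computable.snd.comp Computable.fst))
    (Computable.snd.comp (Computable.snd.comp Computable.fst))
    (Computable.fst.comp Computable.snd)
    (Computable.fst.comp (Computable.snd.comp Computable.snd))
    (Computable.fst.comp (Computable.snd.comp (Computable.snd.comp Computable.snd)))
    (Computable.snd.comp (Computable.snd.comp (Computable.snd.comp Computable.snd)))

/-- rational combinations of pairs -/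
def acE : List (F × F) → List (ℤ × ℕ) → F × F
  | [], _ => (0, 0)
  | p :: L, l => (((l.headI.1 : F) / (l.headI.2 : F)) * p.1 + (acE L l.tail).1,
      ((l.headI.1 : F) / (l.headI.2 : F)) * p.2 + (acE L l.tail).2)

theorem acE_computable (L : List (F × F)) : Computable fun l : List (ℤ × ℕ) => acE L l := by
  induction L with
  | nil => exact Computable.const _
  | cons p L ih =>
    have hh : Computable fun l : List (ℤ × ℕ) => l.headI := Primrec.list_headI.to_comp
    have ht : Computable fun l : List (ℤ × ℕ) => l.tail := Primrec.list_tail.to_comp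
    have h1 : Computable fun l : List (ℤ × ℕ) => (l.headI.1 : F) :=
      computable_intCast.comp (Computable.fst.comp hh)
    have h2 : Computable fun l : List (ℤ × ℕ) => (l.headI.2 : F) :=
      computable_natCast.comp (Computable.snd.comp hh)
    have h3 : Computable fun l : List (ℤ × ℕ) => (l.headI.1 : F) / (l.headI.2 : F) :=
      computable_div.comp h1 h2
    have h4 : Computable fun l : List (ℤ × ℕ) => acE L l.tail := ih.comp ht
    have h5 : Computable fun l : List (ℤ × ℕ) =>
        ((l.headI.1 : F) / (l.headI.2 : F)) * p.1 + (acE L l.tail).1 :=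
      CF.add.comp (CF.mul.comp h3 (Computable.const p.1)) (Computable.fst.comp h4)
    have h6 : Computable fun l : List (ℤ × ℕ) =>
        ((l.headI.1 : F) / (l.headI.2 : F)) * p.2 + (acE L l.tail).2 :=
      CF.add.comp (CF.mul.comp h3 (Computable.const p.2)) (Computable.snd.comp h4)
    exact h5.pair h6

omit [Primcodable F] [CF F] in
theorem acE_sigma (σ : F ≃+* F) (M : List F) (l : List (ℤ × ℕ)) :
    (acE (M.map fun u => (u, σ u)) l).2 = σ (acE (M.map fun u => (u, σ u)) l).1 := by
  induction M generalizing l with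
  | nil => simp [acE]
  | cons u M ih =>
    simp only [List.map_cons, acE]
    rw [ih, map_add, map_mul, map_div₀, map_intCast, map_natCast]

omit [Primcodable F] [CF F] in
theorem acE_span [CharZero F] (σ : F ≃+* F) (M : List F) (x : F)
    (hx : x ∈ Submodule.span ℚ {u | u ∈ M}) :
    ∃ l, (acE (M.map fun u => (u, σ u)) l).1 = x := by
  induction M generalizing x with
  | nil =>
    have h1 : {u : F | u ∈ ([] : List F)} = ∅ := by ext; simp
    rw [h1, Submodule.span_empty, Submodule.mem_bot] at hx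
    exact ⟨[], by simp [acE, hx]⟩
  | cons u M ih =>
    have h1 : {v : F | v ∈ u :: M} = insert u {v | v ∈ M} := by
      ext v; simp
    rw [h1, Submodule.mem_span_insert] at hx
    obtain ⟨c, z, hz, hxz⟩ := hx
    obtain ⟨l, hl⟩ := ih z hz
    refine ⟨(c.num, c.den) :: l, ?_⟩
    simp only [List.map_cons, acE, List.headI_cons, List.tail_cons]
    rw [hl, hxz, Rat.smul_def]
    congr 2
    exact (Rat.cast_def c).symm

theorem aut_computable [NumberField F] (σ : F ≃+* F) : Computable fun x : F => σ x := by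
  obtain ⟨S, hS⟩ : (⊤ : Submodule ℚ F).FG := Module.Finite.fg_top
  obtain ⟨M, hM⟩ : ∃ M : List F, M = S.toList := ⟨_, rfl⟩
  have hspan : ∀ x : F, x ∈ Submodule.span ℚ {u | u ∈ M} := by
    intro x
    have h1 : {u : F | u ∈ M} = (S : Set F) := by
      ext u; rw [hM]; simp
    rw [h1, hS]
    exact Submodule.mem_top
  obtain ⟨E, hEd⟩ : ∃ E : List (ℤ × ℕ) → F × F, E = acE (M.map fun u => (u, σ u)) := ⟨_, rfl⟩
  have hE : Computable E := by rw [hEd]; exact acE_computable _
  have hE2 : ∀ l, (E l).2 = σ (E l).1 := by intro l; rw [hEd]; exact acE_sigma σ M l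
  have hE1 : ∀ x, ∃ l, (E l).1 = x := by
    intro x; rw [hEd]; exact acE_span σ M x (hspan x)
  obtain ⟨hd, hc⟩ : ComputablePred fun p : F × List (ℤ × ℕ) => (E p.2).1 = p.1 :=
    cp_eq (Computable.fst.comp (hE.comp Computable.snd)) Computable.fst
  have hf : Computable₂ (fun (x : F) (k : ℕ) => ((Encodable.decode k : Option (List (ℤ × ℕ)))).bind
      (fun l => cond (@decide ((E l).1 = x) (hd (x, l))) (some (E l).2) none)) := by
    apply Computable.option_bind
    · exact Computable.decode.comp Computable.snd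
    · apply Computable.cond
      · exact hc.comp ((Computable.fst.comp Computable.fst).pair Computable.snd)
      · exact Computable.option_some.comp (Computable.snd.comp (hE.comp Computable.snd))
      · exact Computable.const none
  have hP := Partrec.rfindOpt hf
  have hspec : ∀ (x : F) (k : ℕ) (v : F), v ∈ ((Encodable.decode k : Option (List (ℤ × ℕ)))).bind
      (fun l => cond (@decide ((E l).1 = x) (hd (x, l))) (some (E l).2) none) → v = σ x := by
    intro x k v hv
    rw [Option.mem_def, Option.bind_eq_some_iff] at hv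
    obtain ⟨l, _, hl⟩ := hv
    by_cases h : (E l).1 = x
    · have h1 : @decide ((E l).1 = x) (hd (x, l)) = true := @decide_eq_true _ (hd (x, l)) h
      rw [h1, cond_true] at hl
      have h2 := Option.some.inj hl
      rw [← h2, hE2, h]
    · have h1 : @decide ((E l).1 = x) (hd (x, l)) = false := @decide_eq_false _ (hd (x, l)) h
      rw [h1, cond_false] at hl
      simp at hl
  refine hP.of_eq ?_
  intro x
  show _ = Part.some (σ x)
  have hdom : (Nat.rfindOpt (fun k => ((Encodable.decode k : Option (List (ℤ × ℕ)))).bind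
      (fun l => cond (@decide ((E l).1 = x) (hd (x, l))) (some (E l).2) none))).Dom := by
    rw [Nat.rfindOpt_dom]
    obtain ⟨l, hl⟩ := hE1 x
    refine ⟨Encodable.encode l, (E l).2, ?_⟩
    rw [Encodable.encodek, Option.bind_some]
    have h1 : @decide ((E l).1 = x) (hd (x, l)) = true := @decide_eq_true _ (hd (x, l)) hl
    rw [h1, cond_true]
    rfl
  rw [Part.eq_some_iff]
  obtain ⟨k, hk⟩ := Nat.rfindOpt_spec (Part.get_mem hdom)
  have h2 := hspec x k _ hk
  rw [← h2]
  exact Part.get_mem hdom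

/-- existential relation of two lists of unknowns -/
theorem SS_re : REPred fun p : (F × F) × F => p.2 ∈ SS p.1.1 p.1.2 := by
  have hx : Computable fun x : ((F × F) × F) × (F × F × F) => x.1.2 :=
    Computable.snd.comp Computable.fst
  have ha : Computable fun x : ((F × F) × F) × (F × F × F) => x.1.1.1 :=
    Computable.fst.comp (Computable.fst.comp Computable.fst)
  have hb : Computable fun x : ((F × F) × F) × (F × F × F) => x.1.1.2 :=
    Computable.snd.comp (Computable.fst.comp Computable.fst)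
  have hs : Computable fun x : ((F × F) × F) × (F × F × F) => x.2.1 :=
    Computable.fst.comp Computable.snd
  have hr : Computable fun x : ((F × F) × F) × (F × F × F) => x.2.2.1 :=
    Computable.fst.comp (Computable.snd.comp Computable.snd)
  have hw : Computable fun x : ((F × F) × F) × (F × F × F) => x.2.2.2 :=
    Computable.snd.comp (Computable.snd.comp Computable.snd)
  have hL : Computable fun x : ((F × F) × F) × (F × F × F) => x.1.2 ^ 2 - 4 :=
    computable_sub.comp ((computable_pow 2).comp hx) (Computable.const 4)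
  have h1 : Computable fun x : ((F × F) × F) × (F × F × F) => x.1.1.1 * x.2.1 ^ 2 :=
    CF.mul.comp ha ((computable_pow 2).comp hs)
  have h2 : Computable fun x : ((F × F) × F) × (F × F × F) => x.1.1.2 * x.2.2.1 ^ 2 :=
    CF.mul.comp hb ((computable_pow 2).comp hr)
  have h3 : Computable fun x : ((F × F) × F) × (F × F × F) => x.1.1.1 * x.1.1.2 * x.2.2.2 ^ 2 :=
    CF.mul.comp (CF.mul.comp ha hb) ((computable_pow 2).comp hw)
  have hR : Computable fun x : ((F × F) × F) × (F × F × F) =>
      x.1.1.1 * x.2.1 ^ 2 + x.1.1.2 * x.2.2.1 ^ 2 - x.1.1.1 * x.1.1.2 * x.2.2.2 ^ 2 :=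
    computable_sub.comp (CF.add.comp h1 h2) h3
  have hE := (cp_eq hL hR).to_re
  have := re_ex (A := (F × F) × F) (B := F × F × F)
    (p := fun a b => a.2 ^ 2 - 4 = a.1.1 * b.1 ^ 2 + a.1.2 * b.2.1 ^ 2 - a.1.1 * a.1.2 * b.2.2 ^ 2)
    hE
  refine this.of_eq ?_
  intro p
  constructor
  · rintro ⟨⟨s, r, w⟩, h⟩
    exact ⟨s, r, w, h⟩
  · rintro ⟨s, r, w, h⟩
    exact ⟨⟨s, r, w⟩, h⟩

theorem Fam_re (c0 c : F) : REPred fun b : F => b ∈ Fam c0 c := by
  have add : ∀ {f g : F × F × F × F → F}, Computable f → Computable g →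
      Computable (fun x => f x + g x) := fun hf hg => Computable₂.comp CF.add hf hg
  have mul : ∀ {f g : F × F × F × F → F}, Computable f → Computable g →
      Computable (fun x => f x * g x) := fun hf hg => Computable₂.comp CF.mul hf hg
  have pw : ∀ (k : ℕ) {f : F × F × F × F → F}, Computable f →
      Computable (fun x => f x ^ k) := fun k _ hf => (computable_pow k).comp hf
  have h0 : Computable (fun x : F × F × F × F => x.2.1) := Computable.fst.comp Computable.snd
  have h1 : Computable (fun x : F × F × F × F => x.2.2.1) :=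
    Computable.fst.comp (Computable.snd.comp Computable.snd)
  have h2 : Computable (fun x : F × F × F × F => x.2.2.2) :=
    Computable.snd.comp (Computable.snd.comp Computable.snd)
  have hG : Computable (fun x : F × F × F × F =>
      (x.2.1 ^ 2 + c0 * (x.2.2.1 ^ 2 + x.2.2.1 * x.2.2.2 + c * x.2.2.2 ^ 2)) ^ 2 +
        8 * x.2.1 ^ 4) :=
    add (pw 2 (add (pw 2 h0) (mul (Computable.const c0)
      (add (add (pw 2 h1) (mul h1 h2)) (mul (Computable.const c) (pw 2 h2))))))
      (mul (Computable.const 8) (pw 4 h0))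
  have hE : REPred (fun x : F × F × F × F => x.1 =
      (x.2.1 ^ 2 + c0 * (x.2.2.1 ^ 2 + x.2.2.1 * x.2.2.2 + c * x.2.2.2 ^ 2)) ^ 2 +
        8 * x.2.1 ^ 4) := (cp_eq Computable.fst hG).to_re
  have hX := re_ex (p := fun (b : F) (y : F × F × F) => b =
      (y.1 ^ 2 + c0 * (y.2.1 ^ 2 + y.2.1 * y.2.2 + c * y.2.2 ^ 2)) ^ 2 + 8 * y.1 ^ 4) hE
  have hN : REPred (fun b : F => b ≠ 0) := (cp_eq Computable.id (Computable.const 0)).not.to_re
  have h3 := re_and hN hX
  have e : (fun b : F => b ∈ Fam c0 c) = fun a => a ≠ 0 ∧ ∃ b : F × F × F, a =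
      (b.1 ^ 2 + c0 * (b.2.1 ^ 2 + b.2.1 * b.2.2 + c * b.2.2 ^ 2)) ^ 2 + 8 * b.1 ^ 4 := by
    funext b
    apply propext
    constructor
    · rintro ⟨hb, y0, y1, y2, h⟩
      exact ⟨hb, (y0, y1, y2), h⟩
    · rintro ⟨hb, ⟨y0, y1, y2⟩, h⟩
      exact ⟨hb, y0, y1, y2, h⟩
  rw [e]
  exact h3

end fld

end Pool.Agent.Helper437.CP
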