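import Mathlib
import Pool.Agent.Helper437.CP.A1
import Pool.Agent.Helper437.Dio.Sys

set_option autoImplicit false


namespace Pool.Agent.Helper437.CP

open Filter

section chain

open Polynomial in
open Polynomial in
theorem poly_bound_h1 : ∃ (Δ : Finset ℤ → ℤ) (L : Finset ℤ → ℤ → ℤ[X]), (∀ T, Δ T ≠ 0) ∧
    ∀ (T : Finset ℤ) (P : ℤ[X]), P.degree < T.card →
      C (Δ T) * P = ∑ j ∈ T, C (P.eval j) * L T j := by
  refine ⟨fun T => ∏ j ∈ T, ∏ i ∈ T.erase j, (j - i),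
    fun T j => C (∏ j' ∈ T.erase j, ∏ i ∈ T.erase j', (j' - i)) * ∏ i ∈ T.erase j, (X - C i),
    ?_, ?_⟩
  · intro T
    refine Finset.prod_ne_zero_iff.2 fun j _ => Finset.prod_ne_zero_iff.2 fun i hi => ?_
    exact sub_ne_zero.2 (Finset.ne_of_mem_erase hi).symm
  · intro T P hP
    refine eq_of_degrees_lt_of_eval_finset_eq T ?_ ?_ ?_
    · refine lt_of_le_of_lt ?_ hP
      calc _ ≤ (C (∏ j ∈ T, ∏ i ∈ T.erase j, (j - i)) : ℤ[X]).degree + P.degree := degree_mul_le _ _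
        _ ≤ 0 + P.degree := by gcongr; exact degree_C_le
        _ = P.degree := zero_add _
    · rw [← mem_degreeLT]
      refine Submodule.sum_mem _ fun j hj => ?_
      rw [mem_degreeLT, ← mul_assoc, ← C_mul]
      refine lt_of_le_of_lt ((degree_mul_le _ _).trans (add_le_add degree_C_le le_rfl)) ?_
      rw [zero_add, degree_prod_of_monic _ _ (fun i _ => monic_X_sub_C i)]
      simp only [degree_X_sub_C, Finset.sum_const, nsmul_eq_mul, mul_one]
      rw [Finset.card_erase_of_mem hj]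
      have : 0 < T.card := Finset.card_pos.2 ⟨j, hj⟩
      exact_mod_cast (by omega : T.card - 1 < T.card)
    · intro x hx
      rw [eval_finset_sum, Finset.sum_eq_single x]
      · simp only [eval_mul, eval_C, eval_prod, eval_sub, eval_X]
        have h1 := Finset.mul_prod_erase T (fun j => ∏ i ∈ T.erase j, (j - i)) hx
        rw [← h1]
        ring
      · intro j hj hjx
        simp only [eval_mul, eval_C, eval_prod, eval_sub, eval_X]
        have h1 : ∏ i ∈ T.erase j, (x - i) = 0 :=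
          Finset.prod_eq_zero (Finset.mem_erase.2 ⟨hjx.symm, hx⟩) (sub_self x)
        rw [h1, mul_zero, mul_zero]
      · intro h; exact absurd hx h

open Polynomial in
theorem poly_bound_h2 (d : ℕ) : ∃ k K : ℕ,
    (∀ T ⊆ Finset.Icc (1 : ℤ) (2 * d + 2), T.card = d + 1 → ∀ P : ℤ[X], P.natDegree ≤ d →
      (∀ j ∈ T, (2 : ℤ) ^ k ∣ P.eval j) → ∀ l, (2 : ℤ) ∣ P.coeff l) ∧
    (∀ T ⊆ Finset.Icc (1 : ℤ) (2 * d + 2), T.card = d + 1 → ∀ P : ℤ[X], P.natDegree ≤ d →
      ∀ B : ℤ, (∀ j ∈ T, |P.eval j| ≤ B) → ∀ l, |P.coeff l| ≤ K * B) := by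
  classical
  obtain ⟨Δ, L, hΔ, hL⟩ := poly_bound_h1
  have hdegT : ∀ (T : Finset ℤ) (P : ℤ[X]), T.card = d + 1 → P.natDegree ≤ d →
      P.degree < T.card := by
    intro T P hT hP
    rw [hT]
    refine lt_of_le_of_lt degree_le_natDegree ?_
    exact_mod_cast (by omega : P.natDegree < d + 1)
  have hcoef : ∀ (T : Finset ℤ) (P : ℤ[X]), T.card = d + 1 → P.natDegree ≤ d → ∀ l,
      Δ T * P.coeff l = ∑ j ∈ T, P.eval j * (L T j).coeff l := by
    intro T P hT hP l
    have h1 := congrArg (fun q => coeff q l) (hL T P (hdegT T P hT hP))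
    simp only [coeff_C_mul, finset_sum_coeff] at h1
    exact h1
  refine ⟨∑ T ∈ (Finset.Icc (1 : ℤ) (2 * d + 2)).powerset, (Δ T).natAbs,
    ∑ T ∈ (Finset.Icc (1 : ℤ) (2 * d + 2)).powerset, ∑ l ∈ Finset.range (d + 1),
      ∑ j ∈ T, ((L T j).coeff l).natAbs, ?_, ?_⟩
  · intro T hTS hT P hP hdiv l
    set k := ∑ T ∈ (Finset.Icc (1 : ℤ) (2 * d + 2)).powerset, (Δ T).natAbs with hk
    by_contra hodd
    have hodd2 : Odd (P.coeff l) := by
      rw [← Int.not_even_iff_odd]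
      rintro ⟨r, hr⟩
      exact hodd ⟨r, by rw [hr]; ring⟩
    have h1 : (2 : ℤ) ^ k ∣ Δ T * P.coeff l := by
      rw [hcoef T P hT hP l]
      exact Finset.dvd_sum fun j hj => Dvd.dvd.mul_right (hdiv j hj) _
    have h2 : IsCoprime ((2 : ℤ) ^ k) (P.coeff l) := (Int.isCoprime_two_left.2 hodd2).pow_left
    have h3 : (2 : ℤ) ^ k ∣ Δ T := h2.dvd_of_dvd_mul_right h1
    have h4 := Int.natAbs_dvd_natAbs.2 h3
    have h5 := Nat.le_of_dvd (Int.natAbs_pos.2 (hΔ T)) h4
    have h6 : (Δ T).natAbs ≤ k := by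
      rw [hk]
      exact Finset.single_le_sum (f := fun T => (Δ T).natAbs) (fun _ _ => Nat.zero_le _)
        (Finset.mem_powerset.2 hTS)
    have h7 : ((2 : ℤ) ^ k).natAbs = 2 ^ k := by
      rw [Int.natAbs_pow]; rfl
    rw [h7] at h5
    have h8 : k < 2 ^ k := Nat.lt_two_pow_self
    omega
  · intro T hTS hT P hP B hB l
    set K := ∑ T ∈ (Finset.Icc (1 : ℤ) (2 * d + 2)).powerset, ∑ l ∈ Finset.range (d + 1),
      ∑ j ∈ T, ((L T j).coeff l).natAbs with hK
    have hB0 : 0 ≤ B := by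
      obtain ⟨j, hj⟩ : T.Nonempty := by
        rw [← Finset.card_pos]; omega
      exact (abs_nonneg _).trans (hB j hj)
    rcases Nat.lt_or_ge d l with hl | hl
    · have h1 : P.coeff l = 0 := coeff_eq_zero_of_natDegree_lt (by omega)
      rw [h1, abs_zero]
      positivity
    · have h1 : ∑ j ∈ T, |(L T j).coeff l| ≤ (K : ℤ) := by
        have h2 : ∑ j ∈ T, ((L T j).coeff l).natAbs ≤ K := by
          rw [hK]
          refine le_trans ?_ (Finset.single_le_sum
            (f := fun T => ∑ l ∈ Finset.range (d + 1), ∑ j ∈ T, ((L T j).coeff l).natAbs)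
            (fun _ _ => Nat.zero_le _) (Finset.mem_powerset.2 hTS))
          exact Finset.single_le_sum (f := fun l => ∑ j ∈ T, ((L T j).coeff l).natAbs)
            (fun _ _ => Nat.zero_le _) (Finset.mem_range.2 (by omega))
        have h3 : ((∑ j ∈ T, ((L T j).coeff l).natAbs : ℕ) : ℤ) = ∑ j ∈ T, |(L T j).coeff l| := by
          push_cast
          rfl
        rw [← h3]
        exact_mod_cast h2
      have h4 : |P.coeff l| ≤ |Δ T * P.coeff l| := by
        rw [abs_mul]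
        have := Int.one_le_abs (hΔ T)
        nlinarith [abs_nonneg (P.coeff l)]
      rw [hcoef T P hT hP l] at h4
      calc |P.coeff l| ≤ |∑ j ∈ T, P.eval j * (L T j).coeff l| := h4
        _ ≤ ∑ j ∈ T, |P.eval j * (L T j).coeff l| := Finset.abs_sum_le_sum_abs _ _
        _ ≤ ∑ j ∈ T, B * |(L T j).coeff l| := by
            refine Finset.sum_le_sum fun j hj => ?_
            rw [abs_mul]
            exact mul_le_mul_of_nonneg_right (hB j hj) (abs_nonneg _)
        _ = B * ∑ j ∈ T, |(L T j).coeff l| := by rw [Finset.mul_sum]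
        _ ≤ B * K := mul_le_mul_of_nonneg_left h1 hB0
        _ = K * B := mul_comm _ _

open Polynomial in
/-- coefficient bound for monic polynomials over `ℤ[1/2]` whose values at `1, …, I` have small
odd parts -/
theorem poly_bound (d : ℕ) : ∃ I κ : ℕ, 2 ≤ I ∧ ∀ (R : ℚ[X]) (G : ℕ), R.Monic → R.natDegree = d →
    0 < G →
    (∃ (E : ℕ) (Q : ℤ[X]), C ((2 : ℚ) ^ E) * R = Q.map (Int.castRingHom ℚ)) →
    (∀ i ∈ Finset.Icc 1 I, ∃ (a b : ℕ) (m : ℤ), Odd m ∧ m ∣ (G : ℤ) ∧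
      (2 : ℚ) ^ a * R.eval (i : ℚ) = m * 2 ^ b) →
    ∃ (e : ℕ) (R0 : ℤ[X]), 2 ^ e ≤ κ * G ∧ C ((2 : ℚ) ^ e) * R = R0.map (Int.castRingHom ℚ) ∧
      ∀ j, |R0.coeff j| ≤ κ * G := by

  classical
  obtain ⟨k, K, h1, h2⟩ := poly_bound_h2 d
  refine ⟨2 * d + 2, K * 2 ^ k, by omega, ?_⟩
  intro R G hmon hdeg hG hE hval
  obtain ⟨Q, hQ⟩ := Nat.find_spec hE
  have hmin := fun n => Nat.find_min (m := n) hE
  set e := Nat.find hE with he
  have hc : ∀ l, ((Q.coeff l : ℤ) : ℚ) = 2 ^ e * R.coeff l := by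
    intro l
    have h3 := congrArg (fun q => coeff q l) hQ
    simp only [coeff_C_mul, coeff_map] at h3
    rw [h3]
    rfl
  have hQd : Q.coeff d = 2 ^ e := by
    have h3 := hc d
    have h4 : R.coeff d = 1 := by rw [← hdeg]; exact hmon.coeff_natDegree
    rw [h4, mul_one] at h3
    exact_mod_cast h3
  have hQdeg : Q.natDegree ≤ d := by
    rw [natDegree_le_iff_coeff_eq_zero]
    intro l hl
    have h3 := hc l
    rw [coeff_eq_zero_of_natDegree_lt (by omega : R.natDegree < l), mul_zero] at h3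
    exact_mod_cast h3
  have hodd : ¬ ∀ l, (2 : ℤ) ∣ Q.coeff l := by
    intro hall
    rcases Nat.eq_zero_or_pos e with h0 | hpos
    · have h3 := hall d
      rw [hQd, h0, pow_zero] at h3
      omega
    · have h3 : C (2 : ℤ) ∣ Q := (C_dvd_iff_dvd_coeff 2 Q).2 hall
      obtain ⟨Q1, hQ1⟩ := h3
      refine hmin (e - 1) (by omega) ⟨Q1, ?_⟩
      have h4 : C (2 : ℚ) * (C ((2 : ℚ) ^ (e - 1)) * R) = C (2 : ℚ) * Q1.map (Int.castRingHom ℚ) := by
        have h5 : C (2 : ℚ) * Q1.map (Int.castRingHom ℚ) = Q.map (Int.castRingHom ℚ) := by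
          rw [hQ1, Polynomial.map_mul, map_C]
          simp
        rw [h5, ← hQ, ← mul_assoc, ← C_mul, ← pow_succ', Nat.sub_add_cancel hpos]
      exact mul_left_cancel₀ (C_ne_zero.2 two_ne_zero) h4
  have hdich : ∀ i ∈ Finset.Icc (1 : ℤ) (2 * d + 2), ¬ (2 : ℤ) ^ k ∣ Q.eval i →
      |Q.eval i| ≤ G * 2 ^ k := by
    intro i hi hnd
    rw [Finset.mem_Icc] at hi
    obtain ⟨n, rfl⟩ : ∃ n : ℕ, i = n := ⟨i.toNat, by omega⟩
    obtain ⟨a, b, m, hm, hmG, hab⟩ := hval n (by rw [Finset.mem_Icc]; omega)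
    have h3 : ((Q.eval (n : ℤ) : ℤ) : ℚ) = 2 ^ e * R.eval (n : ℚ) := by
      have h4 := congrArg (fun q => eval (n : ℚ) q) hQ
      simp only [eval_mul, eval_C] at h4
      rw [h4]
      have h5 := eval_intCast_map (Int.castRingHom ℚ) Q (n : ℤ)
      rw [Int.cast_natCast] at h5
      rw [h5]
      rfl
    have h4 : (2 : ℤ) ^ a * Q.eval (n : ℤ) = m * 2 ^ (b + e) := by
      have h5 : (2 : ℚ) ^ a * ((Q.eval (n : ℤ) : ℤ) : ℚ) = m * 2 ^ (b + e) := by
        rw [h3, pow_add]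
        linear_combination (2 : ℚ) ^ e * hab
      exact_mod_cast h5
    have h5 : IsCoprime ((2 : ℤ) ^ a) m := (Int.isCoprime_two_left.2 hm).pow_left
    have h6 : (2 : ℤ) ^ a ∣ 2 ^ (b + e) := h5.dvd_of_dvd_mul_left ⟨_, h4.symm⟩
    have h7 : a ≤ b + e := by
      have h8 : (2 : ℕ) ^ a ∣ 2 ^ (b + e) := by exact_mod_cast h6
      exact (Nat.pow_dvd_pow_iff_le_right (by norm_num)).1 h8
    obtain ⟨s, hs⟩ : ∃ s, b + e = a + s := ⟨b + e - a, by omega⟩
    have h8 : Q.eval (n : ℤ) = m * 2 ^ s := by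
      rw [hs, pow_add] at h4
      have h9 : (2 : ℤ) ^ a * Q.eval (n : ℤ) = 2 ^ a * (m * 2 ^ s) := by rw [h4]; ring
      exact mul_left_cancel₀ (by positivity) h9
    have h9 : s < k := by
      by_contra hsk
      push Not at hsk
      apply hnd
      rw [h8]
      exact Dvd.dvd.mul_left (pow_dvd_pow 2 hsk) m
    rw [h8, abs_mul, abs_of_pos (by positivity : (0 : ℤ) < 2 ^ s)]
    have h10 : |m| ≤ G := by
      have := Int.le_of_dvd (by exact_mod_cast hG) ((abs_dvd _ _).2 hmG)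
      exact this
    have h11 : (2 : ℤ) ^ s ≤ 2 ^ k := pow_le_pow_right₀ (by norm_num) h9.le
    exact mul_le_mul h10 h11 (by positivity) (by positivity)
  have hcard : (Finset.Icc (1 : ℤ) (2 * d + 2)).card = 2 * d + 2 := by
    rw [Int.card_Icc]; omega
  have hsplit := Finset.card_filter_add_card_filter_not (s := Finset.Icc (1 : ℤ) (2 * d + 2))
    (fun i => (2 : ℤ) ^ k ∣ Q.eval i)
  have hle : ((Finset.Icc (1 : ℤ) (2 * d + 2)).filter (fun i => (2 : ℤ) ^ k ∣ Q.eval i)).card ≤ d := by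
    by_contra hcon
    push Not at hcon
    obtain ⟨T, hT1, hT2⟩ := Finset.exists_subset_card_eq (Nat.succ_le_of_lt hcon)
    exact hodd (h1 T (hT1.trans (Finset.filter_subset _ _)) hT2 Q hQdeg
      (fun j hj => (Finset.mem_filter.1 (hT1 hj)).2))
  obtain ⟨T, hT1, hT2⟩ := Finset.exists_subset_card_eq
    (s := (Finset.Icc (1 : ℤ) (2 * d + 2)).filter (fun i => ¬ (2 : ℤ) ^ k ∣ Q.eval i))
    (n := d + 1) (by omega)
  have hb := h2 T (hT1.trans (Finset.filter_subset _ _)) hT2 Q hQdeg (G * 2 ^ k)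
    (fun j hj => hdich j (Finset.mem_filter.1 (hT1 hj)).1 (Finset.mem_filter.1 (hT1 hj)).2)
  have hb2 : ∀ l, |Q.coeff l| ≤ ((K * 2 ^ k : ℕ) : ℤ) * G := by
    intro l
    refine (hb l).trans_eq ?_
    push_cast
    ring
  refine ⟨e, Q, ?_, hQ, hb2⟩
  have h3 := hb2 d
  rw [hQd, abs_of_pos (by positivity)] at h3
  exact_mod_cast h3

variable (F : Type) [Field F] [NumberField F]

-- from job 28906
theorem ch_norm (z : F) (hz : z ∈ RN F 2) :
    ∃ (a : ℕ) (m : ℤ), (2 : ℚ) ^ a * Algebra.norm ℚ z = m := by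
  obtain ⟨k, hk⟩ := hz
  have h1 : IsIntegral ℤ (Algebra.norm ℚ (((2 : ℕ) : F) ^ k * z)) := Algebra.isIntegral_norm ℚ hk
  obtain ⟨m, hm⟩ := IsIntegrallyClosed.isIntegral_iff.1 h1
  refine ⟨k * Module.finrank ℚ F, m, ?_⟩
  have h2 : (((2 : ℕ) : F) ^ k) = algebraMap ℚ F ((2 : ℚ) ^ k) := by
    simp
  rw [h2, map_mul, Algebra.norm_algebraMap, ← pow_mul] at hm
  rw [← hm]
  simp

-- from job 28902
open Polynomial in
theorem ch_charpoly_ev {ι : Type*} [Fintype ι] [DecidableEq ι] (b : Module.Basis ι ℚ F) (w : F) (t : ℚ) :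
    (Algebra.leftMulMatrix b w).charpoly.eval t = Algebra.norm ℚ ((t : F) - w) := by
  rw [Matrix.eval_charpoly, Algebra.norm_eq_matrix_det b, map_sub]
  congr 2
  rw [← eq_ratCast (algebraMap ℚ F) t, AlgHom.commutes, Matrix.algebraMap_eq_diagonal,
    Matrix.scalar_apply]
  rfl

open Polynomial in
theorem ch_charpoly (x : F) (hx : x ∈ RN F 2) : ∃ R : ℚ[X], R.Monic ∧
    R.natDegree = Module.finrank ℚ F ∧
    (∃ (E : ℕ) (Q : ℤ[X]), C ((2 : ℚ) ^ E) * R = Q.map (Int.castRingHom ℚ)) ∧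
    ∀ r : ℚ, R.eval r = Algebra.norm ℚ (x + (r : F)) := by
  classical
  obtain ⟨k, hk⟩ := hx
  let b := NumberField.integralBasis F
  have hev : ∀ r : ℚ, (Algebra.leftMulMatrix b (-x)).charpoly.eval r = Algebra.norm ℚ (x + (r : F)) := by
    intro r
    rw [ch_charpoly_ev F b (-x) r]
    congr 1
    ring
  refine ⟨(Algebra.leftMulMatrix b (-x)).charpoly, Matrix.charpoly_monic _, ?_, ?_, hev⟩
  · rw [Matrix.charpoly_natDegree_eq_dim, Module.finrank_eq_card_basis b]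
  · -- the integral element
    let y : NumberField.RingOfIntegers F := ⟨-((2 : F) ^ k * x), by
      have : IsIntegral ℤ (-((2 : F) ^ k * x)) := by
        have h := hk.neg
        simpa using h
      exact this⟩
    have hy : algebraMap (NumberField.RingOfIntegers F) F y = -((2 : F) ^ k * x) := rfl
    let P : ℤ[X] := (Algebra.leftMulMatrix (NumberField.RingOfIntegers.basis F) y).charpoly
    have hP : P.map (Int.castRingHom ℚ) =
        (Algebra.leftMulMatrix b (algebraMap (NumberField.RingOfIntegers F) F y)).charpoly := by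
      have h1 := Algebra.map_leftMulMatrix_localization (R := ℤ) (Rₘ := ℚ) (M := nonZeroDivisors ℤ)
        (Sₘ := F) (NumberField.RingOfIntegers.basis F) y
      have h2 : Algebra.leftMulMatrix b (algebraMap (NumberField.RingOfIntegers F) F y) =
          (algebraMap ℤ ℚ).mapMatrix (Algebra.leftMulMatrix (NumberField.RingOfIntegers.basis F) y) :=
        h1.symm
      rw [h2, RingHom.mapMatrix_apply, Matrix.charpoly_map]
      rfl
    refine ⟨k * Module.finrank ℚ F, P.comp (C (2 ^ k) * X), ?_⟩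
    apply Polynomial.funext
    intro r
    rw [eval_mul, eval_C, hev, Polynomial.map_comp, eval_comp, hP, ch_charpoly_ev F b, hy]
    simp only [Polynomial.map_mul, Polynomial.map_C, Polynomial.map_X, eval_mul, eval_C, eval_X]
    have e : (((Int.castRingHom ℚ) (2 ^ k) * r : ℚ) : F) - -((2 : F) ^ k * x) =
        algebraMap ℚ F (2 ^ k) * (x + (r : F)) := by
      simp
      ring
    rw [e, map_mul, Algebra.norm_algebraMap, pow_mul]

-- from job 28907
theorem ch_oddpart (N : ℚ) (M : ℚ) (G : ℕ) (hG : 0 < G) (hN : ∃ (a : ℕ) (m : ℤ), (2 : ℚ) ^ a * N = m)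
    (hM : ∃ (a : ℕ) (m : ℤ), (2 : ℚ) ^ a * M = m) (h : N * M = G) :
    ∃ (a b : ℕ) (m : ℤ), Odd m ∧ m ∣ (G : ℤ) ∧ (2 : ℚ) ^ a * M = m * 2 ^ b := by
  obtain ⟨a1, n1, h1⟩ := hN
  obtain ⟨a2, m1, h2⟩ := hM
  have h3 : n1 * m1 = 2 ^ (a1 + a2) * (G : ℤ) := by
    have : (n1 : ℚ) * m1 = 2 ^ (a1 + a2) * (G : ℚ) := by
      rw [← h1, ← h2, ← h, pow_add]; ring
    exact_mod_cast this
  have hm1 : m1 ≠ 0 := by
    rintro rfl
    rw [mul_zero] at h3
    have : (2 : ℤ) ^ (a1 + a2) * (G : ℤ) ≠ 0 := by positivity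
    exact this h3.symm
  obtain ⟨b, c, hc, hbc⟩ := Nat.exists_eq_two_pow_mul_odd (Int.natAbs_ne_zero.mpr hm1)
  obtain ⟨m, hm, hmm⟩ : ∃ m : ℤ, Odd m ∧ m1 = m * 2 ^ b := by
    rcases Int.natAbs_eq m1 with h4 | h4
    · refine ⟨c, by exact_mod_cast hc, ?_⟩
      rw [h4, hbc]; push_cast; ring
    · refine ⟨-c, by
        have : Odd (c : ℤ) := by exact_mod_cast hc
        exact this.neg, ?_⟩
      rw [h4, hbc]; push_cast; ring
  refine ⟨a2, b, m, hm, ?_, ?_⟩
  · have h5 : m ∣ 2 ^ (a1 + a2) * (G : ℤ) := by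
      rw [← h3, hmm]
      exact Dvd.intro (n1 * 2 ^ b) (by ring)
    obtain ⟨k, hk⟩ := hm
    have hcop : IsCoprime m (2 : ℤ) := ⟨1, -k, by rw [hk]; ring⟩
    exact (hcop.pow_right).dvd_of_dvd_mul_left h5
  · rw [h2, hmm]; push_cast; ring

-- from job 28904
theorem ch_dvd_nat (n : ℕ) : IsIntegral ℤ (n : F) := by
  have := isIntegral_algebraMap (R := ℤ) (A := F) (x := (n : ℤ))
  simpa using this

/-- `O_F[1/2]` as a subring -/
def ch_dvd_ring : Subring F where
  carrier := RN F 2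
  mul_mem' := by
    rintro a b ⟨k, hk⟩ ⟨l, hl⟩
    refine ⟨k + l, ?_⟩
    have := hk.mul hl
    have e : ((2 : ℕ) : F) ^ k * a * (((2 : ℕ) : F) ^ l * b) = ((2 : ℕ) : F) ^ (k + l) * (a * b) := by
      ring
    rwa [e] at this
  one_mem' := ⟨0, by simpa using isIntegral_one⟩
  add_mem' := by
    rintro a b ⟨k, hk⟩ ⟨l, hl⟩
    refine ⟨k + l, ?_⟩
    have := (((ch_dvd_nat F 2).pow l).mul hk).add (((ch_dvd_nat F 2).pow k).mul hl)
    have e : ((2 : ℕ) : F) ^ l * (((2 : ℕ) : F) ^ k * a) + ((2 : ℕ) : F) ^ k *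
        (((2 : ℕ) : F) ^ l * b) = ((2 : ℕ) : F) ^ (k + l) * (a + b) := by
      ring
    rwa [e] at this
  zero_mem' := ⟨0, by simpa using isIntegral_zero⟩
  neg_mem' := by
    rintro a ⟨k, hk⟩
    refine ⟨k, ?_⟩
    have := hk.neg
    have e : -(((2 : ℕ) : F) ^ k * a) = ((2 : ℕ) : F) ^ k * (-a) := by ring
    rwa [e] at this

theorem ch_dvd_half : (1 / 2 : F) ∈ ch_dvd_ring F := by
  refine ⟨1, ?_⟩
  have h2 : (2 : F) ≠ 0 := two_ne_zero
  have e : ((2 : ℕ) : F) ^ 1 * (1 / 2) = 1 := by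
    push_cast
    field_simp
  rw [e]
  exact isIntegral_one

theorem ch_dvd_exp (g x : F) (hg : g ∈ ch_dvd_ring F) (hx : x ∈ ch_dvd_ring F) (n : ℕ) :
    ∃ q ∈ ch_dvd_ring F, ∏ y ∈ Finset.range n, (1 + g * (y : F)) =
      (1 + g * x) * q + (-g) ^ n * ∏ y ∈ Finset.range n, (x - (y : F)) := by
  induction n with
  | zero => exact ⟨0, (ch_dvd_ring F).zero_mem, by simp⟩
  | succ n ih =>
    obtain ⟨q, hq, h⟩ := ih
    refine ⟨q * (1 + g * (n : F)) + (-g) ^ n * ∏ y ∈ Finset.range n, (x - (y : F)), ?_, ?_⟩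
    · refine (ch_dvd_ring F).add_mem ((ch_dvd_ring F).mul_mem hq ((ch_dvd_ring F).add_mem
        (ch_dvd_ring F).one_mem ((ch_dvd_ring F).mul_mem hg (natCast_mem _ n))))
        ((ch_dvd_ring F).mul_mem ((ch_dvd_ring F).pow_mem ((ch_dvd_ring F).neg_mem hg) n)
          (prod_mem fun y _ => (ch_dvd_ring F).sub_mem hx (natCast_mem _ y)))
    · rw [Finset.prod_range_succ, h, Finset.prod_range_succ]
      ring

theorem ch_dvd (x : F) (hx : x ∈ RN F 2) (n Gm : ℕ)
    (h : ∃ z ∈ RN F 2, z * (1 + ((2 ^ Gm : ℕ) : F) * x) =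
      ((∏ y ∈ Finset.range (n + 1), (1 + 2 ^ Gm * y) : ℕ) : F)) :
    ∃ w ∈ RN F 2, w * (1 + ((2 ^ Gm : ℕ) : F) * x) = ∏ y ∈ Finset.range (n + 1), (x - (y : F)) := by
  obtain ⟨z, hz, hzx⟩ := h
  have h2 : (2 : F) ≠ 0 := two_ne_zero
  set g : F := ((2 ^ Gm : ℕ) : F) with hgdef
  have hg : g ∈ ch_dvd_ring F := natCast_mem _ _
  have hg2 : g = 2 ^ Gm := by rw [hgdef]; push_cast; ring
  obtain ⟨q, hq, hprod⟩ := ch_dvd_exp F g x hg hx (n + 1)
  have hcast : ((∏ y ∈ Finset.range (n + 1), (1 + 2 ^ Gm * y) : ℕ) : F) =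
      ∏ y ∈ Finset.range (n + 1), (1 + g * (y : F)) := by
    rw [hg2]
    push_cast
    rfl
  rw [hcast, hprod] at hzx
  set c : F := -(1 / 2) ^ Gm with hc
  have hcm : c ∈ ch_dvd_ring F :=
    (ch_dvd_ring F).neg_mem ((ch_dvd_ring F).pow_mem (ch_dvd_half F) Gm)
  have hcg : c * (-g) = 1 := by
    rw [hc, hg2]
    have : ((1 / 2 : F)) ^ Gm * 2 ^ Gm = 1 := by
      rw [← mul_pow]
      field_simp
      simp
    linear_combination this
  refine ⟨(z - q) * c ^ (n + 1), (ch_dvd_ring F).mul_mem ((ch_dvd_ring F).sub_mem hz hq)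
    ((ch_dvd_ring F).pow_mem hcm _), ?_⟩
  have h3 : (c * (-g)) ^ (n + 1) = 1 := by rw [hcg, one_pow]
  rw [mul_pow] at h3
  linear_combination c ^ (n + 1) * hzx + (∏ y ∈ Finset.range (n + 1), (x - (y : F))) * h3

-- from job 28903
open Polynomial in
theorem ch_u (d : ℕ) (hd : 0 < d) (R : ℚ[X]) (hR : R.Monic) (hRd : R.natDegree = d) (e : ℕ)
    (R0 : ℤ[X]) (B : ℕ) (h0 : C ((2 : ℚ) ^ e) * R = R0.map (Int.castRingHom ℚ))
    (hB : ∀ j, |R0.coeff j| ≤ B) (Gm : ℕ) (hGm : e < Gm) (hne : R0.coeff 0 ≠ 0) (U : ℚ)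
    (hU : U = (2 : ℚ) ^ (Gm * d) * R.eval ((1 : ℚ) / 2 ^ Gm)) (hbig : d * B ≤ 2 ^ Gm) :
    ∃ u : ℤ, Odd u ∧ U = u ∧ (2 : ℤ) ^ Gm - d * B ≤ 2 ^ e * |u| := by
  have h2e : (2 : ℚ) ^ e ≠ 0 := by positivity
  set g : ℤ := 2 ^ Gm with hg
  have hgp : 0 < g := by positivity
  have hg1 : 1 ≤ g := hgp
  have hcoe : ∀ j, (2 : ℚ) ^ e * R.coeff j = (R0.coeff j : ℚ) := by
    intro j
    have h1 : (C ((2 : ℚ) ^ e) * R).coeff j = (R0.map (Int.castRingHom ℚ)).coeff j := by rw [h0]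
    rw [Polynomial.coeff_C_mul, Polynomial.coeff_map] at h1
    simpa using h1
  have hlead : R0.coeff d = 2 ^ e := by
    have h1 := hcoe d
    have h2 : R.coeff d = 1 := by
      rw [← hRd]
      exact hR
    rw [h2, mul_one] at h1
    exact_mod_cast h1.symm
  set V : ℤ := ∑ j ∈ Finset.range d, R0.coeff j * g ^ (d - 1 - j) with hV
  set W : ℤ := ∑ j ∈ Finset.range (d + 1), R0.coeff j * g ^ (d - j) with hW
  have hWV : W = g * V + 2 ^ e := by
    rw [hW, Finset.sum_range_succ, hlead, hV, Finset.mul_sum]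
    congr 1
    · refine Finset.sum_congr rfl fun j hj => ?_
      have hjd := Finset.mem_range.mp hj
      have h1 : d - j = (d - 1 - j) + 1 := by omega
      rw [h1, pow_succ]
      ring
    · simp
  have hUW : (2 : ℚ) ^ e * U = (W : ℚ) := by
    have hev : (2 : ℚ) ^ e * R.eval ((1 : ℚ) / 2 ^ Gm) =
        ∑ j ∈ Finset.range (d + 1), (R0.coeff j : ℚ) * ((1 : ℚ) / 2 ^ Gm) ^ j := by
      rw [Polynomial.eval_eq_sum_range, hRd, Finset.mul_sum]
      refine Finset.sum_congr rfl fun j _ => ?_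
      rw [← mul_assoc, hcoe]
    rw [hU]
    calc (2 : ℚ) ^ e * ((2 : ℚ) ^ (Gm * d) * R.eval ((1 : ℚ) / 2 ^ Gm)) =
        (2 : ℚ) ^ (Gm * d) * ((2 : ℚ) ^ e * R.eval ((1 : ℚ) / 2 ^ Gm)) := by ring
      _ = ∑ j ∈ Finset.range (d + 1), (2 : ℚ) ^ (Gm * d) *
          ((R0.coeff j : ℚ) * ((1 : ℚ) / 2 ^ Gm) ^ j) := by rw [hev, Finset.mul_sum]
      _ = (W : ℚ) := by
        rw [hW, Int.cast_sum]
        refine Finset.sum_congr rfl fun j hj => ?_
        have hjd : j ≤ d := by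
          have := Finset.mem_range.mp hj
          omega
        rw [hg]
        push_cast
        have h3 : (2 : ℚ) ^ (Gm * d) = ((2 : ℚ) ^ Gm) ^ (d - j) * ((2 : ℚ) ^ Gm) ^ j := by
          rw [← pow_add, Nat.sub_add_cancel hjd, ← pow_mul]
        rw [h3, one_div, inv_pow]
        field_simp
  have hge : g = 2 ^ e * 2 ^ (Gm - e) := by
    rw [hg, ← pow_add]
    congr 1
    omega
  set u : ℤ := 1 + 2 ^ (Gm - e) * V with hu
  have hWu : W = 2 ^ e * u := by
    rw [hWV, hu, hge]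
    ring
  refine ⟨u, ?_, ?_, ?_⟩
  · have h1 : Even ((2 : ℤ) ^ (Gm - e) * V) := by
      have h2 : Gm - e = (Gm - e - 1) + 1 := by omega
      rw [h2, pow_succ]
      exact ⟨2 ^ (Gm - e - 1) * V, by ring⟩
    rw [hu, add_comm]
    exact h1.add_one
  · have h1 : (2 : ℚ) ^ e * U = (2 : ℚ) ^ e * (u : ℚ) := by
      rw [hUW, hWu]
      push_cast
      ring
    exact mul_left_cancel₀ h2e h1
  · have h1 : 2 ^ e * |u| = |W| := by
      rw [hWu, abs_mul, abs_of_pos (by positivity : (0:ℤ) < 2 ^ e)]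
    rw [h1]
    have hW2 : W = (∑ j ∈ Finset.range d, R0.coeff (j + 1) * g ^ (d - (j + 1))) +
        R0.coeff 0 * g ^ d := by
      rw [hW, Finset.sum_range_succ']
      simp
    have hc0 : 1 ≤ |R0.coeff 0| := Int.one_le_abs hne
    have hpow : ∀ n : ℕ, 1 ≤ g ^ n := fun n => one_le_pow₀ hg1
    have hs : |∑ j ∈ Finset.range d, R0.coeff (j + 1) * g ^ (d - (j + 1))| ≤
        d * B * g ^ (d - 1) := by
      refine (Finset.abs_sum_le_sum_abs _ _).trans ?_
      have h3 : ∀ j ∈ Finset.range d, |R0.coeff (j + 1) * g ^ (d - (j + 1))| ≤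
          (B : ℤ) * g ^ (d - 1) := by
        intro j _
        rw [abs_mul, abs_of_pos (pow_pos hgp _)]
        have h4 : g ^ (d - (j + 1)) ≤ g ^ (d - 1) := pow_le_pow_right₀ hg1 (by omega)
        exact mul_le_mul (hB _) h4 (pow_pos hgp _).le (by positivity)
      refine (Finset.sum_le_sum h3).trans ?_
      rw [Finset.sum_const, Finset.card_range, nsmul_eq_mul]
      exact le_of_eq (by ring)
    have h5 : g ^ d ≤ |R0.coeff 0 * g ^ d| := by
      rw [abs_mul, abs_of_pos (pow_pos hgp d)]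
      have := pow_pos hgp d
      nlinarith
    have h6 : |R0.coeff 0 * g ^ d| - |∑ j ∈ Finset.range d, R0.coeff (j + 1) *
        g ^ (d - (j + 1))| ≤ |W| := by
      rw [hW2, add_comm]
      exact abs_sub_abs_le_abs_add _ _
    have h7 : g ^ d = g ^ (d - 1) * g := by
      rw [← pow_succ]
      congr 1
      omega
    have hbig' : (d : ℤ) * B ≤ g := by
      rw [hg]
      exact_mod_cast hbig
    have h8 : g - d * B ≤ g ^ (d - 1) * (g - d * B) := by
      have := hpow (d - 1)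
      nlinarith
    have h9 : g ^ (d - 1) * (g - d * B) = g ^ d - d * B * g ^ (d - 1) := by
      rw [h7]
      ring
    linarith

-- from job 28908
open Polynomial in
theorem ch_Z (d : ℕ) (R0 : ℤ[X]) (hR : R0.natDegree ≤ d) (B : ℕ) (hB : ∀ j, |R0.coeff j| ≤ B)
    (n k : ℕ) (hk : k ≤ n) : |R0.eval (-(k : ℤ))| ≤ (d + 1) * B * (n + 1) ^ d := by
  rw [Polynomial.eval_eq_sum_range' (Nat.lt_succ_of_le hR)]
  refine (Finset.abs_sum_le_sum_abs _ _).trans ?_
  have h1 : ∀ j ∈ Finset.range (d + 1), |R0.coeff j * (-(k : ℤ)) ^ j| ≤ (B : ℤ) * (n + 1) ^ d := by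
    intro j hj
    rw [Finset.mem_range] at hj
    rw [abs_mul, abs_pow, abs_neg, Nat.abs_cast]
    refine mul_le_mul (hB j) ?_ (by positivity) (by positivity)
    calc (k : ℤ) ^ j ≤ ((n : ℤ) + 1) ^ j := by
          refine pow_le_pow_left₀ (by positivity) ?_ j
          have : (k : ℤ) ≤ n := by exact_mod_cast hk
          linarith
      _ ≤ ((n : ℤ) + 1) ^ d := pow_le_pow_right₀ (by linarith [Int.natCast_nonneg n]) (by omega)
  refine (Finset.sum_le_card_nsmul _ _ _ h1).trans ?_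
  rw [Finset.card_range, nsmul_eq_mul]
  push_cast
  exact le_of_eq (by ring)

-- from job 28905
theorem ch_ineq (d K : ℕ) : ∃ κ : ℕ, ∀ f n : ℕ, 0 < f → n + 1 ≤ f →
    d * (K * f ^ d) + (K * f ^ d) * ((d + 1) * (K * f ^ d) * (n + 1) ^ d) ^ (n + 1) <
      2 ^ ((f + κ) ^ κ) := by
  refine ⟨5 * (d + K + 1) + 3, ?_⟩
  intro f n hf hn
  have hff : f ≤ 2 ^ f := Nat.lt_two_pow_self.le
  have hfd : f ^ d ≤ 2 ^ (f * d) := by
    calc f ^ d ≤ (2 ^ f) ^ d := Nat.pow_le_pow_left hff d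
      _ = 2 ^ (f * d) := (pow_mul 2 f d).symm
  have hP : K * f ^ d ≤ 2 ^ (K + f * d) := by
    rw [pow_add]
    exact Nat.mul_le_mul Nat.lt_two_pow_self.le hfd
  have hnd : (n + 1) ^ d ≤ 2 ^ (f * d) := (Nat.pow_le_pow_left hn d).trans hfd
  have hd1 : d + 1 ≤ 2 ^ d := Nat.lt_two_pow_self
  obtain ⟨X, hX⟩ : ∃ X, X = d + (K + f * d) + f * d := ⟨_, rfl⟩
  have hQ : (d + 1) * (K * f ^ d) * (n + 1) ^ d ≤ 2 ^ X := by
    rw [hX, pow_add, pow_add]
    exact Nat.mul_le_mul (Nat.mul_le_mul hd1 hP) hnd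
  have hQn : ((d + 1) * (K * f ^ d) * (n + 1) ^ d) ^ (n + 1) ≤ 2 ^ (X * f) := by
    calc ((d + 1) * (K * f ^ d) * (n + 1) ^ d) ^ (n + 1) ≤ (2 ^ X) ^ (n + 1) :=
          Nat.pow_le_pow_left hQ _
      _ = 2 ^ (X * (n + 1)) := (pow_mul 2 X (n + 1)).symm
      _ ≤ 2 ^ (X * f) := Nat.pow_le_pow_right (by norm_num) (Nat.mul_le_mul_left _ hn)
  have h1 : d * (K * f ^ d) ≤ 2 ^ (d + (K + f * d) + X * f) := by
    calc d * (K * f ^ d) ≤ 2 ^ d * 2 ^ (K + f * d) := Nat.mul_le_mul Nat.lt_two_pow_self.le hP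
      _ = 2 ^ (d + (K + f * d)) := (pow_add 2 _ _).symm
      _ ≤ _ := Nat.pow_le_pow_right (by norm_num) (Nat.le_add_right _ _)
  have h2 : (K * f ^ d) * ((d + 1) * (K * f ^ d) * (n + 1) ^ d) ^ (n + 1) ≤
      2 ^ (d + (K + f * d) + X * f) := by
    calc (K * f ^ d) * ((d + 1) * (K * f ^ d) * (n + 1) ^ d) ^ (n + 1)
        ≤ 2 ^ (K + f * d) * 2 ^ (X * f) := Nat.mul_le_mul hP hQn
      _ = 2 ^ (K + f * d + X * f) := (pow_add 2 _ _).symm
      _ ≤ _ := Nat.pow_le_pow_right (by norm_num) (by omega)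
  have h3 : d * (K * f ^ d) + (K * f ^ d) * ((d + 1) * (K * f ^ d) * (n + 1) ^ d) ^ (n + 1) ≤
      2 ^ (d + (K + f * d) + X * f + 1) := by
    refine (Nat.add_le_add h1 h2).trans (le_of_eq ?_)
    rw [pow_succ, mul_two]
  refine lt_of_le_of_lt h3 (Nat.pow_lt_pow_right (by norm_num) ?_)
  have h4 : d + (K + f * d) + X * f + 1 ≤ 5 * (d + K + 1) * f ^ 2 := by
    rw [hX]
    have e1 : 1 ≤ f ^ 2 := Nat.one_le_pow _ _ hf
    have e2 : f ≤ f ^ 2 := by nlinarith
    nlinarith [Nat.mul_le_mul_left d e1, Nat.mul_le_mul_left K e1, Nat.mul_le_mul_left d e2,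
      Nat.mul_le_mul_left K e2]
  have h5 : 5 * (d + K + 1) * f ^ 2 < (f + (5 * (d + K + 1) + 3)) ^ 3 := by
    generalize 5 * (d + K + 1) = c
    nlinarith [Nat.zero_le (f ^ 3), Nat.zero_le (c * f ^ 2), Nat.zero_le (c ^ 2 * f),
      Nat.zero_le (c ^ 3), Nat.zero_le (c ^ 2), Nat.zero_le (c * f)]
  have h6 : (f + (5 * (d + K + 1) + 3)) ^ 3 ≤
      (f + (5 * (d + K + 1) + 3)) ^ (5 * (d + K + 1) + 3) :=
    Nat.pow_le_pow_right (by omega) (by omega)
  omega

-- from job 28901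
theorem chain_lemma_addnat (x : F) (hx : x ∈ RN F 2) (i : ℕ) : x + (i : F) ∈ RN F 2 := by
  obtain ⟨k, hk⟩ := hx
  refine ⟨k, ?_⟩
  rw [mul_add]
  apply hk.add
  have h1 : ((2 : ℕ) : F) ^ k * (i : F) = algebraMap ℤ F ((2 : ℤ) ^ k * i) := by
    push_cast
    simp
  rw [h1]
  exact isIntegral_algebraMap

theorem chain_lemma_normnat (m : ℕ) : Algebra.norm ℚ (m : F) = (m : ℚ) ^ Module.finrank ℚ F := by
  have h1 : (m : F) = algebraMap ℚ F (m : ℚ) := by rw [map_natCast]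
  rw [h1, Algebra.norm_algebraMap]

theorem chain_lemma : ∃ I κ : ℕ, 2 ≤ I ∧ ∀ n : ℕ, ∀ x ∈ RN F 2,
    (∀ i ∈ Finset.Icc 1 I, ∃ z ∈ RN F 2, z * (x + (i : F)) = (((n + I).factorial : ℕ) : F)) →
    (∃ z ∈ RN F 2, z * (1 + ((2 ^ (((n + I).factorial + κ) ^ κ) : ℕ) : F) * x) =
      ((∏ y ∈ Finset.range (n + 1), (1 + 2 ^ (((n + I).factorial + κ) ^ κ) * y) : ℕ) : F)) →
    ∃ y ≤ n, x = ((y : ℕ) : F) := by
  set d := Module.finrank ℚ F with hd
  have hd0 : 0 < d := Module.finrank_pos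
  obtain ⟨I, K, hI, hpb⟩ := poly_bound d
  obtain ⟨κ, hin⟩ := ch_ineq d K
  refine ⟨I, κ, hI, ?_⟩
  intro n x hx h1 h2
  set f := (n + I).factorial with hf
  have hf0 : 0 < f := Nat.factorial_pos _
  have hnf : n + 1 ≤ f := by
    have := Nat.self_le_factorial (n + I)
    omega
  have hineq := hin f n hf0 hnf
  set G := f ^ d with hG
  have hG0 : 0 < G := pow_pos hf0 _
  obtain ⟨R, hRm, hRd, hRi, hRe⟩ := ch_charpoly F x hx
  have hodd : ∀ i ∈ Finset.Icc 1 I, ∃ (a b : ℕ) (m : ℤ), Odd m ∧ m ∣ (G : ℤ) ∧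
      (2 : ℚ) ^ a * R.eval (i : ℚ) = m * 2 ^ b := by
    intro i hi
    obtain ⟨z, hz, hzf⟩ := h1 i hi
    have hM : R.eval (i : ℚ) = Algebra.norm ℚ (x + (i : F)) := by
      rw [hRe, Rat.cast_natCast]
    rw [hM]
    apply ch_oddpart (Algebra.norm ℚ z) _ G hG0 (ch_norm F z hz)
      (ch_norm F _ (chain_lemma_addnat F x hx i))
    rw [← map_mul, hzf, chain_lemma_normnat, hG]
    push_cast
    rfl
  obtain ⟨e, R0, he, hR0, hB⟩ := hpb R G hRm hRd hG0 hRi hodd
  set B := K * G with hBdef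
  have hB' : ∀ j, |R0.coeff j| ≤ (B : ℤ) := by
    intro j
    rw [hBdef]
    push_cast
    have := hB j
    push_cast at this
    exact this
  by_contra hcon
  push Not at hcon
  -- evaluation at minus y
  have hev : ∀ r : ℤ, ((R0.eval r : ℤ) : ℚ) = 2 ^ e * R.eval (r : ℚ) := by
    intro r
    have h3 := congrArg (Polynomial.eval (r : ℚ)) hR0
    rw [Polynomial.eval_mul, Polynomial.eval_C, Polynomial.eval_intCast_map] at h3
    rw [h3]
    rfl
  have hRy : ∀ y : ℕ, R.eval (((-(y : ℤ) : ℤ)) : ℚ) = Algebra.norm ℚ (x - (y : F)) := by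
    intro y
    rw [hRe]
    congr 1
    push_cast
    ring
  have hne0 : ∀ y : ℕ, y ≤ n → R.eval (((-(y : ℤ) : ℤ)) : ℚ) ≠ 0 := by
    intro y hy
    rw [hRy, Algebra.norm_ne_zero_iff]
    exact sub_ne_zero.2 (hcon y hy)
  have hne : R0.coeff 0 ≠ 0 := by
    intro h0
    have h3 := hev 0
    rw [← Polynomial.coeff_zero_eq_eval_zero, h0] at h3
    have h4 := hne0 0 (Nat.zero_le _)
    have h5 : ((-((0 : ℕ) : ℤ) : ℤ) : ℚ) = ((0 : ℤ) : ℚ) := by norm_num
    rw [h5] at h4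
    have h6 : (2 : ℚ) ^ e * R.eval ((0 : ℤ) : ℚ) ≠ 0 := mul_ne_zero (by positivity) h4
    apply h6
    rw [← h3]
    norm_num
  set Gm := (f + κ) ^ κ with hGm
  have hB1 : 1 ≤ B := le_trans (Nat.one_le_pow _ _ (by norm_num)) he
  set X := ((d + 1) * B * (n + 1) ^ d) ^ (n + 1) with hX
  have hX1 : 1 ≤ X := by
    rw [hX]
    apply Nat.one_le_pow
    positivity
  have hBX : B ≤ B * X := Nat.le_mul_of_pos_right _ hX1
  have heG : e < Gm := by
    have h3 : 2 ^ e < 2 ^ Gm := by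
      calc 2 ^ e ≤ B := he
        _ ≤ B * X := hBX
        _ ≤ d * B + B * X := Nat.le_add_left _ _
        _ < _ := hineq
    exact (Nat.pow_lt_pow_iff_right (by norm_num)).1 h3
  have hbig : d * B ≤ 2 ^ Gm := by omega
  have hg0 : ((2 ^ Gm : ℕ) : F) ≠ 0 := by
    have : (2 ^ Gm : ℕ) ≠ 0 := by positivity
    exact_mod_cast this
  have hU : Algebra.norm ℚ (1 + ((2 ^ Gm : ℕ) : F) * x) =
      (2 : ℚ) ^ (Gm * d) * R.eval ((1 : ℚ) / 2 ^ Gm) := by
    rw [hRe]
    have h3 : (1 + ((2 ^ Gm : ℕ) : F) * x) =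
        ((2 ^ Gm : ℕ) : F) * (x + (((1 : ℚ) / 2 ^ Gm : ℚ) : F)) := by
      push_cast at hg0 ⊢
      field_simp
      ring
    rw [h3, map_mul, chain_lemma_normnat, ← hd]
    congr 1
    push_cast
    rw [← pow_mul]
  obtain ⟨u, huodd, hUu, hlow⟩ := ch_u d hd0 R hRm hRd e R0 B hR0 hB' Gm heG hne _ hU
    (by exact_mod_cast hbig)
  obtain ⟨w, hw, hweq⟩ := ch_dvd F x hx n Gm h2
  obtain ⟨a, m, ham⟩ := ch_norm F w hw
  have hprod : Algebra.norm ℚ w * u = ∏ y ∈ Finset.range (n + 1), R.eval (((-(y : ℤ) : ℤ)) : ℚ) := by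
    rw [← hUu, ← map_mul, hweq, map_prod]
    exact Finset.prod_congr rfl fun y _ => (hRy y).symm
  set Z : ℤ := ∏ y ∈ Finset.range (n + 1), R0.eval (-(y : ℤ)) with hZ
  have hZq : (Z : ℚ) = 2 ^ (e * (n + 1)) * (Algebra.norm ℚ w * u) := by
    rw [hprod, hZ]
    push_cast
    have h3 : ∀ y ∈ Finset.range (n + 1), ((R0.eval (-(y : ℤ)) : ℤ) : ℚ) =
        2 ^ e * R.eval (((-(y : ℤ) : ℤ)) : ℚ) := fun y _ => hev _
    rw [Finset.prod_congr rfl h3, Finset.prod_mul_distrib, Finset.prod_const, Finset.card_range,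
      ← pow_mul]
    push_cast
    rfl
  have hZ0 : Z ≠ 0 := by
    intro h0
    rw [h0, hprod] at hZq
    have h3 : (2 : ℚ) ^ (e * (n + 1)) * ∏ y ∈ Finset.range (n + 1),
        R.eval (((-(y : ℤ) : ℤ)) : ℚ) ≠ 0 := by
      apply mul_ne_zero (by positivity)
      apply Finset.prod_ne_zero_iff.2
      intro y hy
      exact hne0 y (by rw [Finset.mem_range] at hy; omega)
    apply h3
    rw [← hZq]
    norm_num
  have hint : (2 : ℤ) ^ a * Z = u * (2 ^ (e * (n + 1)) * m) := by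
    have h3 : ((2 : ℤ) ^ a * Z : ℚ) = u * (2 ^ (e * (n + 1)) * m) := by
      rw [hZq, ← ham]
      push_cast
      ring
    exact_mod_cast h3
  have hcop : IsCoprime u ((2 : ℤ) ^ a) := by
    apply IsCoprime.pow_right
    rw [Int.isCoprime_iff_gcd_eq_one]
    have := Int.isCoprime_iff_gcd_eq_one.1 (Int.isCoprime_two_right.2 huodd)
    exact this
  have hudvd : u ∣ Z := hcop.dvd_of_dvd_mul_left ⟨_, hint⟩
  have huZ : |u| ≤ |Z| := by
    rw [Int.abs_eq_natAbs, Int.abs_eq_natAbs]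
    exact_mod_cast Nat.le_of_dvd (Int.natAbs_pos.2 hZ0) (Int.natAbs_dvd_natAbs.2 hudvd)
  have hdeg : R0.natDegree ≤ d := by
    have h3 : (R0.map (Int.castRingHom ℚ)).natDegree = R0.natDegree :=
      Polynomial.natDegree_map_eq_of_injective (Int.cast_injective) R0
    rw [← h3, ← hR0]
    exact (Polynomial.natDegree_C_mul_le _ _).trans (le_of_eq hRd)
  have hZX : |Z| ≤ (X : ℤ) := by
    rw [hZ, Finset.abs_prod, hX]
    have h3 : ∏ y ∈ Finset.range (n + 1), |R0.eval (-(y : ℤ))| ≤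
        ∏ _y ∈ Finset.range (n + 1), (((d : ℤ) + 1) * B * (n + 1) ^ d) := by
      apply Finset.prod_le_prod
      · intro y _
        exact abs_nonneg _
      · intro y hy
        exact ch_Z d R0 hdeg B hB' n y (by rw [Finset.mem_range] at hy; omega)
    rw [Finset.prod_const, Finset.card_range] at h3
    push_cast
    exact h3
  have hfin : (2 : ℤ) ^ Gm ≤ d * B + B * X := by
    have h3 : (2 : ℤ) ^ e * |u| ≤ B * X := by
      apply mul_le_mul _ (huZ.trans hZX) (abs_nonneg _) (by positivity)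
      exact_mod_cast he
    linarith
  have hfin2 : (2 : ℕ) ^ Gm ≤ d * B + B * X := by exact_mod_cast hfin
  omega

theorem chain_fin_q (f : F) (hf : f ≠ 0) (q : ℕ) (hq : Odd q) (z : F) (hz : z ∈ RN F 2)
    (h : z * (q : F) = f) : q ≤ (Algebra.norm ℚ f).num.natAbs := by
  obtain ⟨s, hs⟩ := hz
  have h1 : IsIntegral ℤ (Algebra.norm ℚ (((2 : ℕ) : F) ^ s * z)) := Algebra.isIntegral_norm ℚ hs
  obtain ⟨m, hm⟩ := IsIntegrallyClosed.isIntegral_iff.1 h1
  obtain ⟨d, hd⟩ : ∃ d, d = Module.finrank ℚ F := ⟨_, rfl⟩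
  have hd0 : 0 < d := by rw [hd]; exact Module.finrank_pos
  have hn : ∀ n : ℕ, Algebra.norm ℚ ((n : F)) = (n : ℚ) ^ d := by
    intro n
    have := Algebra.norm_algebraMap (S := F) (n : ℚ)
    rw [map_natCast] at this
    rw [this, hd]
  have h2 : Algebra.norm ℚ (((2 : ℕ) : F) ^ s * z) * Algebra.norm ℚ (q : F) =
      (Algebra.norm ℚ (((2 : ℕ) : F))) ^ s * Algebra.norm ℚ f := by
    rw [← map_mul, ← map_pow, ← map_mul, ← h]
    congr 1
    ring
  rw [hn, hn, ← hm] at h2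
  have hN : Algebra.norm ℚ f ≠ 0 := Algebra.norm_ne_zero_iff.2 hf
  obtain ⟨u, hu⟩ : ∃ u, u = (Algebra.norm ℚ f).num := ⟨_, rfl⟩
  have hu0 : u ≠ 0 := by rw [hu]; exact Rat.num_ne_zero.2 hN
  obtain ⟨v, hv⟩ : ∃ v, v = (Algebra.norm ℚ f).den := ⟨_, rfl⟩
  have hv0 : (v : ℚ) ≠ 0 := by
    rw [hv]
    exact_mod_cast (Algebra.norm ℚ f).den_nz
  have huv : Algebra.norm ℚ f * v = u := by
    rw [hu, hv]
    exact Rat.mul_den_eq_num _
  have h3 : ((m : ℚ) * (q : ℚ) ^ d) * v = (((2 : ℕ) : ℚ) ^ d) ^ s * u := by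
    have h4 : (algebraMap ℤ ℚ m : ℚ) = (m : ℚ) := rfl
    rw [h4] at h2
    rw [h2, ← huv]
    ring
  have h5 : (m * (q : ℤ) ^ d) * v = (((2 : ℕ) : ℤ) ^ d) ^ s * u := by exact_mod_cast h3
  have h6 := congrArg Int.natAbs h5
  rw [Int.natAbs_mul, Int.natAbs_mul, Int.natAbs_mul, Int.natAbs_pow, Int.natAbs_pow,
    Int.natAbs_pow, Int.natAbs_natCast, Int.natAbs_natCast, Int.natAbs_natCast] at h6
  have h7 : q ^ d ∣ (2 ^ d) ^ s * u.natAbs := ⟨m.natAbs * v, by rw [← h6]; ring⟩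
  have hc : Nat.Coprime (q ^ d) ((2 ^ d) ^ s) := by
    apply Nat.Coprime.pow
    apply Nat.Coprime.pow_right
    exact hq.coprime_two_right
  have h8 : q ^ d ∣ u.natAbs := hc.dvd_of_dvd_mul_left h7
  have h9 : q ^ d ≤ u.natAbs := Nat.le_of_dvd (Int.natAbs_pos.2 hu0) h8
  rw [← hu]
  exact (Nat.le_self_pow hd0.ne' q).trans h9

theorem chain_fin (f : F) (hf : f ≠ 0) :
    {k : ℕ | (∃ z ∈ RN F 2, z * ((k : F) + 1) = f) ∧ (∃ z ∈ RN F 2, z * ((k : F) + 2) = f)}.Finite := by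
  apply (Set.finite_Iic ((Algebra.norm ℚ f).num.natAbs)).subset
  rintro k ⟨⟨z, hz, hzf⟩, ⟨z', hz', hzf'⟩⟩
  rw [Set.mem_Iic]
  rcases Nat.even_or_odd k with hk | hk
  · have := chain_fin_q F f hf (k + 1) hk.add_one z hz (by push_cast; exact hzf)
    omega
  · have := chain_fin_q F f hf (k + 2) (by
      have := hk.add_even (even_two (α := ℕ))
      exact this) z' hz' (by push_cast; exact hzf')
    omega

end chain

/-- `z` is pointwise in `A`, almost everywhere -/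
def InP {C : Set ℕ} {F : Type} [Field F] [Primcodable F] [CF F] (A : Set F) (x : KS C F) : Prop :=
  ∃ (f : ℕ → F) (hf : IsPC C f), x = of f hf ∧ ∀ᶠ n in fl C, f n ∈ A

def SSr {R : Type} [CommRing R] (a b : R) : Set R :=
  {x | ∃ s r w : R, x ^ 2 - 4 = a * s ^ 2 + b * r ^ 2 - a * b * w ^ 2}

def FamR {R : Type} [CommRing R] (c0 c : R) : Set R :=
  {b | b ≠ 0 ∧ ∃ y0 y1 y2 : R, b = (y0 ^ 2 + c0 * (y1 ^ 2 + y1 * y2 + c * y2 ^ 2)) ^ 2 + 8 * y0 ^ 4}

def Sp {R : Type} [CommRing R] (Q : R → Prop) (I : ℕ) (f g h x : R) : Prop :=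
  Q x ∧ (∀ i ∈ Finset.Icc 1 I, ∃ z, Q z ∧ z * (x + (i : R)) = f) ∧ ∃ z, Q z ∧ z * (1 + g * x) = h

/-- natural numbers of the cohesive power -/
def InN {C : Set ℕ} {F : Type} [Field F] [Primcodable F] [CF F] (x : KS C F) : Prop :=
  InP (Set.range (fun k : ℕ => (k : F))) x

/-- the element of the cohesive power given by a sequence of natural numbers -/
def ofN {C : Set ℕ} {F : Type} [Field F] [Primcodable F] [CF F] (k : ℕ → ℕ) (hk : IsPC C k) :
    KS C F :=
  of (fun n => (k n : F)) (IsPC.comp computable_natCast hk)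

def Ndef {C : Set ℕ} {F : Type} [Field F] [Primcodable F] [CF F] (I : ℕ) (t : KS C F) : Prop :=
  ∃ f g h : KS C F, f ≠ 0 ∧ Sp (InP (RN F 2)) I f g h 0 ∧
    ∀ x, Sp (InP (RN F 2)) I f g h x → x = t ∨ Sp (InP (RN F 2)) I f g h (x + 1)

section K
variable {C : Set ℕ} {F : Type} [Field F] [NumberField F] [Primcodable F] [CF F]

theorem inP_of {A : Set F} {f : ℕ → F} (hf : IsPC C f) :
    InP A (of f hf) ↔ ∀ᶠ n in fl C, f n ∈ A := by
  constructor
  · rintro ⟨g, hg, he, hA⟩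
    have h2 : f =ᶠ[fl C] g := (of_eq (hf := hf) (hg := hg)).1 he
    filter_upwards [h2, hA] with n h3 h4
    rw [h3]
    exact h4
  · intro h
    exact ⟨f, hf, rfl, h⟩

theorem ne_zero_iff (hC : Cohesive C) {f : ℕ → F} (hf : IsPC C f) :
    of f hf ≠ 0 ↔ ∀ᶠ n in fl C, f n ≠ 0 := by
  have h0 : of f hf = 0 ↔ ∀ᶠ n in fl C, f n = 0 := by
    have e : (0 : KS C F) = of (fun _ => 0) (IsPC.const 0) := rfl
    rw [e, of_eq]
  have hp : REPred fun x : F => x = 0 :=
    (cp_eq (A := F) (B := F) (f := fun x => x) (g := fun _ => 0) Computable.id (Computable.const 0)).to_re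
  rw [ne_eq, h0]
  constructor
  · intro h
    rcases dich hC hf hp with h1 | h1
    · exact absurd h1 h
    · exact h1
  · intro h h1
    haveI := fl_neBot hC
    obtain ⟨n, hn1, hn2⟩ := (h.and h1).exists
    exact hn1 hn2

theorem ks_inv (hC : Cohesive C) (x : KS C F) (hx : x ≠ 0) : ∃ y : KS C F, x * y = 1 := by
  obtain ⟨f, hf, rfl⟩ := exists_rep x
  have h1 := (ne_zero_iff hC hf).1 hx
  refine ⟨of (fun n => (f n)⁻¹) (IsPC.comp computable_inv hf), ?_⟩
  rw [of_mul, ← cst_one]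
  refine of_eq.2 ?_
  filter_upwards [h1] with n hn
  exact mul_inv_cancel₀ hn


theorem aux_pol {C : Set ℕ} {F : Type} [Field F] [NumberField F] [Primcodable F] [CF F] :
    ComputablePred fun p : (F × F) × (F × F × F × F) =>
      p.2.1 ^ 2 - 4 = p.1.1 * p.2.2.1 ^ 2 + p.1.2 * p.2.2.2.1 ^ 2 - p.1.1 * p.1.2 * p.2.2.2.2 ^ 2 := by
  have ca : Computable fun p : (F × F) × (F × F × F × F) => p.1.1 :=
    Computable.fst.comp Computable.fst
  have cb : Computable fun p : (F × F) × (F × F × F × F) => p.1.2 :=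
    Computable.snd.comp Computable.fst
  have cx : Computable fun p : (F × F) × (F × F × F × F) => p.2.1 :=
    Computable.fst.comp Computable.snd
  have cs : Computable fun p : (F × F) × (F × F × F × F) => p.2.2.1 :=
    Computable.fst.comp (Computable.snd.comp Computable.snd)
  have cr : Computable fun p : (F × F) × (F × F × F × F) => p.2.2.2.1 :=
    Computable.fst.comp (Computable.snd.comp (Computable.snd.comp Computable.snd))
  have cw : Computable fun p : (F × F) × (F × F × F × F) => p.2.2.2.2 :=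
    Computable.snd.comp (Computable.snd.comp (Computable.snd.comp Computable.snd))
  have hx2 : Computable fun p : (F × F) × (F × F × F × F) => p.2.1 ^ 2 := (computable_pow 2).comp cx
  have hs2 : Computable fun p : (F × F) × (F × F × F × F) => p.2.2.1 ^ 2 := (computable_pow 2).comp cs
  have hr2 : Computable fun p : (F × F) × (F × F × F × F) => p.2.2.2.1 ^ 2 :=
    (computable_pow 2).comp cr
  have hw2 : Computable fun p : (F × F) × (F × F × F × F) => p.2.2.2.2 ^ 2 :=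
    (computable_pow 2).comp cw
  have c4 : Computable fun _ : (F × F) × (F × F × F × F) => (4 : F) := Computable.const 4
  have hl : Computable fun p : (F × F) × (F × F × F × F) => p.2.1 ^ 2 - 4 :=
    Computable₂.comp computable_sub hx2 c4
  have has : Computable fun p : (F × F) × (F × F × F × F) => p.1.1 * p.2.2.1 ^ 2 :=
    Computable₂.comp CF.mul ca hs2
  have hbr : Computable fun p : (F × F) × (F × F × F × F) => p.1.2 * p.2.2.2.1 ^ 2 :=
    Computable₂.comp CF.mul cb hr2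
  have hab : Computable fun p : (F × F) × (F × F × F × F) => p.1.1 * p.1.2 :=
    Computable₂.comp CF.mul ca cb
  have habw : Computable fun p : (F × F) × (F × F × F × F) => p.1.1 * p.1.2 * p.2.2.2.2 ^ 2 :=
    Computable₂.comp CF.mul hab hw2
  have hadd : Computable fun p : (F × F) × (F × F × F × F) =>
      p.1.1 * p.2.2.1 ^ 2 + p.1.2 * p.2.2.2.1 ^ 2 :=
    Computable₂.comp CF.add has hbr
  have hr : Computable fun p : (F × F) × (F × F × F × F) =>
      p.1.1 * p.2.2.1 ^ 2 + p.1.2 * p.2.2.2.1 ^ 2 - p.1.1 * p.1.2 * p.2.2.2.2 ^ 2 :=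
    Computable₂.comp computable_sub hadd habw
  exact cp_eq hl hr

theorem aux_four {C : Set ℕ} {F : Type} [Field F] [NumberField F] [Primcodable F] [CF F] :
    (4 : KS C F) = cst C (4 : F) := by
  first
    | rfl
    | exact Subtype.ext rfl

theorem aux_ks {C : Set ℕ} {F : Type} [Field F] [NumberField F] [Primcodable F] [CF F]
    {X A B S R W : ℕ → F} (hX : IsPC C X) (hA : IsPC C A) (hB : IsPC C B) (hS : IsPC C S)
    (hR : IsPC C R) (hW : IsPC C W)
    (h : ∀ᶠ n in fl C, X n ^ 2 - 4 = A n * S n ^ 2 + B n * R n ^ 2 - A n * B n * W n ^ 2) :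
    of X hX ^ 2 - 4 = of A hA * of S hS ^ 2 + of B hB * of R hR ^ 2 -
      of A hA * of B hB * of W hW ^ 2 := by
  rw [aux_four]
  exact Subtype.ext (Germ.coe_eq.2 h)

theorem aux_ks' {C : Set ℕ} {F : Type} [Field F] [NumberField F] [Primcodable F] [CF F]
    {B Y0 Y1 Y2 : ℕ → F} {c0 c : F} (hB : IsPC C B) (hY0 : IsPC C Y0)
    (hY1 : IsPC C Y1) (hY2 : IsPC C Y2)
    (h : of B hB = (of Y0 hY0 ^ 2 + cst C c0 * (of Y1 hY1 ^ 2 + of Y1 hY1 * of Y2 hY2 +
      cst C c * of Y2 hY2 ^ 2)) ^ 2 + 8 * of Y0 hY0 ^ 4) :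
    ∀ᶠ n in fl C, B n = (Y0 n ^ 2 + c0 * (Y1 n ^ 2 + Y1 n * Y2 n + c * Y2 n ^ 2)) ^ 2 +
      8 * Y0 n ^ 4 := by
  have h8 : (8 : KS C F) = cst C (8 : F) := by
    first
      | rfl
      | exact Subtype.ext rfl
  rw [h8] at h
  have := congrArg Subtype.val h
  exact Germ.coe_eq.1 this

theorem X_mp (hC : Cohesive C) {c0 c : F} {L : List (F × F)}
    (hA : ∀ t ∈ RN F 2, ∀ a b : F, a ≠ 0 → (b ∈ Fam c0 c ∨ ∃ p ∈ L, b = p.2) →
      ∃ x ∈ SS a b, t - x ∈ SS a b)
    (t : KS C F) (ht : InP (RN F 2) t) (a b : KS C F) (ha : a ≠ 0)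
    (hb : b ∈ FamR (cst C c0) (cst C c) ∨ ∃ p ∈ L, b = cst C p.2) :
    ∃ x ∈ SSr a b, t - x ∈ SSr a b := by
  obtain ⟨ft, hft, rfl, hta⟩ := ht
  obtain ⟨fa, hfa, rfl⟩ := exists_rep a
  obtain ⟨fb, hfb, rfl⟩ := exists_rep b
  have ha' := (ne_zero_iff hC hfa).1 ha
  have hb' : ∀ᶠ n in fl C, (fb n ∈ Fam c0 c ∨ ∃ p ∈ L, fb n = p.2) := by
    rcases hb with hb | ⟨p, hp, hb⟩
    · obtain ⟨hb0, y0, y1, y2, hy⟩ := hb
      obtain ⟨f0, hf0, rfl⟩ := exists_rep y0
      obtain ⟨f1, hf1, rfl⟩ := exists_rep y1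
      obtain ⟨f2, hf2, rfl⟩ := exists_rep y2
      have e1 := (ne_zero_iff hC hfb).1 hb0
      have e2 := aux_ks' hfb hf0 hf1 hf2 hy
      filter_upwards [e1, e2] with n h1 h2
      exact Or.inl ⟨h1, f0 n, f1 n, f2 n, h2⟩
    · have e1 : ∀ᶠ n in fl C, fb n = p.2 := (of_eq (hg := IsPC.const p.2)).1 hb
      filter_upwards [e1] with n h1
      exact Or.inr ⟨p, hp, h1⟩
  obtain ⟨R, hR⟩ : ∃ R : (F × F × F) → (F × (F × F × F) × (F × F × F)) → Prop, ∀ u v, R u v ↔
      (v.1 ^ 2 - 4 = u.2.1 * v.2.1.1 ^ 2 + u.2.2 * v.2.1.2.1 ^ 2 - u.2.1 * u.2.2 * v.2.1.2.2 ^ 2 ∧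
      (u.1 - v.1) ^ 2 - 4 = u.2.1 * v.2.2.1 ^ 2 + u.2.2 * v.2.2.2.1 ^ 2 -
        u.2.1 * u.2.2 * v.2.2.2.2 ^ 2) := ⟨_, fun _ _ => Iff.rfl⟩
  have hRre : REPred fun p : (F × F × F) × (F × (F × F × F) × (F × F × F)) => R p.1 p.2 := by
    apply ComputablePred.to_re
    have cu : Computable fun p : (F × F × F) × (F × (F × F × F) × (F × F × F)) =>
      p.1.2 := Computable.snd.comp Computable.fst
    have ct : Computable fun p : (F × F × F) × (F × (F × F × F) × (F × F × F)) =>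
      p.1.1 := Computable.fst.comp Computable.fst
    have cx : Computable fun p : (F × F × F) × (F × (F × F × F) × (F × F × F)) =>
      p.2.1 := Computable.fst.comp Computable.snd
    have cv1 : Computable fun p : (F × F × F) × (F × (F × F × F) × (F × F × F)) =>
      p.2.2.1 := Computable.fst.comp (Computable.snd.comp Computable.snd)
    have cv2 : Computable fun p : (F × F × F) × (F × (F × F × F) × (F × F × F)) =>
      p.2.2.2 := Computable.snd.comp (Computable.snd.comp Computable.snd)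
    have ctx : Computable fun p : (F × F × F) × (F × (F × F × F) × (F × F × F)) =>
      p.1.1 - p.2.1 := Computable₂.comp computable_sub ct cx
    have g1 : Computable fun p : (F × F × F) × (F × (F × F × F) × (F × F × F)) =>
      (p.1.2, (p.2.1, p.2.2.1)) := cu.pair (cx.pair cv1)
    have g2 : Computable fun p : (F × F × F) × (F × (F × F × F) × (F × F × F)) =>
      (p.1.2, (p.1.1 - p.2.1, p.2.2.2)) := cu.pair (ctx.pair cv2)
    have k1 := cp_comp (aux_pol (C := C) (F := F)) g1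
    have k2 := cp_comp (aux_pol (C := C) (F := F)) g2
    have k3 := cp_and k1 k2
    refine k3.of_eq ?_
    intro p
    exact (hR p.1 p.2).symm
  have hex : ∀ᶠ n in fl C, ∃ v, R (ft n, fa n, fb n) v := by
    filter_upwards [hta, ha', hb'] with n h1 h2 h3
    obtain ⟨x, ⟨s, r, w, e1⟩, s', r', w', e2⟩ := hA (ft n) h1 (fa n) (fb n) h2 h3
    refine ⟨(x, (s, r, w), (s', r', w')), ?_⟩
    rw [hR]
    exact ⟨e1, e2⟩
  haveI : Inhabited (F × (F × F × F) × (F × F × F)) := ⟨(0, (0, 0, 0), (0, 0, 0))⟩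
  have hpc : IsPC C (fun n => (ft n, fa n, fb n)) := hft.pair (hfa.pair hfb)
  obtain ⟨g, hg, hgR⟩ := IsPC.search hpc hRre hex
  have kx : IsPC C (fun n => (g n).1) :=
    IsPC.comp (g := fun v : F × (F × F × F) × (F × F × F) => v.1) Computable.fst hg
  have ks : IsPC C (fun n => (g n).2.1.1) :=
    IsPC.comp (g := fun v : F × (F × F × F) × (F × F × F) => v.2.1.1) (Computable.fst.comp (Computable.fst.comp Computable.snd)) hg
  have kr : IsPC C (fun n => (g n).2.1.2.1) :=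
    IsPC.comp (g := fun v : F × (F × F × F) × (F × F × F) => v.2.1.2.1) (Computable.fst.comp (Computable.snd.comp (Computable.fst.comp Computable.snd))) hg
  have kw : IsPC C (fun n => (g n).2.1.2.2) :=
    IsPC.comp (g := fun v : F × (F × F × F) × (F × F × F) => v.2.1.2.2) (Computable.snd.comp (Computable.snd.comp (Computable.fst.comp Computable.snd))) hg
  have ks' : IsPC C (fun n => (g n).2.2.1) :=
    IsPC.comp (g := fun v : F × (F × F × F) × (F × F × F) => v.2.2.1) (Computable.fst.comp (Computable.snd.comp Computable.snd)) hg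
  have kr' : IsPC C (fun n => (g n).2.2.2.1) :=
    IsPC.comp (g := fun v : F × (F × F × F) × (F × F × F) => v.2.2.2.1) (Computable.fst.comp (Computable.snd.comp (Computable.snd.comp Computable.snd))) hg
  have kw' : IsPC C (fun n => (g n).2.2.2.2) :=
    IsPC.comp (g := fun v : F × (F × F × F) × (F × F × F) => v.2.2.2.2) (Computable.snd.comp (Computable.snd.comp (Computable.snd.comp Computable.snd))) hg
  have ktx : IsPC C (fun n => ft n - (g n).1) := IsPC.comp₂ computable_sub hft kx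
  refine ⟨of _ kx, ⟨of _ ks, of _ kr, of _ kw, ?_⟩, ⟨of _ ks', of _ kr', of _ kw', ?_⟩⟩
  · apply aux_ks
    filter_upwards [hgR] with n hn
    rw [hR] at hn
    exact hn.1
  · rw [of_sub hft kx ktx]
    apply aux_ks
    filter_upwards [hgR] with n hn
    rw [hR] at hn
    exact hn.2

theorem X_mpr_cst4 : (4 : KS C F) = cst C 4 := by
  have h : (4 : F) = 1 + 1 + 1 + 1 := by norm_num
  rw [h, cst_add, cst_add, cst_add, cst_one]
  norm_num

theorem X_mpr_cst8 : (8 : KS C F) = cst C 8 := by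
  have h : (8 : F) = 1 + 1 + 1 + 1 + 1 + 1 + 1 + 1 := by norm_num
  rw [h, cst_add, cst_add, cst_add, cst_add, cst_add, cst_add, cst_add, cst_one]
  norm_num

theorem X_mpr_SSr {a b x : ℕ → F} (ha : IsPC C a) (hb : IsPC C b) (hx : IsPC C x)
    (h : of x hx ∈ SSr (of a ha) (of b hb)) : ∀ᶠ n in fl C, x n ∈ SS (a n) (b n) := by
  obtain ⟨s, r, w, hs⟩ := h
  obtain ⟨fs, hfs, rfl⟩ := exists_rep s
  obtain ⟨fr, hfr, rfl⟩ := exists_rep r
  obtain ⟨fw, hfw, rfl⟩ := exists_rep w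
  rw [X_mpr_cst4] at hs
  have h2 : ((fun n => x n ^ 2 - 4 : ℕ → F) : Germ (fl C) F)
      = ((fun n => a n * fs n ^ 2 + b n * fr n ^ 2 - a n * b n * fw n ^ 2 : ℕ → F) :
        Germ (fl C) F) := congrArg Subtype.val hs
  have h3 := Germ.coe_eq.1 h2
  filter_upwards [h3] with n hn
  exact ⟨fs n, fr n, fw n, hn⟩

theorem X_mpr_pair {a b f : ℕ → F} (ha : IsPC C a) (hb : IsPC C b) (hf : IsPC C f)
    (h : ∃ x ∈ SSr (of a ha) (of b hb), of f hf - x ∈ SSr (of a ha) (of b hb)) :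
    ∀ᶠ n in fl C, ∃ x ∈ SS (a n) (b n), f n - x ∈ SS (a n) (b n) := by
  obtain ⟨x, hx1, hx2⟩ := h
  obtain ⟨fx, hfx, rfl⟩ := exists_rep x
  have hsub : IsPC C (fun n => f n - fx n) := IsPC.comp₂ computable_sub hf hfx
  rw [of_sub hf hfx hsub] at hx2
  filter_upwards [X_mpr_SSr ha hb hfx hx1, X_mpr_SSr ha hb hsub hx2] with n h1 h2
  exact ⟨fx n, h1, h2⟩

theorem X_mpr_rel (e : ℕ ≃ F) (he : Computable e) {N0 : ℕ} (hN0 : N0 ≠ 0) (c0 c : F)
    (G : List F) :
    REPred fun p : F × ((F × F) × (ℕ × F × F × F) × (F × F × F)) =>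
      (p.2.1.1 ≠ 0 ∧ p.2.1.2 ≠ 0) ∧
      p.2.1.2 = (p.2.2.2.1 ^ 2 + c0 * (p.2.2.2.2.1 ^ 2 + p.2.2.2.2.1 * p.2.2.2.2.2 +
        c * p.2.2.2.2.2 ^ 2)) ^ 2 + 8 * p.2.2.2.1 ^ 4 ∧
      Cert e N0 G p.1 p.2.1.1 p.2.1.2 p.2.2.1.1 p.2.2.1.2.1 p.2.2.1.2.2.1 p.2.2.1.2.2.2 := by
  have hq : Computable fun p : F × ((F × F) × (ℕ × F × F × F) × (F × F × F)) => p.2 :=
    Computable.snd
  have hab := Computable.fst.comp hq
  have ha := Computable.fst.comp hab
  have hb := Computable.snd.comp hab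
  have hr := Computable.snd.comp hq
  have hN := Computable.fst.comp hr
  have hy := Computable.snd.comp hr
  have hy0 := Computable.fst.comp hy
  have hy12 := Computable.snd.comp hy
  have hy1 := Computable.fst.comp hy12
  have hy2 := Computable.snd.comp hy12
  have sq1 := (computable_pow (F := F) 2).comp hy1
  have sq2 := (computable_pow (F := F) 2).comp hy2
  have sq0 := (computable_pow (F := F) 2).comp hy0
  have q0 := (computable_pow (F := F) 4).comp hy0
  have m12 := CF.mul.comp hy1 hy2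
  have m2 := CF.mul.comp (Computable.const c) sq2
  have s1 := CF.add.comp (CF.add.comp sq1 m12) m2
  have s2 := CF.add.comp sq0 (CF.mul.comp (Computable.const c0) s1)
  have s3 := (computable_pow (F := F) 2).comp s2
  have s4 := CF.add.comp s3 (CF.mul.comp (Computable.const (8 : F)) q0)
  have c1 : ComputablePred fun p : F × ((F × F) × (ℕ × F × F × F) × (F × F × F)) =>
      p.2.1.1 ≠ 0 := (cp_eq ha (Computable.const (0 : F))).not
  have c2 : ComputablePred fun p : F × ((F × F) × (ℕ × F × F × F) × (F × F × F)) =>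
      p.2.1.2 ≠ 0 := (cp_eq hb (Computable.const (0 : F))).not
  have c3 := cp_eq hb s4
  have hmap : Computable fun p : F × ((F × F) × (ℕ × F × F × F) × (F × F × F)) =>
      (((p.1, p.2.1.1, p.2.1.2), p.2.2.1) : (F × F × F) × (ℕ × F × F × F)) :=
    (Computable.fst.pair (ha.pair hb)).pair hN
  have c4 := cp_comp (cert_computable hN0 e he G) hmap
  exact (cp_and (cp_and c1 c2) (cp_and c3 c4)).to_re

theorem X_mpr (hC : Cohesive C) (e : ℕ ≃ F) (he : Computable e) {N0 : ℕ} (hN0 : N0 ≠ 0)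
    {c0 c : F} {G : List F} {L : List (F × F)} (hL : ∀ p ∈ L, p.1 ≠ 0)
    (hB1 : ∀ t ∈ RN F N0, (∀ p ∈ L, ∃ x ∈ SS p.1 p.2, t - x ∈ SS p.1 p.2) → t ∈ RN F 2)
    (hB2 : ∀ t : F, t ∉ RN F N0 →
      ∃ (a b : F) (N : ℕ) (x y z : F), a ≠ 0 ∧ b ∈ Fam c0 c ∧ Cert e N0 G t a b N x y z)
    (hB3 : ∀ (t a b : F) (N : ℕ) (x y z : F), Cert e N0 G t a b N x y z →
      ¬ ∃ x ∈ SS a b, t - x ∈ SS a b)
    (t : KS C F)
    (h : ∀ a b : KS C F, a ≠ 0 → (b ∈ FamR (cst C c0) (cst C c) ∨ ∃ p ∈ L, b = cst C p.2) →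
      ∃ x ∈ SSr a b, t - x ∈ SSr a b) : InP (RN F 2) t := by
  have := fl_neBot hC
  obtain ⟨ft, hft, rfl⟩ := exists_rep t
  have hpts : ∀ p ∈ L, ∀ᶠ n in fl C, ∃ x ∈ SS p.1 p.2, ft n - x ∈ SS p.1 p.2 := by
    intro p hp
    have h0 : cst C p.1 ≠ 0 :=
      (ne_zero_iff hC (IsPC.const p.1)).2 (Filter.Eventually.of_forall fun _ => hL p hp)
    exact X_mpr_pair (IsPC.const p.1) (IsPC.const p.2) hft
      (h (cst C p.1) (cst C p.2) h0 (Or.inr ⟨p, hp, rfl⟩))
  have hall : ∀ᶠ n in fl C, ∀ p ∈ L, ∃ x ∈ SS p.1 p.2, ft n - x ∈ SS p.1 p.2 :=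
    (Filter.eventually_all_finite L.finite_toSet).2 hpts
  rw [inP_of]
  rcases dich hC hft (RN_computable (F := F) hN0).to_re with h1 | h1
  · filter_upwards [h1, hall] with n a b
    exact hB1 _ a b
  · exfalso
    have hex : ∀ᶠ n in fl C, ∃ q : (F × F) × (ℕ × F × F × F) × (F × F × F),
        (q.1.1 ≠ 0 ∧ q.1.2 ≠ 0) ∧
        q.1.2 = (q.2.2.1 ^ 2 + c0 * (q.2.2.2.1 ^ 2 + q.2.2.2.1 * q.2.2.2.2 +
          c * q.2.2.2.2 ^ 2)) ^ 2 + 8 * q.2.2.1 ^ 4 ∧
        Cert e N0 G (ft n) q.1.1 q.1.2 q.2.1.1 q.2.1.2.1 q.2.1.2.2.1 q.2.1.2.2.2 := by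
      filter_upwards [h1] with n hn
      obtain ⟨a, b, N, x, y, z, ha, ⟨hb0, y0, y1, y2, hb⟩, hc⟩ := hB2 (ft n) hn
      exact ⟨((a, b), (N, x, y, z), (y0, y1, y2)), ⟨ha, hb0⟩, hb, hc⟩
    have : Inhabited ((F × F) × (ℕ × F × F × F) × (F × F × F)) :=
      ⟨((0, 0), (0, 0, 0, 0), (0, 0, 0))⟩
    obtain ⟨g, hg, hg2⟩ := IsPC.search hft
      (R := fun (t : F) (q : (F × F) × (ℕ × F × F × F) × (F × F × F)) =>
        (q.1.1 ≠ 0 ∧ q.1.2 ≠ 0) ∧
        q.1.2 = (q.2.2.1 ^ 2 + c0 * (q.2.2.2.1 ^ 2 + q.2.2.2.1 * q.2.2.2.2 +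
          c * q.2.2.2.2 ^ 2)) ^ 2 + 8 * q.2.2.1 ^ 4 ∧
        Cert e N0 G t q.1.1 q.1.2 q.2.1.1 q.2.1.2.1 q.2.1.2.2.1 q.2.1.2.2.2)
      (X_mpr_rel e he hN0 c0 c G) hex
    have ga : IsPC C (fun n => (g n).1.1) :=
      IsPC.comp (g := fun q : (F × F) × (ℕ × F × F × F) × (F × F × F) => q.1.1)
        (Computable.fst.comp Computable.fst) hg
    have gb : IsPC C (fun n => (g n).1.2) :=
      IsPC.comp (g := fun q : (F × F) × (ℕ × F × F × F) × (F × F × F) => q.1.2)
        (Computable.snd.comp Computable.fst) hg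
    have g0 : IsPC C (fun n => (g n).2.2.1) :=
      IsPC.comp (g := fun q : (F × F) × (ℕ × F × F × F) × (F × F × F) => q.2.2.1)
        (Computable.fst.comp (Computable.snd.comp Computable.snd)) hg
    have g1 : IsPC C (fun n => (g n).2.2.2.1) :=
      IsPC.comp (g := fun q : (F × F) × (ℕ × F × F × F) × (F × F × F) => q.2.2.2.1)
        (Computable.fst.comp (Computable.snd.comp (Computable.snd.comp Computable.snd))) hg
    have g2 : IsPC C (fun n => (g n).2.2.2.2) :=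
      IsPC.comp (g := fun q : (F × F) × (ℕ × F × F × F) × (F × F × F) => q.2.2.2.2)
        (Computable.snd.comp (Computable.snd.comp (Computable.snd.comp Computable.snd))) hg
    have hA0 : of (fun n => (g n).1.1) ga ≠ 0 := by
      rw [ne_zero_iff hC]
      filter_upwards [hg2] with n hn
      exact hn.1.1
    have hB0 : of (fun n => (g n).1.2) gb ≠ 0 := by
      rw [ne_zero_iff hC]
      filter_upwards [hg2] with n hn
      exact hn.1.2
    have hfam : of (fun n => (g n).1.2) gb ∈ FamR (cst C c0) (cst C c) := by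
      refine ⟨hB0, of _ g0, of _ g1, of _ g2, ?_⟩
      rw [X_mpr_cst8, Subtype.ext_iff]
      have h2 : ((fun n => (g n).1.2 : ℕ → F) : Germ (fl C) F)
          = ((fun n => ((g n).2.2.1 ^ 2 + c0 * ((g n).2.2.2.1 ^ 2 + (g n).2.2.2.1 * (g n).2.2.2.2 +
          c * (g n).2.2.2.2 ^ 2)) ^ 2 + 8 * (g n).2.2.1 ^ 4 : ℕ → F) : Germ (fl C) F) := by
        rw [Germ.coe_eq]
        filter_upwards [hg2] with n hn
        exact hn.2.1
      exact h2
    have hfin := X_mpr_pair ga gb hft (h _ _ hA0 (Or.inl hfam))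
    obtain ⟨n, hn1, hn2⟩ := (hfin.and hg2).exists
    exact hB3 _ _ _ _ _ _ _ hn2.2.2 hn1

theorem Sp_iff_natCast (i : ℕ) : ((i : ℕ) : KS C F) = cst C ((i : ℕ) : F) := by
  induction i with
  | zero => rw [Nat.cast_zero, Nat.cast_zero, cst_zero]
  | succ i ih => rw [Nat.cast_succ, Nat.cast_succ, cst_add, cst_one, ih]

theorem Sp_iff_aux {y w : ℕ → F} (hy : IsPC C y) (hw : IsPC C w) :
    (∃ z : KS C F, InP (RN F 2) z ∧ z * of y hy = of w hw) ↔
      ∀ᶠ n in fl C, ∃ z, z ∈ RN F 2 ∧ z * y n = w n := by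
  constructor
  · rintro ⟨z, ⟨zf, hzf, rfl, hz⟩, heq⟩
    rw [of_mul, of_eq] at heq
    filter_upwards [hz, heq] with n h1 h2
    exact ⟨zf n, h1, h2⟩
  · intro hex
    haveI : Inhabited F := ⟨0⟩
    have hR : REPred fun p : (F × F) × F => p.2 ∈ RN F 2 ∧ p.2 * p.1.1 = p.1.2 := by
      refine re_and (re_comp (RN_computable (F := F) (two_ne_zero)).to_re Computable.snd) ?_
      exact (cp_eq (CF.mul.comp Computable.snd (Computable.fst.comp Computable.fst))
        (Computable.snd.comp Computable.fst)).to_re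
    obtain ⟨zf, hzf, hz⟩ := IsPC.search (C := C) (f := fun n => (y n, w n)) (hy.pair hw)
      (R := fun (p : F × F) (z : F) => z ∈ RN F 2 ∧ z * p.1 = p.2) hR hex
    refine ⟨of zf hzf, ⟨zf, hzf, rfl, ?_⟩, ?_⟩
    · filter_upwards [hz] with n h1
      exact h1.1
    · rw [of_mul, of_eq]
      filter_upwards [hz] with n h1
      exact h1.2

theorem Sp_iff (hC : Cohesive C) (I : ℕ) {f g h x : ℕ → F} (hf : IsPC C f) (hg : IsPC C g)
    (hh : IsPC C h) (hx : IsPC C x) :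
    Sp (InP (RN F 2)) I (of f hf) (of g hg) (of h hh) (of x hx) ↔
      ∀ᶠ n in fl C, Sp (fun y => y ∈ RN F 2) I (f n) (g n) (h n) (x n) := by
  unfold Sp
  rw [inP_of, Filter.eventually_and, Filter.eventually_and, Filter.eventually_all_finset]
  refine and_congr Iff.rfl (and_congr ?_ ?_)
  · refine forall₂_congr fun i _ => ?_
    have h1 : of x hx + ((i : ℕ) : KS C F) =
        of (fun n => x n + (i : F)) (hx.add (IsPC.const _)) := by
      rw [Sp_iff_natCast]; rfl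
    rw [h1]
    exact Sp_iff_aux _ _
  · have h1 : 1 + of g hg * of x hx =
        of (fun n => 1 + g n * x n) ((IsPC.const (1 : F)).add (hg.mul hx)) := rfl
    rw [h1]
    exact Sp_iff_aux _ _

omit [NumberField F] in
theorem aux_zero_mem : (0 : F) ∈ RN F 2 := ⟨0, by simpa using isIntegral_zero⟩

theorem aux_ex {A : Type} [Primcodable A] {u v : A → F} (hu : Computable u) (hv : Computable v) :
    ComputablePred fun p => ∃ z, z ∈ RN F 2 ∧ z * u p = v p := by
  have h1 : ComputablePred fun p => (u p = 0 → v p = 0) ∧ (¬ u p = 0 → v p / u p ∈ RN F 2) := by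
    refine cp_and (cp_imp (cp_eq hu (Computable.const 0)) (cp_eq hv (Computable.const 0)))
      (cp_imp (cp_eq hu (Computable.const 0)).not ?_)
    exact cp_comp (RN_computable (F := F) (N := 2) (by norm_num)) (computable_div.comp hv hu)
  refine h1.of_eq ?_
  intro p
  constructor
  · rintro ⟨h2, h3⟩
    by_cases hz : u p = 0
    · exact ⟨0, aux_zero_mem, by rw [h2 hz]; simp⟩
    · exact ⟨v p / u p, h3 hz, div_mul_cancel₀ _ hz⟩
  · rintro ⟨z, hz, h⟩
    constructor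
    · intro h0
      rw [← h, h0, mul_zero]
    · intro h0
      rw [← h, mul_div_assoc, div_self h0, mul_one]
      exact hz

omit [NumberField F] in
theorem aux_fin {A : Type} [Primcodable A] (s : Finset ℕ) {Q : ℕ → A → Prop}
    (h : ∀ i, ComputablePred (Q i)) : ComputablePred fun p => ∀ i ∈ s, Q i p := by
  classical
  induction s using Finset.induction_on with
  | empty =>
    refine (cp_eq (A := A) (Computable.const 0) (Computable.const 0)).of_eq ?_
    intro p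
    simp
  | insert a s _ ih =>
    refine (cp_and (h a) ih).of_eq ?_
    intro p
    simp

theorem Sp_computable (I : ℕ) : ComputablePred fun p : (F × F) × (F × F) =>
    Sp (fun y => y ∈ RN F 2) I p.1.1 p.1.2 p.2.1 p.2.2 := by
  have hf : Computable fun p : (F × F) × (F × F) => p.1.1 := Computable.fst.comp Computable.fst
  have hg : Computable fun p : (F × F) × (F × F) => p.1.2 := Computable.snd.comp Computable.fst
  have hh : Computable fun p : (F × F) × (F × F) => p.2.1 := Computable.fst.comp Computable.snd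
  have hx : Computable fun p : (F × F) × (F × F) => p.2.2 := Computable.snd.comp Computable.snd
  unfold Sp
  refine cp_and (cp_comp (RN_computable (F := F) (N := 2) (by norm_num)) hx) (cp_and ?_ ?_)
  · refine aux_fin _ (Q := fun (i : ℕ) (p : (F × F) × (F × F)) =>
      ∃ z, z ∈ RN F 2 ∧ z * (p.2.2 + (i : F)) = p.1.1) ?_
    intro i
    exact aux_ex (CF.add.comp hx (Computable.const (i : F))) hf
  · exact aux_ex (CF.add.comp (Computable.const (1 : F)) (CF.mul.comp hg hx)) hh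

theorem exists_ofN {x : KS C F} (h : InN x) : ∃ (k : ℕ → ℕ) (hk : IsPC C k), x = ofN k hk := by
  obtain ⟨f, hf, rfl, hA⟩ := h
  have hR : REPred fun p : F × ℕ => (fun (a : F) (k : ℕ) => a = (k : F)) p.1 p.2 :=
    (cp_eq (A := F × ℕ) (B := F) Computable.fst
      ((computable_natCast (F := F)).comp Computable.snd)).to_re
  obtain ⟨g, hg, hgg⟩ := IsPC.search (A := F) (B := ℕ) hf
    (R := fun (a : F) (k : ℕ) => a = (k : F)) hR (by
      filter_upwards [hA] with n hn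
      obtain ⟨k, hk⟩ := hn
      exact ⟨k, hk.symm⟩)
  exact ⟨g, hg, of_eq.2 hgg⟩

theorem inN_ofN (k : ℕ → ℕ) (hk : IsPC C k) : InN (ofN (F := F) k hk) := by
  exact ⟨fun n => (k n : F), IsPC.comp computable_natCast hk, rfl,
    Filter.Eventually.of_forall fun n => ⟨k n, rfl⟩⟩

theorem N_mp_fact : Primrec Nat.factorial := by
  have h : Primrec (Nat.rec 1 (fun n a => (n + 1) * a) : ℕ → ℕ) :=
    Primrec.nat_rec₁ 1 (Primrec.nat_mul.comp (Primrec.succ.comp Primrec.fst) Primrec.snd).to₂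
  refine h.of_eq fun n => ?_
  induction n with
  | zero => rfl
  | succ n ih => rw [Nat.factorial_succ, ← ih]

theorem N_mp_pow : Primrec₂ (fun a b : ℕ => a ^ b) := Primrec₂.unpaired'.1 Nat.Primrec.pow

theorem N_mp_prod : Primrec₂ (fun g m : ℕ => ∏ y ∈ Finset.range m, (1 + g * y)) := by
  have h : Primrec (fun p : ℕ × ℕ => (Nat.rec 1 (fun y a => a * (1 + p.1 * y)) p.2 : ℕ)) := by
    refine Primrec.nat_rec' (h := fun (p : ℕ × ℕ) (q : ℕ × ℕ) => q.2 * (1 + p.1 * q.1))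
      Primrec.snd (Primrec.const 1) ?_
    refine Primrec₂.mk ?_
    refine Primrec.nat_mul.comp (Primrec.snd.comp Primrec.snd) ?_
    refine Primrec.nat_add.comp (Primrec.const 1) ?_
    exact Primrec.nat_mul.comp (Primrec.fst.comp Primrec.fst) (Primrec.fst.comp Primrec.snd)
  refine Primrec₂.mk (h.of_eq fun p => ?_)
  obtain ⟨g, m⟩ := p
  show (Nat.rec 1 (fun y a => a * (1 + g * y)) m : ℕ) = ∏ y ∈ Finset.range m, (1 + g * y)
  induction m with
  | zero => rfl
  | succ m ih => rw [Finset.prod_range_succ, ← ih]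

theorem N_mp_f (I : ℕ) : Primrec (fun k : ℕ => (k + I).factorial) :=
  N_mp_fact.comp (Primrec.nat_add.comp Primrec.id (Primrec.const I))

theorem N_mp_g (I κ : ℕ) : Primrec (fun k : ℕ => 2 ^ (((k + I).factorial + κ) ^ κ)) :=
  N_mp_pow.comp (Primrec.const 2)
    (N_mp_pow.comp (Primrec.nat_add.comp (N_mp_f I) (Primrec.const κ)) (Primrec.const κ))

theorem N_mp_h (I κ : ℕ) : Primrec (fun k : ℕ =>
    ∏ y ∈ Finset.range (k + 1), (1 + 2 ^ (((k + I).factorial + κ) ^ κ) * y)) :=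
  N_mp_prod.comp (N_mp_g I κ) Primrec.succ

theorem N_mp_RN {F : Type} [Field F] (N m : ℕ) : ((m : ℕ) : F) ∈ RN F N := by
  refine ⟨0, ?_⟩
  rw [pow_zero, one_mul]
  have := isIntegral_algebraMap (R := ℤ) (A := F) (x := (m : ℤ))
  simpa using this

theorem N_mp (hC : Cohesive C) {I κ : ℕ}
    (hch : ∀ n : ℕ, ∀ x ∈ RN F 2,
      (∀ i ∈ Finset.Icc 1 I, ∃ z ∈ RN F 2, z * (x + (i : F)) = (((n + I).factorial : ℕ) : F)) →
      (∃ z ∈ RN F 2, z * (1 + ((2 ^ (((n + I).factorial + κ) ^ κ) : ℕ) : F) * x) =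
        ((∏ y ∈ Finset.range (n + 1), (1 + 2 ^ (((n + I).factorial + κ) ^ κ) * y) : ℕ) : F)) →
      ∃ y ≤ n, x = ((y : ℕ) : F)) (t : KS C F) (ht : InN t) : Ndef I t := by
  obtain ⟨k, hk, rfl⟩ := exists_ofN ht
  have hcast : ∀ u : ℕ → ℕ, Computable u → IsPC C (fun n => ((u (k n) : ℕ) : F)) := by
    intro u hu
    exact IsPC.comp (g := fun m : ℕ => ((u m : ℕ) : F)) (computable_natCast.comp hu) hk
  have hf : IsPC C (fun n => (((k n + I).factorial : ℕ) : F)) :=
    hcast _ (N_mp_f I).to_comp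
  have hg : IsPC C (fun n => ((2 ^ (((k n + I).factorial + κ) ^ κ) : ℕ) : F)) :=
    hcast _ (N_mp_g I κ).to_comp
  have hh : IsPC C (fun n => ((∏ y ∈ Finset.range (k n + 1),
      (1 + 2 ^ (((k n + I).factorial + κ) ^ κ) * y) : ℕ) : F)) :=
    hcast _ (N_mp_h I κ).to_comp
  have key : ∀ n y : ℕ, y ≤ n → Sp (fun y => y ∈ RN F 2) I (((n + I).factorial : ℕ) : F)
      ((2 ^ (((n + I).factorial + κ) ^ κ) : ℕ) : F)
      ((∏ y ∈ Finset.range (n + 1), (1 + 2 ^ (((n + I).factorial + κ) ^ κ) * y) : ℕ) : F)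
      ((y : ℕ) : F) := by
    intro n y hy
    refine ⟨N_mp_RN 2 y, ?_, ?_⟩
    · intro i hi
      rw [Finset.mem_Icc] at hi
      obtain ⟨q, hq⟩ : (y + i) ∣ (n + I).factorial :=
        Nat.dvd_factorial (by omega) (by omega)
      refine ⟨(q : F), N_mp_RN 2 q, ?_⟩
      rw [hq]
      push_cast
      ring
    · obtain ⟨q, hq⟩ : (1 + 2 ^ (((n + I).factorial + κ) ^ κ) * y) ∣
          ∏ y ∈ Finset.range (n + 1), (1 + 2 ^ (((n + I).factorial + κ) ^ κ) * y) :=
        Finset.dvd_prod_of_mem (fun y => 1 + 2 ^ (((n + I).factorial + κ) ^ κ) * y)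
          (Finset.mem_range.2 (by omega))
      refine ⟨(q : F), N_mp_RN 2 q, ?_⟩
      rw [hq]
      generalize 2 ^ (((n + I).factorial + κ) ^ κ) = u
      push_cast
      ring
  refine ⟨of _ hf, of _ hg, of _ hh, ?_, ?_, ?_⟩
  · rw [ne_zero_iff hC]
    exact Filter.Eventually.of_forall fun n => Nat.cast_ne_zero.2 (Nat.factorial_ne_zero _)
  · have e0 : (0 : KS C F) = of (fun _ => (0 : F)) (IsPC.const 0) := rfl
    rw [e0, Sp_iff hC]
    refine Filter.Eventually.of_forall fun n => ?_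
    have := key (k n) 0 (Nat.zero_le _)
    rwa [Nat.cast_zero] at this
  · intro X hX
    obtain ⟨x, hx, rfl⟩ := exists_rep X
    rw [Sp_iff hC] at hX
    have hp : REPred (fun p : F × ℕ => p.1 = (p.2 : F)) :=
      (cp_eq Computable.fst (computable_natCast.comp Computable.snd)).to_re
    rcases dich hC (hx.pair hk) hp with h1 | h1
    · left
      exact of_eq.2 h1
    · right
      have e1 : of x hx + 1 = of (fun n => x n + 1) (hx.add (IsPC.const 1)) := rfl
      rw [e1, Sp_iff hC]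
      filter_upwards [hX, h1] with n hn hne
      obtain ⟨y, hy, hxy⟩ := hch (k n) (x n) hn.1 hn.2.1 hn.2.2
      have hlt : y + 1 ≤ k n := by
        rcases lt_or_eq_of_le hy with h | h
        · exact h
        · exact absurd (by rw [hxy, h]) hne
      have := key (k n) (y + 1) hlt
      rw [Nat.cast_succ, ← hxy] at this
      exact this

theorem N_mpr (hC : Cohesive C) {I : ℕ} (hI : 2 ≤ I) (t : KS C F) (h : Ndef I t) : InN t := by
  obtain ⟨f, g, hh, hf0, hsp0, hstep⟩ := h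
  obtain ⟨ff, hff, rfl⟩ := exists_rep f
  obtain ⟨gf, hgf, rfl⟩ := exists_rep g
  obtain ⟨hf, hhf, rfl⟩ := exists_rep hh
  rw [ne_zero_iff hC] at hf0
  have h0 : (0 : KS C F) = of (fun _ => (0 : F)) (IsPC.const 0) := rfl
  have h1 : (1 : KS C F) = of (fun _ => (1 : F)) (IsPC.const 1) := rfl
  rw [h0, Sp_iff hC I hff hgf hhf (IsPC.const 0)] at hsp0
  have hR : ComputablePred fun p : (F × F × F) × ℕ =>
      ¬ Sp (fun y => y ∈ RN F 2) I p.1.1 p.1.2.1 p.1.2.2 (((p.2 + 1 : ℕ)) : F) := by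
    refine ComputablePred.not ?_
    have hg : Computable fun p : (F × F × F) × ℕ =>
        ((p.1.1, p.1.2.1), (p.1.2.2, ((((p.2 + 1 : ℕ)) : F)))) := by
      refine Computable.pair (Computable.pair (Computable.fst.comp Computable.fst)
        (Computable.fst.comp (Computable.snd.comp Computable.fst)))
        (Computable.pair (Computable.snd.comp (Computable.snd.comp Computable.fst)) ?_)
      exact computable_natCast.comp (Computable.succ.comp Computable.snd)
    exact cp_comp (Sp_computable (F := F) I) hg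
  have hex : ∀ᶠ n in fl C, ∃ k : ℕ,
      ¬ Sp (fun y => y ∈ RN F 2) I (ff n) (gf n) (hf n) (((k + 1 : ℕ)) : F) := by
    filter_upwards [hf0] with n hn
    by_contra hcon
    have hcon' : ∀ k : ℕ, Sp (fun y => y ∈ RN F 2) I (ff n) (gf n) (hf n) (((k + 1 : ℕ)) : F) := by
      intro k
      by_contra hk
      exact hcon ⟨k, hk⟩
    have hfin := chain_fin F (ff n) hn
    have hsub : Set.range (fun k : ℕ => k + 1) ⊆
        {k : ℕ | (∃ z ∈ RN F 2, z * ((k : F) + 1) = ff n) ∧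
          (∃ z ∈ RN F 2, z * ((k : F) + 2) = ff n)} := by
      rintro _ ⟨k, rfl⟩
      obtain ⟨_, hk2, _⟩ := hcon' k
      obtain ⟨z1, hz1, hz1'⟩ := hk2 1 (Finset.mem_Icc.2 ⟨le_refl _, by omega⟩)
      obtain ⟨z2, hz2, hz2'⟩ := hk2 2 (Finset.mem_Icc.2 ⟨by omega, hI⟩)
      refine ⟨⟨z1, hz1, ?_⟩, ⟨z2, hz2, ?_⟩⟩
      · simpa using hz1'
      · simpa using hz2'
    exact (Set.infinite_range_of_injective (fun a b hab => Nat.succ.inj hab)) (hfin.subset hsub)
  obtain ⟨kk, hkk, hkk2⟩ := IsPC.least (C := C) (f := fun n => (ff n, gf n, hf n))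
    (hff.pair (hgf.pair hhf))
    (R := fun (a : F × F × F) (k : ℕ) =>
      ¬ Sp (fun y => y ∈ RN F 2) I a.1 a.2.1 a.2.2 (((k + 1 : ℕ)) : F)) hR hex
  have hP : ∀ᶠ n in fl C, Sp (fun y => y ∈ RN F 2) I (ff n) (gf n) (hf n) ((kk n : ℕ) : F) := by
    filter_upwards [hkk2, hsp0] with n hn hn0
    rcases Nat.eq_zero_or_pos (kk n) with hz | hz
    · rw [hz]
      simpa using hn0
    · obtain ⟨j, hj⟩ : ∃ j, kk n = j + 1 := ⟨kk n - 1, by omega⟩
      have := hn.2 j (by omega)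
      rw [hj]
      exact not_not.1 this
  rcases hstep (ofN kk hkk) ((Sp_iff hC I hff hgf hhf _).2 hP) with hx | hx
  · rw [← hx]
    exact inN_ofN kk hkk
  · exfalso
    have e1 : (ofN kk hkk + 1 : KS C F) = of (fun n => (kk n : F) + 1)
        ((IsPC.comp computable_natCast hkk).add (IsPC.const 1)) := rfl
    rw [e1, Sp_iff hC I hff hgf hhf _] at hx
    have := fl_neBot hC
    obtain ⟨n, hn1, hn2⟩ := (hkk2.and hx).exists
    apply hn1.1
    have : (((kk n + 1 : ℕ)) : F) = (kk n : F) + 1 := by push_cast; ring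
    show Sp (fun y => y ∈ RN F 2) I (ff n) (gf n) (hf n) (((kk n + 1 : ℕ)) : F)
    rw [this]
    exact hn2

theorem exists_map (σ : F ≃+* F) : ∃ β : KS C F ≃+* KS C F,
    ∀ (f : ℕ → F) (hf : IsPC C f) (h' : IsPC C fun n => σ (f n)),
      β (of f hf) = of (fun n => σ (f n)) h' := by
  have key : ∀ τ : F ≃+* F, ∀ x : KS C F, Germ.map (fun y : F => τ y) x.1 ∈ KS C F := by
    intro τ x
    obtain ⟨f, hf, hx⟩ := x.2
    refine ⟨fun n => τ (f n), IsPC.comp (aut_computable τ) hf, ?_⟩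
    rw [hx]
    rfl
  have inv : ∀ τ : F ≃+* F, ∀ x : KS C F,
      (⟨Germ.map (fun y : F => τ.symm y) (⟨Germ.map (fun y : F => τ y) x.1, key τ x⟩ : KS C F).1,
        key τ.symm _⟩ : KS C F) = x := by
    intro τ x
    obtain ⟨f, hf, rfl⟩ := exists_rep x
    apply Subtype.ext
    change ((fun n => τ.symm (τ (f n)) : ℕ → F) : Germ (fl C) F) = (f : Germ (fl C) F)
    simp
  refine ⟨{ toFun := fun x => ⟨Germ.map (fun y : F => σ y) x.1, key σ x⟩
            invFun := fun x => ⟨Germ.map (fun y : F => σ.symm y) x.1, key σ.symm x⟩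
            left_inv := inv σ
            right_inv := fun x => inv σ.symm x
            map_mul' := ?_
            map_add' := ?_ }, ?_⟩
  · intro x y
    obtain ⟨f, hf, rfl⟩ := exists_rep x
    obtain ⟨g, hg, rfl⟩ := exists_rep y
    apply Subtype.ext
    change ((fun n => σ (f n * g n) : ℕ → F) : Germ (fl C) F) =
      ((fun n => σ (f n) * σ (g n) : ℕ → F) : Germ (fl C) F)
    simp
  · intro x y
    obtain ⟨f, hf, rfl⟩ := exists_rep x
    obtain ⟨g, hg, rfl⟩ := exists_rep y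
    apply Subtype.ext
    change ((fun n => σ (f n + g n) : ℕ → F) : Germ (fl C) F) =
      ((fun n => σ (f n) + σ (g n) : ℕ → F) : Germ (fl C) F)
    simp
  · intro f hf h'
    rfl

theorem alg_const_cst (c : F) (p : Polynomial ℤ) :
    Polynomial.aeval (cst C c) p = cst C (Polynomial.aeval c p) := by
  let Λ : F →+* KS C F :=
    { toFun := cst C
      map_one' := cst_one
      map_mul' := cst_mul
      map_zero' := cst_zero
      map_add' := cst_add }
  exact Polynomial.aeval_algHom_apply Λ.toIntAlgHom c p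

theorem alg_const_germ {f : ℕ → F} (hf : IsPC C f) (p : Polynomial ℤ)
    (h : Polynomial.aeval (of f hf) p = 0) : ∀ᶠ n in fl C, Polynomial.aeval (f n) p = 0 := by
  have h1 : Polynomial.aeval ((f : Germ (fl C) F)) p = 0 := by
    have h2 := Polynomial.aeval_algHom_apply ((KS C F).subtype.toIntAlgHom) (of f hf) p
    rw [h, map_zero] at h2
    exact h2
  have h3 := Polynomial.aeval_algHom_apply ((Filter.Germ.coeRingHom (fl C) : (ℕ → F) →+* Germ (fl C) F).toIntAlgHom) f p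
  have h4 : ((Polynomial.aeval f p : ℕ → F) : Germ (fl C) F) = ((0 : ℕ → F) : Germ (fl C) F) :=
    h3.symm.trans h1
  have h5 := Germ.coe_eq.1 h4
  filter_upwards [h5] with n hn
  have h6 := Polynomial.aeval_algHom_apply ((Pi.evalRingHom (fun _ : ℕ => F) n).toIntAlgHom) f p
  have h7 : Polynomial.aeval (f n) p = (Polynomial.aeval f p : ℕ → F) n := h6
  rw [h7, hn]
  rfl

theorem alg_const (hC : Cohesive C) (α : KS C F ≃+* KS C F) (c : F) :
    ∃ c' : F, α (cst C c) = cst C c' := by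
  have halg : IsAlgebraic ℤ c :=
    (IsFractionRing.isAlgebraic_iff ℤ ℚ F).2 (Algebra.IsAlgebraic.isAlgebraic c)
  obtain ⟨p, hp0, hp⟩ := halg
  obtain ⟨f, hf, hfe⟩ := exists_rep (α (cst C c))
  have h1 : Polynomial.aeval (α (cst C c)) p = 0 := by
    have h2 := Polynomial.aeval_algHom_apply ((α : KS C F →+* KS C F).toIntAlgHom) (cst C c) p
    rw [alg_const_cst, hp, cst_zero, map_zero] at h2
    exact h2
  rw [hfe] at h1
  have h3 := alg_const_germ hf p h1
  have hfin : {x : F | Polynomial.aeval x p = 0}.Finite := by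
    refine (Polynomial.rootSet_finite p F).subset fun x hx => ?_
    exact (Polynomial.mem_rootSet).2 ⟨hp0, hx⟩
  obtain ⟨c', -, hc'⟩ := const_of_finite hC hf hfin h3
  exact ⟨c', by rw [hfe]; exact of_eq.2 hc'⟩

end K

/-- an integral quadratic equation `e x_i x_j + a x_k + b x_l + c x_m + d = 0` -/
structure Eqn (V : Type) where
  (i j k l m : V)
  (e a b c d : ℤ)

def Eqn.Holds {V : Type} (x : V → ℤ) (q : Eqn V) : Prop :=
  q.e * (x q.i * x q.j) + q.a * x q.k + q.b * x q.l + q.c * x q.m + q.d = 0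

theorem re_system (S : ℕ → Prop) (hS : REPred S) :
    ∃ (V : Type) (_ : Fintype V) (f : V) (L : List (Eqn V)), ∀ z : ℤ,
      (∃ x : V → ℤ, x f = z ∧ ∀ q ∈ L, q.Holds x) ↔ ∃ n : ℕ, S n ∧ z = 1 - 4 * n := by
  obtain ⟨V, hV, f, L, h⟩ := Pool.Agent.Helper437.Dio.Sys.exists_system S
    (Pool.Agent.Helper437.Dio.dprm hS)
  refine ⟨V, hV, f, L.map (fun q => ⟨q.i, q.j, q.k, q.l, q.m, q.e, q.a, q.b, q.c, q.d⟩),
    fun z => ?_⟩
  rw [← h z]
  constructor
  · rintro ⟨x, hx, hL⟩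
    exact ⟨x, hx, fun q hq => hL _ (List.mem_map_of_mem hq)⟩
  · rintro ⟨x, hx, hL⟩
    refine ⟨x, hx, ?_⟩
    intro q hq
    obtain ⟨q', h1, rfl⟩ := List.mem_map.1 hq
    exact hL q' h1

section T
variable {C : Set ℕ} {F : Type} [Field F] [NumberField F] [Primcodable F] [CF F]

theorem rt_eq {fi fj fk fl' fm : ℕ → F} (hi : IsPC C fi) (hj : IsPC C fj) (hk : IsPC C fk)
    (hl : IsPC C fl') (hm : IsPC C fm) (e a b c d : F) :
    cst C e * (of fi hi * of fj hj) + cst C a * of fk hk + cst C b * of fl' hl +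
      cst C c * of fm hm + cst C d = 0 ↔
    ∀ᶠ n in fl C, e * (fi n * fj n) + a * fk n + b * fl' n + c * fm n + d = 0 := by
  have h1 : cst C e * (of fi hi * of fj hj) + cst C a * of fk hk + cst C b * of fl' hl +
      cst C c * of fm hm + cst C d =
      of (fun n => e * (fi n * fj n) + a * fk n + b * fl' n + c * fm n + d)
        ((((((IsPC.const e).mul (hi.mul hj)).add ((IsPC.const a).mul hk)).add
          ((IsPC.const b).mul hl)).add ((IsPC.const c).mul hm)).add (IsPC.const d)) := rfl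
  rw [h1, ← cst_zero]
  exact of_eq

/-- reading of an assignment from a list -/
def rtx {V : Type} (idx : V → ℕ) (l : List ℤ) (v : V) : ℤ := l.getD (idx v) 0

theorem rtx_comp {V : Type} (idx : V → ℕ) (v : V) : Computable fun l : List ℤ => rtx idx l v :=
  ((Primrec.list_getD (0 : ℤ)).comp Primrec.id (Primrec.const (idx v))).to_comp

theorem rt_cast {A : Type} [Primcodable A] {g : A → ℤ} (hg : Computable g) :
    Computable fun a => ((g a : ℤ) : F) := computable_intCast.comp hg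

theorem rt_add {A : Type} [Primcodable A] {f g : A → F} (hf : Computable f) (hg : Computable g) :
    Computable fun a => f a + g a := CF.add.comp hf hg

theorem rt_mul {A : Type} [Primcodable A] {f g : A → F} (hf : Computable f) (hg : Computable g) :
    Computable fun a => f a * g a := CF.mul.comp hf hg

theorem rt_holds {V : Type} (x : V → ℤ) (q : Eqn V) : q.Holds x ↔
    (q.e : F) * ((x q.i : F) * (x q.j : F)) + (q.a : F) * (x q.k : F) + (q.b : F) * (x q.l : F) +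
      (q.c : F) * (x q.m : F) + (q.d : F) = 0 := by
  unfold Eqn.Holds
  rw [← Int.cast_inj (α := F)]
  push_cast
  rfl

theorem rt_comp_holds (F : Type) [Field F] [NumberField F] [Primcodable F] [CF F] {V : Type}
    (idx : V → ℕ) (q : Eqn V) :
    ComputablePred fun p : ℕ × List ℤ => q.Holds (rtx idx p.2) := by
  have h1 : ∀ v, Computable fun p : ℕ × List ℤ => ((rtx idx p.2 v : ℤ) : F) := fun v =>
    rt_cast ((rtx_comp idx v).comp Computable.snd)
  have h2 : ComputablePred fun p : ℕ × List ℤ =>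
      (q.e : F) * ((rtx idx p.2 q.i : F) * (rtx idx p.2 q.j : F)) +
        (q.a : F) * (rtx idx p.2 q.k : F) + (q.b : F) * (rtx idx p.2 q.l : F) +
      (q.c : F) * (rtx idx p.2 q.m : F) + (q.d : F) = 0 :=
    cp_eq (rt_add (rt_add (rt_add (rt_add
      (rt_mul (Computable.const (q.e : F)) (rt_mul (h1 q.i) (h1 q.j)))
      (rt_mul (Computable.const (q.a : F)) (h1 q.k)))
      (rt_mul (Computable.const (q.b : F)) (h1 q.l)))
      (rt_mul (Computable.const (q.c : F)) (h1 q.m)))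
      (Computable.const (q.d : F))) (Computable.const 0)
  exact h2.of_eq (fun p => (rt_holds (F := F) (rtx idx p.2) q).symm)

theorem rt_comp_all (F : Type) [Field F] [NumberField F] [Primcodable F] [CF F] {V : Type}
    (idx : V → ℕ) (L : List (Eqn V)) :
    ComputablePred fun p : ℕ × List ℤ => ∀ q ∈ L, q.Holds (rtx idx p.2) := by
  induction L with
  | nil =>
    have h : ComputablePred fun p : ℕ × List ℤ => (0 : ℕ) = 0 :=
      cp_eq (Computable.const 0) (Computable.const 0)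
    exact h.of_eq (fun p => by simp)
  | cons q L ih =>
    exact (cp_and (rt_comp_holds F idx q) ih).of_eq (fun p => by simp)

/-- integers of the cohesive power -/
theorem rt_int (α : KS C F ≃+* KS C F) (hN : ∀ t, InN t → InN (α t)) {X : ℕ → ℤ}
    (hX : IsPC C X) : ∃ (Y : ℕ → ℤ) (hY : IsPC C fun n => ((Y n : ℤ) : F)),
      α (of (fun n => ((X n : ℤ) : F)) (IsPC.comp computable_intCast hX)) =
        of (fun n => ((Y n : ℤ) : F)) hY := by
  obtain ⟨g, hg, hgX⟩ := IsPC.search (B := ℕ × ℕ) hX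
    (R := fun (a : ℤ) (b : ℕ × ℕ) => (a : F) + (b.2 : F) = (b.1 : F))
    (ComputablePred.to_re (cp_eq
      (rt_add (computable_intCast.comp Computable.fst)
        (computable_natCast.comp (Computable.snd.comp Computable.snd)))
      (computable_natCast.comp (Computable.fst.comp Computable.snd))))
    (Filter.Eventually.of_forall (fun n => by
      obtain ⟨a, b, hab⟩ : ∃ a b : ℕ, X n + b = a := by
        refine ⟨(X n).toNat, (-(X n)).toNat, ?_⟩
        omega
      refine ⟨(a, b), ?_⟩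
      simp only
      rw [← Int.cast_natCast b, ← Int.cast_natCast a, ← hab]
      push_cast
      rfl))
  have hg1 : IsPC C fun n => (g n).1 := IsPC.comp Computable.fst hg
  have hg2 : IsPC C fun n => (g n).2 := IsPC.comp Computable.snd hg
  have h1 : of (fun n => ((X n : ℤ) : F)) (IsPC.comp computable_intCast hX) +
      ofN (fun n => (g n).2) hg2 = ofN (fun n => (g n).1) hg1 := by
    unfold ofN
    rw [of_add]
    exact of_eq.2 hgX
  have h2 := congrArg α h1
  rw [map_add] at h2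
  obtain ⟨k1, hk1, e1⟩ := exists_ofN (hN _ (inN_ofN (F := F) (fun n => (g n).1) hg1))
  obtain ⟨k2, hk2, e2⟩ := exists_ofN (hN _ (inN_ofN (F := F) (fun n => (g n).2) hg2))
  rw [e1, e2] at h2
  have hY : IsPC C fun n => ((((k1 n : ℤ) - (k2 n : ℤ)) : ℤ) : F) := by
    have h3 := (IsPC.comp (B := F) computable_natCast hk1).add
      (IsPC.comp (B := F) computable_natCast hk2).neg
    refine h3.congr (Filter.Eventually.of_forall fun n => ?_)
    push_cast
    ring
  refine ⟨fun n => (k1 n : ℤ) - (k2 n : ℤ), hY, ?_⟩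
  rw [← eq_sub_iff_add_eq] at h2
  rw [h2, sub_eq_add_neg]
  unfold ofN
  rw [of_neg, of_add]
  apply of_eq.2
  exact Filter.Eventually.of_forall (fun n => by
    push_cast
    ring)

theorem re_transfer (hC : Cohesive C) (α : KS C F ≃+* KS C F) (hα : ∀ c, α (cst C c) = cst C c)
    (hN : ∀ t, InN t → InN (α t)) {k k' : ℕ → ℕ} (hk : IsPC C k) (hk' : IsPC C k')
    (h : α (ofN k hk) = ofN k' hk') {S : ℕ → Prop} (hS : REPred S)
    (h1 : ∀ᶠ n in fl C, S (k n)) : ∀ᶠ n in fl C, S (k' n) := by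
  obtain ⟨V, hV, fV, L, hL⟩ := re_system S hS
  obtain ⟨idx, hidx⟩ : ∃ idx : V → ℕ, ∀ x : V → ℤ, ∃ l : List ℤ, rtx idx l = x := by
    classical
    refine ⟨fun v => (Fintype.equivFin V v : ℕ), fun x => ?_⟩
    refine ⟨List.ofFn (fun i => x ((Fintype.equivFin V).symm i)), ?_⟩
    funext v
    unfold rtx
    rw [List.getD_eq_getElem _ _ (by simp)]
    simp
  have hR : ComputablePred fun p : ℕ × List ℤ =>
      ((rtx idx p.2 fV : ℤ) : F) + ((4 : ℕ) : F) * (p.1 : F) = 1 ∧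
        ∀ q ∈ L, q.Holds (rtx idx p.2) :=
    cp_and (cp_eq (rt_add (rt_cast ((rtx_comp idx fV).comp Computable.snd))
      (rt_mul (Computable.const _) (computable_natCast.comp Computable.fst)))
      (Computable.const 1)) (rt_comp_all F idx L)
  obtain ⟨X, hX, hXR⟩ := IsPC.search (B := List ℤ) hk
    (R := fun (a : ℕ) (l : List ℤ) => ((rtx idx l fV : ℤ) : F) + ((4 : ℕ) : F) * (a : F) = 1 ∧
        ∀ q ∈ L, q.Holds (rtx idx l)) hR.to_re (by
      filter_upwards [h1] with n hn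
      obtain ⟨x, hx1, hx2⟩ := (hL (1 - 4 * (k n : ℤ))).2 ⟨k n, hn, rfl⟩
      obtain ⟨l, hl⟩ := hidx x
      refine ⟨l, ?_, ?_⟩
      · rw [hl, hx1]
        push_cast
        ring
      · rw [hl]
        exact hx2)
  have hXv : ∀ v, IsPC C fun n => rtx idx (X n) v := fun v => IsPC.comp (rtx_comp idx v) hX
  choose Y hY hαY using fun v => rt_int α hN (hXv v)
  -- the equations
  have hq : ∀ q ∈ L, ∀ᶠ n in fl C, q.Holds (fun v => Y v n) := by
    intro q hqL
    have e1 := (rt_eq (IsPC.comp computable_intCast (hXv q.i))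
      (IsPC.comp computable_intCast (hXv q.j)) (IsPC.comp computable_intCast (hXv q.k))
      (IsPC.comp computable_intCast (hXv q.l)) (IsPC.comp computable_intCast (hXv q.m))
      (q.e : F) (q.a : F) (q.b : F) (q.c : F) (q.d : F)).2 (by
        filter_upwards [hXR] with n hn
        exact (rt_holds (F := F) _ q).1 (hn.2 q hqL))
    have e2 := congrArg α e1
    simp only [map_add, map_mul, map_zero, hα, hαY] at e2
    have e3 := (rt_eq (hY q.i) (hY q.j) (hY q.k) (hY q.l) (hY q.m)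
      (q.e : F) (q.a : F) (q.b : F) (q.c : F) (q.d : F)).1 e2
    filter_upwards [e3] with n hn
    exact (rt_holds (F := F) _ q).2 hn
  have hf : ∀ᶠ n in fl C, Y fV n = 1 - 4 * (k' n : ℤ) := by
    have e1 : of (fun n => ((rtx idx (X n) fV : ℤ) : F))
        (IsPC.comp computable_intCast (hXv fV)) + cst C ((4 : ℕ) : F) * ofN k hk = 1 := by
      rw [← cst_one]
      unfold ofN cst
      rw [of_mul, of_add]
      apply of_eq.2
      filter_upwards [hXR] with n hn
      exact hn.1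
    have e2 := congrArg α e1
    rw [map_add, map_mul, map_one, hα, hαY, h, ← cst_one] at e2
    unfold ofN cst at e2
    rw [of_mul, of_add] at e2
    have e3 := of_eq.1 e2
    filter_upwards [e3] with n hn
    have e4 : ((Y fV n : ℤ) : F) = ((1 - 4 * (k' n : ℤ) : ℤ) : F) := by
      push_cast
      push_cast at hn
      linear_combination hn
    exact_mod_cast e4
  have hall : ∀ᶠ n in fl C, ∀ q ∈ {q | q ∈ L}, q.Holds (fun v => Y v n) :=
    (Filter.eventually_all_finite (List.finite_toSet L)).2 hq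
  filter_upwards [hf, hall] with n hn1 hn2
  obtain ⟨m, hm1, hm2⟩ := (hL (1 - 4 * (k' n : ℤ))).1 ⟨fun v => Y v n, hn1, hn2⟩
  have hm3 : m = k' n := by omega
  rw [← hm3]
  exact hm1

/-- pairing function -/
def alphaOfJ (a b : ℕ) : ℕ := (a + b) * (a + b) + 3 * a + b

theorem alphaOfJ_inj {a b a' b' : ℕ} (h : alphaOfJ a b = alphaOfJ a' b') : a = a' ∧ b = b' := by
  unfold alphaOfJ at h
  rcases lt_trichotomy (a + b) (a' + b') with h1 | h1 | h1
  · exfalso
    nlinarith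
  · have h2 : (a + b) * (a + b) = (a' + b') * (a' + b') := by rw [h1]
    omega
  · exfalso
    nlinarith

theorem alphaOfJ_comp : Computable₂ alphaOfJ := by
  have h1 : Primrec fun p : ℕ × ℕ => p.1 := Primrec.fst
  have h2 : Primrec fun p : ℕ × ℕ => p.2 := Primrec.snd
  have h3 : Primrec fun p : ℕ × ℕ => p.1 + p.2 := Primrec.nat_add.comp h1 h2
  have h4 : Primrec fun p : ℕ × ℕ => (p.1 + p.2) * (p.1 + p.2) := Primrec.nat_mul.comp h3 h3
  have h5 : Primrec fun p : ℕ × ℕ => 3 * p.1 := Primrec.nat_mul.comp (Primrec.const 3) h1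
  have h6 : Primrec fun p : ℕ × ℕ => (p.1 + p.2) * (p.1 + p.2) + 3 * p.1 :=
    Primrec.nat_add.comp h4 h5
  have h7 : Primrec fun p : ℕ × ℕ => (p.1 + p.2) * (p.1 + p.2) + 3 * p.1 + p.2 :=
    Primrec.nat_add.comp h6 h2
  exact h7.to_comp

theorem alphaOf_graph (Θ : ℕ →. ℕ) (hΘ : Partrec Θ) :
    REPred fun p : ℕ × ℕ => p.2 ∈ Θ p.1 := by
  have h1 : Partrec fun p : ℕ × ℕ => Θ p.1 := hΘ.comp Computable.fst
  have h2 : Primrec fun x : (ℕ × ℕ) × ℕ => if x.2 = x.1.2 then some () else none :=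
    Primrec.ite (Primrec.eq.comp Primrec.snd (Primrec.snd.comp Primrec.fst))
      (Primrec.const (some ())) (Primrec.const none)
  have h3 : Partrec₂ fun (p : ℕ × ℕ) (c : ℕ) =>
      ((if c = p.2 then some () else none : Option Unit) : Part Unit) :=
    Computable.ofOption h2.to_comp
  have h4 := (Partrec.bind h1 h3).dom_re
  refine h4.of_eq ?_
  intro p
  rw [Part.dom_iff_mem]
  constructor
  · rintro ⟨u, hu⟩
    rw [Part.mem_bind_iff] at hu
    obtain ⟨c, hc, hu⟩ := hu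
    rw [Part.mem_ofOption] at hu
    by_cases h5 : c = p.2
    · rw [← h5]
      exact hc
    · rw [if_neg h5] at hu
      simp at hu
  · intro hp
    refine ⟨(), ?_⟩
    rw [Part.mem_bind_iff]
    refine ⟨p.2, hp, ?_⟩
    rw [Part.mem_ofOption, if_pos rfl]
    simp

theorem alphaOf_S (Θ : ℕ →. ℕ) (hΘ : Partrec Θ) :
    REPred fun m : ℕ => ∃ p : ℕ × ℕ, m = alphaOfJ p.1 p.2 ∧ p.2 ∈ Θ p.1 := by
  apply re_ex (A := ℕ) (B := ℕ × ℕ) (p := fun m p => m = alphaOfJ p.1 p.2 ∧ p.2 ∈ Θ p.1)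
  refine re_and (A := ℕ × (ℕ × ℕ)) (p := fun x => x.1 = alphaOfJ x.2.1 x.2.2)
    (q := fun x => x.2.2 ∈ Θ x.2.1) ?_ ?_
  · exact (cp_eq (A := ℕ × (ℕ × ℕ)) Computable.fst
      (alphaOfJ_comp.comp (Computable.fst.comp Computable.snd)
        (Computable.snd.comp Computable.snd))).to_re
  · exact re_comp (alphaOf_graph Θ hΘ) (A := ℕ × (ℕ × ℕ)) (g := fun x => x.2) Computable.snd

theorem alphaOf_ofN {p q : ℕ → ℕ} (hp : IsPC C p) (hq : IsPC C q)
    (h : IsPC C fun n => alphaOfJ (p n) (q n)) :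
    (ofN (fun n => alphaOfJ (p n) (q n)) h : KS C F) =
      (ofN p hp + ofN q hq) * (ofN p hp + ofN q hq) + (ofN p hp + ofN p hp + ofN p hp) +
        ofN q hq := by
  unfold ofN
  simp only [of_add, of_mul]
  rw [of_eq]
  refine Filter.Eventually.of_forall fun n => ?_
  unfold alphaOfJ
  push_cast
  ring

theorem alpha_of (hC : Cohesive C) (α : KS C F ≃+* KS C F) (hα : ∀ c, α (cst C c) = cst C c)
    (hN : ∀ t, InN t → InN (α t)) {ψ : ℕ → ℕ} (hψ : IsPC C ψ)
    (hτ : α (ofN (fun n => n) (IsPC.of_computable Computable.id)) = ofN ψ hψ)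
    (Θ : ℕ →. ℕ) (hΘ : Partrec Θ) (θ : ℕ → ℕ) (hθ : IsPC C θ) (h : ∀ᶠ n in fl C, θ n ∈ Θ n) :
    ∃ (θ' : ℕ → ℕ) (hθ' : IsPC C θ'), α (ofN θ hθ) = ofN θ' hθ' ∧
      ∀ᶠ n in fl C, θ' n ∈ Θ (ψ n) := by
  obtain ⟨θ', hθ', he⟩ := exists_ofN (hN _ (inN_ofN θ hθ))
  refine ⟨θ', hθ', he, ?_⟩
  have hid : IsPC C (fun n : ℕ => n) := IsPC.of_computable Computable.id
  have hk : IsPC C fun n => alphaOfJ n (θ n) := IsPC.comp₂ alphaOfJ_comp hid hθ
  have hk' : IsPC C fun n => alphaOfJ (ψ n) (θ' n) := IsPC.comp₂ alphaOfJ_comp hψ hθ'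
  have hα' : α (ofN (fun n => alphaOfJ n (θ n)) hk) = ofN (fun n => alphaOfJ (ψ n) (θ' n)) hk' := by
    rw [alphaOf_ofN (F := F) hid hθ hk, alphaOf_ofN (F := F) hψ hθ' hk']
    simp only [map_add, map_mul]
    rw [he, hτ]
  have h1 := re_transfer hC α hα hN hk hk' hα' (alphaOf_S Θ hΘ) (by
    filter_upwards [h] with n hn
    exact ⟨(n, θ n), rfl, hn⟩)
  filter_upwards [h1] with n hn
  obtain ⟨⟨a, b⟩, hab, hb⟩ := hn
  obtain ⟨h2, h3⟩ := alphaOfJ_inj hab
  rw [h2, h3]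
  exact hb

theorem alpha_fix_N_eq {k k' : ℕ → ℕ} (hk : IsPC C k) (hk' : IsPC C k')
    (h : ofN (F := F) k hk = ofN k' hk') : ∀ᶠ n in fl C, k n = k' n := by
  unfold ofN at h
  have h1 := of_eq.1 h
  filter_upwards [h1] with n hn
  exact Nat.cast_injective hn

theorem alpha_fix_N (hC : Cohesive C) (α : KS C F ≃+* KS C F) (hα : ∀ c, α (cst C c) = cst C c)
    (hN : ∀ t, InN t ↔ InN (α t)) (t : KS C F) (ht : InN t) : α t = t := by
  have hNf : ∀ t, InN t → InN (α t) := fun t h => (hN t).1 h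
  have hNb : ∀ t, InN t → InN (α.symm t) := by
    intro t h
    rw [hN, RingEquiv.apply_symm_apply]
    exact h
  have hαb : ∀ c, α.symm (cst C c) = cst C c := by
    intro c
    conv_lhs => rw [← hα c]
    rw [RingEquiv.symm_apply_apply]
  obtain ⟨ψ, hψ, hψ'⟩ := exists_ofN (hNf (ofN (fun n => n) (IsPC.of_computable Computable.id))
    (inN_ofN _ _))
  obtain ⟨φ, hφ, hφ'⟩ := exists_ofN (hNb (ofN (fun n => n) (IsPC.of_computable Computable.id))
    (inN_ofN _ _))
  obtain ⟨Ψ, hΨ, hΨ'⟩ := id hψ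
  obtain ⟨Φ, hΦ, hΦ'⟩ := id hφ
  have b1 : ∀ᶠ n in fl C, n ∈ Φ (ψ n) := by
    obtain ⟨θ', hθ', h1, h2⟩ := alpha_of hC α hα hNf hψ hψ' Φ hΦ φ hφ hΦ'
    rw [← hφ', RingEquiv.apply_symm_apply] at h1
    have h3 := alpha_fix_N_eq _ _ h1
    filter_upwards [h2, h3] with n hn hn'
    rw [← hn'] at hn
    exact hn
  have b2 : ∀ᶠ n in fl C, n ∈ Ψ (φ n) := by
    obtain ⟨θ', hθ', h1, h2⟩ := alpha_of hC α.symm hαb hNb hφ hφ' Ψ hΨ ψ hψ hΨ'
    rw [← hψ', RingEquiv.symm_apply_apply] at h1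
    have h3 := alpha_fix_N_eq _ _ h1
    filter_upwards [h2, h3] with n hn hn'
    rw [← hn'] at hn
    exact hn
  have key := rigid_core hC Ψ Φ hΨ hΦ ψ φ hΨ' hΦ' b1 b2
    (fun S hS h1 => re_transfer hC α hα hNf (IsPC.of_computable Computable.id) hψ hψ' hS h1)
    (fun S hS h1 => re_transfer hC α.symm hαb hNb (IsPC.of_computable Computable.id) hφ hφ' hS h1)
  obtain ⟨θ, hθ, rfl⟩ := exists_ofN ht
  obtain ⟨Θ, hΘ, hΘ'⟩ := id hθ
  obtain ⟨θ', hθ', h1, h2⟩ := alpha_of hC α hα hNf hψ hψ' Θ hΘ θ hθ hΘ'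
  rw [h1]
  unfold ofN
  rw [of_eq]
  filter_upwards [key, h2, hΘ'] with n hn1 hn2 hn3
  rw [hn1] at hn2
  rw [Part.mem_unique hn2 hn3]

omit [NumberField F] in
theorem alpha_eq_id_sum {ι : Type} (s : Finset ι) (u : ι → ℕ → F) (h : ∀ j, IsPC C (u j)) :
    ∃ hs : IsPC C (fun n => ∑ j ∈ s, u j n),
      ∑ j ∈ s, of (u j) (h j) = of (fun n => ∑ j ∈ s, u j n) hs := by
  classical
  induction s using Finset.induction_on with
  | empty =>
    refine ⟨(IsPC.const (0 : F)).congr (Filter.Eventually.of_forall fun n => by simp), ?_⟩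
    rw [Finset.sum_empty]
    have h0 : (0 : KS C F) = of (fun _ => 0) (IsPC.const 0) := rfl
    rw [h0, of_eq]
    exact Filter.Eventually.of_forall fun n => by simp
  | insert a s ha ih =>
    obtain ⟨hs, ih⟩ := ih
    refine ⟨((h a).add hs).congr (Filter.Eventually.of_forall fun n => by
      show u a n + ∑ j ∈ s, u j n = ∑ j ∈ insert a s, u j n
      rw [Finset.sum_insert ha]), ?_⟩
    rw [Finset.sum_insert ha, ih, of_add, of_eq]
    exact Filter.Eventually.of_forall fun n => by rw [Finset.sum_insert ha]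

omit [Primcodable F] [CF F] in
theorem alpha_eq_id_rep {d : ℕ} (b : Module.Basis (Fin d) ℚ F) (x : F) :
    ∃ p : ℕ × (Fin d → ℕ) × (Fin d → ℕ), p.1 ≠ 0 ∧
      (p.1 : F) * x = ∑ j, (((p.2.1 j : ℕ) : F) - ((p.2.2 j : ℕ) : F)) * b j := by
  obtain ⟨Dd, hD0, hz⟩ : ∃ Dd : ℕ, Dd ≠ 0 ∧ ∀ j, ∃ z : ℤ, (Dd : ℚ) * b.repr x j = z := by
    refine ⟨∏ j, (b.repr x j).den, Finset.prod_ne_zero_iff.2 fun j _ => (b.repr x j).den_ne_zero,
      fun j => ?_⟩
    obtain ⟨k, hk⟩ := Finset.dvd_prod_of_mem (fun j => (b.repr x j).den) (Finset.mem_univ j)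
    refine ⟨k * (b.repr x j).num, ?_⟩
    rw [hk]
    push_cast
    rw [mul_comm ((b.repr x j).den : ℚ), mul_assoc, mul_comm ((b.repr x j).den : ℚ),
      Rat.mul_den_eq_num]
  choose z hz using hz
  refine ⟨(Dd, fun j => (z j).toNat, fun j => (-(z j)).toNat), hD0, ?_⟩
  · have h1 : ∀ j, (((z j).toNat : ℕ) : F) - (((-(z j)).toNat : ℕ) : F) = ((z j : ℤ) : F) := by
      intro j
      have h2 : (((z j).toNat : ℕ) : ℤ) - (((-(z j)).toNat : ℕ) : ℤ) = z j :=
        Int.toNat_sub_toNat_neg (z j)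
      have h3 := congrArg (fun y : ℤ => (y : F)) h2
      simp only [Int.cast_sub, Int.cast_natCast] at h3
      exact h3
    simp only [h1]
    conv_lhs => rw [← b.sum_repr x, Finset.mul_sum]
    apply Finset.sum_congr rfl
    intro j _
    have h4 := congrArg (fun y : ℚ => (y : F)) (hz j)
    simp only [Rat.cast_mul, Rat.cast_natCast, Rat.cast_intCast] at h4
    rw [Rat.smul_def, ← mul_assoc, h4]

theorem alpha_eq_id (hC : Cohesive C) (α : KS C F ≃+* KS C F) (hα : ∀ c, α (cst C c) = cst C c)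
    (hN : ∀ t, InN t → α t = t) (t : KS C F) : α t = t := by
  obtain ⟨f, hf, rfl⟩ := exists_rep t
  obtain ⟨d, b, hb⟩ : ∃ (d : ℕ) (b : Module.Basis (Fin d) ℚ F), b = b :=
    ⟨_, Module.finBasis ℚ F, rfl⟩
  have happ : ∀ j : Fin d, Computable fun A : Fin d → ℕ => A j := fun j =>
    (Primrec.fin_app.comp Primrec.id (Primrec.const j)).to_comp
  -- the relation is decidable
  have hcomp : ComputablePred fun q : F × (ℕ × (Fin d → ℕ) × (Fin d → ℕ)) => q.2.1 ≠ 0 ∧
      (q.2.1 : F) * q.1 = ∑ j, (((q.2.2.1 j : ℕ) : F) - ((q.2.2.2 j : ℕ) : F)) * b j := by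
    apply cp_and
    · have h1 : ComputablePred fun q : F × (ℕ × (Fin d → ℕ) × (Fin d → ℕ)) => q.2.1 = 0 :=
        cp_eq (Computable.fst.comp Computable.snd) (Computable.const 0)
      exact h1.not
    · apply cp_eq
      · exact CF.mul.comp (computable_natCast.comp (Computable.fst.comp Computable.snd))
          Computable.fst
      · have hs : ∀ s : Finset (Fin d), Computable fun q : F × (ℕ × (Fin d → ℕ) × (Fin d → ℕ)) =>
            ∑ j ∈ s, (((q.2.2.1 j : ℕ) : F) - ((q.2.2.2 j : ℕ) : F)) * b j := by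
          intro s
          induction s using Finset.induction_on with
          | empty => simpa using (Computable.const (0 : F))
          | insert a s ha ih =>
            have h2 : (fun q : F × (ℕ × (Fin d → ℕ) × (Fin d → ℕ)) =>
                ∑ j ∈ insert a s, (((q.2.2.1 j : ℕ) : F) - ((q.2.2.2 j : ℕ) : F)) * b j) =
                fun q => (((q.2.2.1 a : ℕ) : F) - ((q.2.2.2 a : ℕ) : F)) * b a +
                  ∑ j ∈ s, (((q.2.2.1 j : ℕ) : F) - ((q.2.2.2 j : ℕ) : F)) * b j := by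
              funext q
              rw [Finset.sum_insert ha]
            rw [h2]
            apply CF.add.comp _ ih
            apply CF.mul.comp _ (Computable.const _)
            apply computable_sub.comp
            · exact computable_natCast.comp ((happ a).comp
                (Computable.fst.comp (Computable.snd.comp Computable.snd)))
            · exact computable_natCast.comp ((happ a).comp
                (Computable.snd.comp (Computable.snd.comp Computable.snd)))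
        exact hs Finset.univ
  obtain ⟨g, hg, hg2⟩ := IsPC.search (B := ℕ × (Fin d → ℕ) × (Fin d → ℕ)) hf
    (R := fun x p => p.1 ≠ 0 ∧
      (p.1 : F) * x = ∑ j, (((p.2.1 j : ℕ) : F) - ((p.2.2 j : ℕ) : F)) * b j)
    hcomp.to_re (Filter.Eventually.of_forall fun n => alpha_eq_id_rep b (f n))
  have hD : IsPC C (fun n => (g n).1) := hg.comp Computable.fst
  have hA : ∀ j, IsPC C (fun n => (g n).2.1 j) := fun j =>
    IsPC.comp (g := fun p : ℕ × (Fin d → ℕ) × (Fin d → ℕ) => p.2.1 j)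
      ((happ j).comp (Computable.fst.comp Computable.snd)) hg
  have hB : ∀ j, IsPC C (fun n => (g n).2.2 j) := fun j =>
    IsPC.comp (g := fun p : ℕ × (Fin d → ℕ) × (Fin d → ℕ) => p.2.2 j)
      ((happ j).comp (Computable.snd.comp Computable.snd)) hg
  have hu : ∀ j, IsPC C (fun n => ((((g n).2.1 j : ℕ) : F) - (((g n).2.2 j : ℕ) : F)) * b j) := by
    intro j
    exact IsPC.mul (IsPC.comp₂ computable_sub (IsPC.comp computable_natCast (hA j))
      (IsPC.comp computable_natCast (hB j))) (IsPC.const _)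
  obtain ⟨hs, hsum⟩ := alpha_eq_id_sum (C := C) Finset.univ
    (fun j n => ((((g n).2.1 j : ℕ) : F) - (((g n).2.2 j : ℕ) : F)) * b j) hu
  have hterm : ∀ j, of (fun n => ((((g n).2.1 j : ℕ) : F) - (((g n).2.2 j : ℕ) : F)) * b j) (hu j) =
      (ofN _ (hA j) - ofN _ (hB j)) * cst C (b j) := fun j => rfl
  have hmain : ofN _ hD * of f hf = ∑ j, (ofN _ (hA j) - ofN _ (hB j)) * cst C (b j) := by
    rw [← Finset.sum_congr rfl fun j _ => hterm j, hsum]
    unfold ofN
    rw [of_mul, of_eq]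
    filter_upwards [hg2] with n hn
    exact hn.2
  have hα2 : α (ofN _ hD * of f hf) = ofN _ hD * of f hf := by
    conv_lhs => rw [hmain, map_sum]
    rw [hmain]
    apply Finset.sum_congr rfl
    intro j _
    rw [map_mul, map_sub, hN _ (inN_ofN _ _), hN _ (inN_ofN _ _), hα]
  rw [map_mul, hN _ (inN_ofN _ _)] at hα2
  have hne : ofN (F := F) _ hD ≠ 0 := by
    unfold ofN
    rw [ne_zero_iff hC]
    filter_upwards [hg2] with n hn
    exact Nat.cast_ne_zero.2 hn.1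
  obtain ⟨y, hy⟩ := ks_inv hC _ hne
  calc α (of f hf) = (ofN _ hD * y) * α (of f hf) := by rw [hy, one_mul]
    _ = y * (ofN _ hD * α (of f hf)) := by ring
    _ = y * (ofN _ hD * of f hf) := by rw [hα2]
    _ = (ofN _ hD * y) * of f hf := by ring
    _ = of f hf := by rw [hy, one_mul]

end T

section fin
variable {C : Set ℕ} {F : Type} [Field F] [NumberField F]

theorem pres_CF (P : Pres F) : @CF F _ (Primcodable.ofEquiv ℕ P.e) := by
  letI : Primcodable F := Primcodable.ofEquiv ℕ P.e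
  have he : Computable (P.e : F → ℕ) := (Primrec.of_equiv (e := P.e)).to_comp
  have hs : Computable (P.e.symm : ℕ → F) := (Primrec.of_equiv_symm (e := P.e)).to_comp
  refine { add := ?_, mul := ?_ }
  · have h : Computable fun p : F × F =>
        P.e.symm (P.e (P.e.symm (P.e p.1) + P.e.symm (P.e p.2))) :=
      hs.comp (P.add.comp (he.comp Computable.fst) (he.comp Computable.snd))
    exact h.of_eq fun p => by simp
  · have h : Computable fun p : F × F =>
        P.e.symm (P.e (P.e.symm (P.e p.1) * P.e.symm (P.e p.2))) :=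
      hs.comp (P.mul.comp (he.comp Computable.fst) (he.comp Computable.snd))
    exact h.of_eq fun p => by simp

theorem pres_e (P : Pres F) : @Computable ℕ F _ (Primcodable.ofEquiv ℕ P.e) P.e.symm := by
  letI : Primcodable F := Primcodable.ofEquiv ℕ P.e
  exact (Primrec.of_equiv_symm (e := P.e)).to_comp

open Classical in
/-- total version of `φ`, with values in `F` -/
noncomputable def cohG {F : Type} [Field F] (P : Pres F) {C : Set ℕ} (φ : D C) (n : ℕ) : F :=
  if h : (φ.1 n).Dom then P.e.symm ((φ.1 n).get h) else 0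

theorem cohG_eq {F : Type} [Field F] (P : Pres F) {C : Set ℕ} (φ : D C) {n m : ℕ}
    (h : m ∈ φ.1 n) : cohG P φ n = P.e.symm m := by
  obtain ⟨hd, hm⟩ := h
  unfold cohG
  rw [dif_pos hd, hm]

theorem coh_dom {C : Set ℕ} (φ : D C) : ∀ᶠ n in fl C, ∃ m, m ∈ φ.1 n := by
  rw [fl_iff]
  refine φ.2.2.subset ?_
  rintro n ⟨hn, h⟩
  exact ⟨hn, fun hd => h (Part.dom_iff_mem.1 hd)⟩

theorem coh_equiv_aux {F : Type} [Field F] (P : Pres F) (C : Set ℕ) [Primcodable F] [CF F]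
    (h1 : Computable (P.e : F → ℕ)) (h2 : Computable (P.e.symm : ℕ → F)) :
    ∃ E : CohPow P C ≃+* KS C F, ∀ (φ : D C) (f : ℕ → F) (hf : IsPC C f),
      (∀ᶠ n in fl C, ∃ m ∈ φ.1 n, f n = P.e.symm m) → E (CohPow.mk P C φ) = of f hf := by
  have hg : ∀ φ : D C, IsPC C (cohG P φ) := by
    intro φ
    refine ⟨fun n => (φ.1 n).map P.e.symm, φ.2.1.map (h2.comp Computable.snd).to₂, ?_⟩
    filter_upwards [coh_dom φ] with n hn
    obtain ⟨m, hm⟩ := hn
    rw [cohG_eq P φ hm]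
    exact Part.mem_map _ hm
  have hwd : ∀ φ ψ : D C, (D.setoid C).r φ ψ → of (cohG P φ) (hg φ) = of (cohG P ψ) (hg ψ) := by
    intro φ ψ h
    rw [of_eq, fl_iff]
    refine Set.Finite.subset h ?_
    rintro n ⟨hn, h'⟩
    refine ⟨hn, fun ⟨m, a, b⟩ => h' ?_⟩
    change cohG P φ n = cohG P ψ n
    rw [cohG_eq P φ a, cohG_eq P ψ b]
  let E0 : CohPow P C → KS C F := Quotient.lift (fun φ => of (cohG P φ) (hg φ)) hwd
  have hE0 : ∀ φ, E0 (CohPow.mk P C φ) = of (cohG P φ) (hg φ) := fun φ => rfl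
  have hinj : Function.Injective E0 := by
    intro x y
    refine Quotient.inductionOn₂ x y ?_
    intro φ ψ h
    have h' : ∀ᶠ n in fl C, cohG P φ n = cohG P ψ n := of_eq.1 h
    apply Quotient.sound
    have h3 : ∀ᶠ n in fl C, ∃ m, m ∈ φ.1 n ∧ m ∈ ψ.1 n := by
      filter_upwards [h', coh_dom φ, coh_dom ψ] with n a b c
      obtain ⟨m, hm⟩ := b
      obtain ⟨m', hm'⟩ := c
      rw [cohG_eq P φ hm, cohG_eq P ψ hm'] at a
      have := P.e.symm.injective a
      subst this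
      exact ⟨m, hm, hm'⟩
    exact fl_iff.1 h3
  have hsurj : Function.Surjective E0 := by
    intro x
    obtain ⟨f, hf, rfl⟩ := exists_rep x
    obtain ⟨Φ, hΦ, hΦ'⟩ := id hf
    let φ : D C := ⟨fun n => (Φ n).map P.e, hΦ.map (h1.comp Computable.snd).to₂, by
      have h4 : ∀ᶠ n in fl C, n ∈ {n | ((Φ n).map P.e).Dom} := by
        filter_upwards [hΦ'] with n a
        exact Part.dom_iff_mem.2 ⟨_, Part.mem_map _ a⟩
      exact fl_iff.1 h4⟩
    refine ⟨CohPow.mk P C φ, ?_⟩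
    rw [hE0, of_eq]
    filter_upwards [hΦ'] with n a
    rw [cohG_eq P φ (m := P.e (f n)) (Part.mem_map _ a), Equiv.symm_apply_apply]
  have hadd : ∀ x y, E0 (x + y) = E0 x + E0 y := by
    intro x y
    refine Quotient.inductionOn₂ x y ?_
    intro φ ψ
    change of (cohG P (D.map₂ _ P.add φ ψ)) (hg _) = of (cohG P φ) (hg φ) + of (cohG P ψ) (hg ψ)
    rw [of_add, of_eq]
    filter_upwards [coh_dom φ, coh_dom ψ] with n b c
    obtain ⟨m, hm⟩ := b
    obtain ⟨m', hm'⟩ := c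
    rw [cohG_eq P φ hm, cohG_eq P ψ hm', cohG_eq P (D.map₂ _ P.add φ ψ)
      (m := P.e (P.e.symm m + P.e.symm m')) (Part.mem_bind hm (Part.mem_map _ hm')),
      Equiv.symm_apply_apply]
  have hmul : ∀ x y, E0 (x * y) = E0 x * E0 y := by
    intro x y
    refine Quotient.inductionOn₂ x y ?_
    intro φ ψ
    change of (cohG P (D.map₂ _ P.mul φ ψ)) (hg _) = of (cohG P φ) (hg φ) * of (cohG P ψ) (hg ψ)
    rw [of_mul, of_eq]
    filter_upwards [coh_dom φ, coh_dom ψ] with n b c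
    obtain ⟨m, hm⟩ := b
    obtain ⟨m', hm'⟩ := c
    rw [cohG_eq P φ hm, cohG_eq P ψ hm', cohG_eq P (D.map₂ _ P.mul φ ψ)
      (m := P.e (P.e.symm m * P.e.symm m')) (Part.mem_bind hm (Part.mem_map _ hm')),
      Equiv.symm_apply_apply]
  refine ⟨{ Equiv.ofBijective E0 ⟨hinj, hsurj⟩ with map_add' := hadd, map_mul' := hmul }, ?_⟩
  intro φ f hf h
  change E0 (CohPow.mk P C φ) = of f hf
  rw [hE0, of_eq]
  filter_upwards [h] with n a
  obtain ⟨m, hm, e⟩ := a
  rw [cohG_eq P φ hm, e]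

theorem coh_equiv (P : Pres F) (C : Set ℕ) :
    letI : Primcodable F := Primcodable.ofEquiv ℕ P.e
    haveI : CF F := pres_CF P
    ∃ E : CohPow P C ≃+* KS C F, ∀ (φ : D C) (f : ℕ → F) (hf : IsPC C f),
      (∀ᶠ n in fl C, ∃ m ∈ φ.1 n, f n = P.e.symm m) → E (CohPow.mk P C φ) = of f hf := by
  exact @coh_equiv_aux F _ P C (Primcodable.ofEquiv ℕ P.e) (pres_CF P)
    (@Primrec.to_comp _ _ (Primcodable.ofEquiv ℕ P.e) _ _ Primrec.of_equiv) (pres_e P)

theorem pres_aut (P : Pres F) (σ : F ≃+* F) : Computable fun m => P.e (σ (P.e.symm m)) := by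
  letI : Primcodable F := Primcodable.ofEquiv ℕ P.e
  haveI : CF F := pres_CF P
  have h1 : Computable (fun m : ℕ => σ (P.e.symm m)) := (aut_computable σ).comp (pres_e P)
  have h2 : Computable (fun x : F => (Encodable.encode x : ℕ)) := Computable.encode
  have h3 : (fun x : F => (Encodable.encode x : ℕ)) = fun x => P.e x := by
    funext x
    rfl
  rw [h3] at h2
  exact h2.comp h1

end fin

end Pool.Agent.Helper437.CP
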