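import Mathlib
import Pool.Agent.Helper437.CP.A2

set_option autoImplicit false

namespace Pool.Agent.Helper437.CP

open Filter

section M
variable {C : Set ℕ} {F : Type} [Field F] [NumberField F] [Primcodable F] [CF F]

theorem SSr_map {R : Type} [CommRing R] (α : R ≃+* R) {a b x : R} (h : x ∈ SSr a b) :
    α x ∈ SSr (α a) (α b) := by
  obtain ⟨s, r, w, h⟩ := h
  refine ⟨α s, α r, α w, ?_⟩
  have := congrArg α h
  have h4 : α 4 = 4 := map_ofNat α 4
  simpa [h4] using this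

theorem FamR_map {R : Type} [CommRing R] (α : R ≃+* R) {c0 c b : R} (h : b ∈ FamR c0 c) :
    α b ∈ FamR (α c0) (α c) := by
  obtain ⟨hb, y0, y1, y2, h⟩ := h
  refine ⟨by simpa using hb, α y0, α y1, α y2, ?_⟩
  have := congrArg α h
  have h4 : α 8 = 8 := map_ofNat α 8
  simpa [h4] using this

theorem Xdef_map (α : KS C F ≃+* KS C F) (hα : ∀ c, α (cst C c) = cst C c) {c0 c : F}
    {L : List (F × F)} (t : KS C F)
    (h : ∀ a b : KS C F, a ≠ 0 → (b ∈ FamR (cst C c0) (cst C c) ∨ ∃ p ∈ L, b = cst C p.2) →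
      ∃ x ∈ SSr a b, t - x ∈ SSr a b) :
    ∀ a b : KS C F, a ≠ 0 → (b ∈ FamR (cst C c0) (cst C c) ∨ ∃ p ∈ L, b = cst C p.2) →
      ∃ x ∈ SSr a b, α t - x ∈ SSr a b := by
  have hα' : ∀ c, α.symm (cst C c) = cst C c := fun c => by
    rw [RingEquiv.symm_apply_eq, hα]
  intro a b ha hb
  obtain ⟨x, h1, h2⟩ := h (α.symm a) (α.symm b) (by simpa using ha) (by
    rcases hb with hb | ⟨p, hp, hb⟩
    · left
      have := FamR_map α.symm hb
      rwa [hα', hα'] at this
    · right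
      exact ⟨p, hp, by rw [hb, hα']⟩)
  refine ⟨α x, ?_, ?_⟩
  · have := SSr_map α h1
    simpa using this
  · have := SSr_map α h2
    simpa using this

theorem Sp_map {R : Type} [CommRing R] (α : R ≃+* R) (Q : R → Prop) (hQ : ∀ t, Q t → Q (α t))
    (I : ℕ) {f g h x : R} (H : Sp Q I f g h x) : Sp Q I (α f) (α g) (α h) (α x) := by
  obtain ⟨h1, h2, z, h3, h4⟩ := H
  refine ⟨hQ _ h1, ?_, α z, hQ _ h3, ?_⟩
  · intro i hi
    obtain ⟨z, h5, h6⟩ := h2 i hi
    refine ⟨α z, hQ _ h5, ?_⟩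
    have := congrArg α h6
    simpa using this
  · have := congrArg α h4
    simpa using this

theorem Ndef_map (α : KS C F ≃+* KS C F)
    (hQ : ∀ t, InP (RN F 2) t → InP (RN F 2) (α t))
    (hQ' : ∀ t, InP (RN F 2) t → InP (RN F 2) (α.symm t)) (I : ℕ) (t : KS C F)
    (h : Ndef I t) : Ndef I (α t) := by
  obtain ⟨f, g, h, h0, h1, h2⟩ := h
  refine ⟨α f, α g, α h, by simpa using h0, ?_, ?_⟩
  · have := Sp_map α _ hQ I h1
    simpa using this
  · intro x hx
    have := Sp_map α.symm _ hQ' I hx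
    simp only [RingEquiv.symm_apply_apply] at this
    rcases h2 _ this with h3 | h3
    · left
      rw [← h3]; simp
    · right
      have := Sp_map α _ hQ I h3
      simpa using this

theorem main_fix (hNT : NTStatement F) (hC : Cohesive C) (e : ℕ ≃ F) (he : Computable e)
    (α : KS C F ≃+* KS C F) (hα : ∀ c, α (cst C c) = cst C c) (t : KS C F) : α t = t := by
  obtain ⟨N0, c0, c, G, L, hN0, _, hL, hA, hB1, hB2, hB3⟩ := hNT
  have hα' : ∀ c, α.symm (cst C c) = cst C c := fun c => by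
    rw [RingEquiv.symm_apply_eq, hα]
  have hX : ∀ (β : KS C F ≃+* KS C F), (∀ c, β (cst C c) = cst C c) →
      ∀ t, InP (RN F 2) t → InP (RN F 2) (β t) := by
    intro β hβ t ht
    refine X_mpr hC e he hN0 hL hB1 (hB2 e) (hB3 e) (β t) ?_
    refine Xdef_map β hβ t ?_
    intro a b ha hb
    exact X_mp hC hA t ht a b ha hb
  have hQ := hX α hα
  have hQ' := hX α.symm hα'
  obtain ⟨I, κ, hI, hch⟩ := chain_lemma F
  have hN : ∀ t, InN t → InN (α t) := fun t ht =>
    N_mpr hC hI _ (Ndef_map α hQ hQ' I t (N_mp hC hch t ht))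
  have hN' : ∀ t, InN t → InN (α.symm t) := fun t ht =>
    N_mpr hC hI _ (Ndef_map α.symm hQ' (by simpa using hQ) I t (N_mp hC hch t ht))
  have hNi : ∀ t, InN t ↔ InN (α t) := fun t => ⟨hN t, fun h => by simpa using hN' _ h⟩
  exact alpha_eq_id hC α hα (fun t ht => alpha_fix_N hC α hα hNi t ht) t

theorem exists_sigma (hC : Cohesive C) (α : KS C F ≃+* KS C F) :
    ∃ σ : F ≃+* F, ∀ c, α (cst C c) = cst C (σ c) := by
  haveI := fl_neBot hC
  have inj : ∀ a b : F, cst C a = cst C b → a = b := by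
    intro a b h
    have := of_eq.1 h
    exact (this.exists).choose_spec
  choose s hs using alg_const hC α
  choose s' hs' using alg_const hC α.symm
  refine ⟨{ toFun := s, invFun := s', left_inv := ?_, right_inv := ?_, map_mul' := ?_,
            map_add' := ?_ }, hs⟩
  · intro c
    apply inj
    rw [← hs', ← hs]; simp
  · intro c
    apply inj
    rw [← hs, ← hs']; simp
  · intro a b
    apply inj
    rw [← hs, cst_mul, map_mul, hs, hs, cst_mul]
  · intro a b
    apply inj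
    rw [← hs, cst_add, map_add, hs, hs, cst_add]

theorem main_KS (hNT : NTStatement F) (hC : Cohesive C) (e : ℕ ≃ F) (he : Computable e)
    (α : KS C F ≃+* KS C F) : ∃ σ : F ≃+* F, ∀ (f : ℕ → F) (hf : IsPC C f)
      (h' : IsPC C fun n => σ (f n)), α (of f hf) = of (fun n => σ (f n)) h' := by
  obtain ⟨σ, hσ⟩ := exists_sigma hC α
  obtain ⟨β, hβ⟩ := exists_map (C := C) σ
  refine ⟨σ, fun f hf h' => ?_⟩
  rw [← hβ f hf h']
  have hfix : ∀ c, (α.trans β.symm) (cst C c) = cst C c := by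
    intro c
    rw [RingEquiv.trans_apply, RingEquiv.symm_apply_eq, hσ]
    exact (hβ _ _ (IsPC.const _)).symm
  have := main_fix hNT hC e he (α.trans β.symm) hfix (of f hf)
  rw [RingEquiv.trans_apply, RingEquiv.symm_apply_eq] at this
  exact this

end M

section final
variable {F : Type} [Field F] [NumberField F] (P : Pres F) (C : Set ℕ)

theorem mk_surj (x : CohPow P C) : ∃ φ : D C, x = CohPow.mk P C φ := by
  obtain ⟨φ, h⟩ := Quotient.exists_rep x
  exact ⟨φ, h.symm⟩

theorem D_rep (φ : D C) : ∃ f : ℕ → F,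
    (@IsPC C F (Primcodable.ofEquiv ℕ P.e) f) ∧ ∀ᶠ n in fl C, ∃ m ∈ φ.1 n, f n = P.e.symm m := by
  letI : Primcodable F := Primcodable.ofEquiv ℕ P.e
  classical
  refine ⟨fun n => if h : (φ.1 n).Dom then P.e.symm ((φ.1 n).get h) else 0, ?_, ?_⟩
  · refine ⟨fun n => (φ.1 n).map P.e.symm, φ.2.1.map ((pres_e P).comp Computable.snd).to₂, ?_⟩
    have := φ.2.2
    have h2 : ∀ᶠ n in fl C, n ∈ φ.1.Dom := fl_iff.2 this
    filter_upwards [h2] with n hn
    have hn' : (φ.1 n).Dom := hn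
    simp only [hn', dite_true]
    exact Part.mem_map _ (Part.get_mem hn')
  · have := φ.2.2
    have h2 : ∀ᶠ n in fl C, n ∈ φ.1.Dom := fl_iff.2 this
    filter_upwards [h2] with n hn
    have hn' : (φ.1 n).Dom := hn
    simp only [hn', dite_true]
    exact ⟨_, Part.get_mem hn', rfl⟩

theorem main (hNT : NTStatement F) (hC : Cohesive C) :
    ∃ Φ : RingAut F ≃* RingAut (CohPow P C), ∀ σ : RingAut F,
      ∃ h : Computable fun m => P.e (σ (P.e.symm m)),
        ∀ φ : D C, Φ σ (CohPow.mk P C φ) = CohPow.mk P C (φ.map _ h) := by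
  letI : Primcodable F := Primcodable.ofEquiv ℕ P.e
  haveI : CF F := pres_CF P
  haveI := fl_neBot hC
  obtain ⟨E, hE⟩ := coh_equiv P C
  choose β hβ using fun σ : F ≃+* F => exists_map (C := C) σ
  let Ψ : RingAut F → RingAut (CohPow P C) := fun σ => (E.trans (β σ)).trans E.symm
  have hΨ : ∀ (σ : RingAut F) (φ : D C),
      Ψ σ (CohPow.mk P C φ) = CohPow.mk P C (φ.map _ (pres_aut P σ)) := by
    intro σ φ
    obtain ⟨f, hf, h1⟩ := D_rep P C φ
    have hσf : IsPC C (fun n => σ (f n)) := IsPC.comp (aut_computable σ) hf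
    change E.symm (β σ (E (CohPow.mk P C φ))) = _
    rw [RingEquiv.symm_apply_eq, hE φ f hf h1, hβ σ f hf hσf]
    rw [hE (φ.map _ (pres_aut P σ)) _ hσf]
    filter_upwards [h1] with n hn
    obtain ⟨m, hm, hm'⟩ := hn
    refine ⟨P.e (σ (P.e.symm m)), Part.mem_map _ hm, ?_⟩
    rw [hm']; simp
  have hmul : ∀ σ τ, Ψ (σ * τ) = Ψ σ * Ψ τ := by
    intro σ τ
    ext x
    obtain ⟨φ, rfl⟩ := mk_surj P C x
    change _ = Ψ σ (Ψ τ _)
    rw [hΨ, hΨ, hΨ]
    apply Quotient.sound
    refine (φ.2.2).subset ?_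
    rintro n ⟨hn, h⟩
    refine ⟨hn, fun hd => h ?_⟩
    obtain ⟨m, hm⟩ := Part.dom_iff_mem.1 hd
    refine ⟨_, Part.mem_map _ hm, ?_⟩
    have := Part.mem_map (fun m => P.e (σ (P.e.symm m))) (Part.mem_map (fun m => P.e (τ (P.e.symm m))) hm)
    rw [Equiv.symm_apply_apply] at this
    exact this
  have hinj : Function.Injective Ψ := by
    intro σ τ h
    ext c
    have hc : IsPC C (fun _ : ℕ => c) := IsPC.const c
    obtain ⟨φ, hφ⟩ := mk_surj P C (E.symm (of (fun _ => c) hc))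
    have h1 : Ψ σ (E.symm (of (fun _ => c) hc)) = Ψ τ (E.symm (of (fun _ => c) hc)) := by rw [h]
    change E.symm (β σ (E (E.symm _))) = E.symm (β τ (E (E.symm _))) at h1
    have h2 := E.symm.injective h1
    simp only [RingEquiv.apply_symm_apply] at h2
    rw [hβ σ _ _ (IsPC.const _), hβ τ _ _ (IsPC.const _)] at h2
    exact ((of_eq.1 h2).exists).choose_spec
  have hsurj : Function.Surjective Ψ := by
    intro α
    obtain ⟨σ, hσ⟩ := main_KS hNT hC P.e.symm (pres_e P) ((E.symm.trans α).trans E)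
    refine ⟨σ, ?_⟩
    ext x
    change E.symm (β σ (E x)) = α x
    rw [RingEquiv.symm_apply_eq]
    obtain ⟨f, hf, hx⟩ := exists_rep (E x)
    have hσf : IsPC C (fun n => σ (f n)) := IsPC.comp (aut_computable σ) hf
    rw [hx, hβ σ f hf hσf, ← hσ f hf hσf, ← hx]
    simp
  refine ⟨MulEquiv.ofBijective (MonoidHom.mk' Ψ hmul) ⟨hinj, hsurj⟩, fun σ => ⟨pres_aut P σ, ?_⟩⟩
  intro φ
  exact hΨ σ φ

end final

end Pool.Agent.Helper437.CP
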